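import Pool.Agent.Work.MP_c20ce7_lab.Interface
import Pool.Agent.Work.MP_c20ce7_dm82.RI

/-! # Block ABF: from `HasGood` to `ABV` -/

set_option autoImplicit false

open MvPolynomial Matrix Topology

noncomputable section

namespace Pool.DM

section ABFaux

variable {ι : Type} [Fintype ι] [DecidableEq ι]

theorem ABF_co (e : ι → ℤ) : CoRel (Equiv.refl ι) e (fun a => (e a : ℝ)) := by
  intro a b
  constructor
  · intro h
    show (e a : ℝ) = (e b : ℝ) + 1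
    rw [h]
    push_cast
    ring
  · intro h
    have h' : (e a : ℝ) = (e b : ℝ) + 1 := h
    exact_mod_cast h'

theorem ABF_deg (e : ι → ℤ) : DegRel (Equiv.refl ι) e (fun a => (e a : ℝ)) := by
  intro a b
  constructor
  · intro h
    show (e a : ℝ) = (e b : ℝ)
    rw [h]
  · intro h
    have h' : (e a : ℝ) = (e b : ℝ) := h
    exact_mod_cast h'

theorem ABF_mat (e : ι → ℤ) (x : Co (fun a => (e a : ℝ)) → ℂ) :
    mat e (x ∘ coMap (ABF_co e)) = mat (fun a => (e a : ℝ)) x := by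
  funext a b
  exact mat_coMap (ABF_co e) x a b

theorem ABF_ymat (e : ι → ℤ) (x : Co (fun a => (e a : ℝ)) → ℂ) :
    ymat e (x ∘ coMap (ABF_co e)) = ymat (fun a => (e a : ℝ)) x := by
  funext a b
  exact ymat_coMap (ABF_co e) x a b

theorem ABF_orb (hORB : Stmt_ORB) {κ : Type} [Fintype κ] (e : ι → ℤ) (N : κ → Seg)
    (hN : ∀ k, (N k).1 ≤ (N k).2) (x : Co (fun a => (e a : ℝ)) → ℂ) :
    x ∈ orb (fun a => (e a : ℝ)) (Pool.Agent.MPc20ce7.par (Finset.univ.val.map N)) ↔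
      x ∘ coMap (ABF_co e) ∈ orbN e N := by
  rw [hORB ι κ e N hN x]
  constructor
  · rintro ⟨x1, h1, h2⟩
    have h3 : x1 = x ∘ coMap (ABF_co e) := mat_injective e (by rw [h2, ABF_mat])
    rwa [← h3]
  · intro h
    exact ⟨_, h, ABF_mat e x⟩

theorem ABF_ne (hMPT : Stmt_MPT) (hORB : Stmt_ORB) {κ : Type} [Fintype κ] (e : ι → ℤ) (N : κ → Seg)
    (hN : ∀ k, (N k).1 ≤ (N k).2) (hsg : ∃ sg, Boxing e N sg) :
    (orb (fun a => (e a : ℝ)) (Pool.Agent.MPc20ce7.par (Finset.univ.val.map N))).Nonempty := by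
  obtain ⟨sg, hsg⟩ := hsg
  obtain ⟨m1, -, -, -, m5, -, -, m8⟩ := hMPT ι e
  have h1 : ptOf e (smat e sg) ∈ orbN e N :=
    ⟨sg, hsg, 1, 1, m8, m8, one_mul 1, one_mul 1, by rw [m1 _ (m5 κ sg), one_mul, mul_one]⟩
  refine ⟨ptOf e (smat e sg) ∘ (coMap (ABF_co e)).symm, ?_⟩
  rw [ABF_orb hORB e N hN]
  have h2 : (ptOf e (smat e sg) ∘ (coMap (ABF_co e)).symm) ∘ coMap (ABF_co e) =
      ptOf e (smat e sg) := by
    funext c
    simp
  rwa [h2]

end ABFaux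

theorem p_ABF (hCON : Stmt_CON) (hORB : Stmt_ORB) (hSUP : Stmt_SUP) (hMPT : Stmt_MPT)
    (_hREX : Stmt_REX) : Stmt_ABF := by
  intro κ κ2 _ _ M N hM hN hG
  obtain ⟨ι, iF, iD, e, L, iA, iM, W, hG⟩ := hG
  refine ⟨ι, iF, iD, fun a => (e a : ℝ), ABF_ne hMPT hORB e N hN hG.exN,
    ABF_ne hMPT hORB e M hM hG.exM, L, iA, iM, W.rex (coMap (ABF_co e)), ?_, ?_⟩
  · have h1 : W.IsIC (orbN e M) := ⟨hG.simple, hG.growth, hG.equi, hSUP ι κ κ2 e L W M N hG⟩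
    exact h1.coMap (ABF_co e) (ABF_deg e) fun x => ABF_orb hORB e M hM x
  · rintro ⟨x, ξ⟩ hp
    obtain ⟨h1, h2⟩ := (hCON ℝ ι (fun a => (e a : ℝ)) _ x ξ).1 hp
    refine WMod.InCh.rex (f := coMap (ABF_co e)) ?_
    refine hG.labN _ ((ABF_orb hORB e N hN x).1 h1) _ ?_
    rw [ABF_mat, ABF_ymat]
    exact h2

end Pool.DM
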