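import Pool.Agent.Work.MP_c20ce7_lab.Interface

/-! # Block AUT: the automorphism `1 + nt` -/

set_option autoImplicit false

open MvPolynomial Matrix Topology

noncomputable section

namespace Pool.DM

variable {ι κ : Type} [Fintype ι] [DecidableEq ι] [DecidableEq κ]

theorem AUT_smat_pos (e : ι → ℤ) (sg : ι → κ) {a b : ι} (h1 : sg a = sg b) (h2 : e a = e b + 1) :
    smat e sg a b = 1 := by
  unfold smat
  exact if_pos ⟨h1, h2⟩

theorem AUT_smat_neg (e : ι → ℤ) (sg : ι → κ) {a b : ι} (h : ¬ (sg a = sg b ∧ e a = e b + 1)) :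
    smat e sg a b = 0 := by
  unfold smat
  exact if_neg h

theorem AUT_nt_pos (e : ι → ℤ) (sg : ι → κ) (t : Matrix κ κ ℂ) {a b : ι} (h : e a = e b) :
    nt e sg t a b = t (sg a) (sg b) := if_pos h

theorem AUT_nt_neg (e : ι → ℤ) (sg : ι → κ) (t : Matrix κ κ ℂ) {a b : ι} (h : e a ≠ e b) :
    nt e sg t a b = 0 := if_neg h

theorem p_AUT : Stmt_AUT := by
  intro ι κ _ _ _ e N sg hB i U hU t ht
  refine ⟨?_, ?_, ?_⟩
  · intro a b h
    by_contra hcon
    exact h (AUT_nt_neg e sg t (fun h' => hcon (by rw [h', add_zero])))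
  · ext p q
    rw [Matrix.mul_apply, Matrix.zero_apply]
    refine Finset.sum_eq_zero fun r _ => ?_
    by_cases h1 : e p = e r
    · by_cases h2 : e r = e q
      · rw [AUT_nt_pos e sg t h1, AUT_nt_pos e sg t h2]
        by_contra hcon
        have h3 := ht _ _ (left_ne_zero_of_mul hcon)
        have h4 := ht _ _ (right_ne_zero_of_mul hcon)
        exact h3.2.1 h4.1
      · rw [AUT_nt_neg e sg t h2, mul_zero]
    · rw [AUT_nt_neg e sg t h1, zero_mul]
  · ext p q
    rw [Matrix.mul_apply, Matrix.mul_apply]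
    by_cases hpq : e p = e q + 1 ∧ t (sg p) (sg q) ≠ 0
    · obtain ⟨hpq, h0⟩ := hpq
      obtain ⟨k1, -, k3, k4⟩ := ht _ _ h0
      obtain ⟨u1, u2⟩ := hU _ k1
      have mp := hB.mem p
      have mq := hB.mem q
      obtain ⟨r1, r1s, r1e⟩ := hB.ex (sg q) (e q + 1) (by omega) (by omega)
      obtain ⟨r2, r2s, r2e⟩ := hB.ex (sg p) (e q) (by omega) (by omega)
      rw [Finset.sum_eq_single r1, Finset.sum_eq_single r2]
      · rw [AUT_nt_pos e sg t (hpq.trans r1e.symm), AUT_smat_pos e sg r1s r1e, mul_one,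
          AUT_smat_pos e sg r2s.symm (by rw [hpq, r2e]), AUT_nt_pos e sg t r2e, one_mul, r1s, r2s]
      · intro r _ hr
        rw [AUT_smat_neg, zero_mul]
        rintro ⟨h1, h2⟩
        exact hr (hB.inj _ _ (by rw [r2s, h1]) (by omega))
      · intro h
        exact absurd (Finset.mem_univ _) h
      · intro r _ hr
        rw [AUT_smat_neg (a := r), mul_zero]
        rintro ⟨h1, h2⟩
        exact hr (hB.inj _ _ (by rw [r1s, h1]) (by omega))
      · intro h
        exact absurd (Finset.mem_univ _) h
    · rw [Finset.sum_eq_zero, Finset.sum_eq_zero]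
      · intro r _
        by_cases h1 : sg p = sg r ∧ e p = e r + 1
        · by_cases h2 : e r = e q
          · rw [AUT_nt_pos e sg t h2, ← h1.1]
            have h3 : t (sg p) (sg q) = 0 := by
              by_contra hcon
              exact hpq ⟨by omega, hcon⟩
            rw [h3, mul_zero]
          · rw [AUT_nt_neg e sg t h2, mul_zero]
        · rw [AUT_smat_neg e sg h1, zero_mul]
      · intro r _
        by_cases h1 : sg r = sg q ∧ e r = e q + 1
        · by_cases h2 : e p = e r
          · rw [AUT_nt_pos e sg t h2, h1.1]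
            have h3 : t (sg p) (sg q) = 0 := by
              by_contra hcon
              exact hpq ⟨by omega, hcon⟩
            rw [h3, zero_mul]
          · rw [AUT_nt_neg e sg t h2, zero_mul]
        · rw [AUT_smat_neg e sg h1, mul_zero]

end Pool.DM
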