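import Pool.Agent.Work.MP_c20ce7_lab.Interface

set_option autoImplicit false

/-!
# Block BLK: conjugation by `1 + nt` makes the rows at `(c, i)`, `c ∈ U`, zero
-/

open MvPolynomial Matrix Topology

noncomputable section

namespace Pool.DM

theorem BLK_deg_mul {ι : Type} [Fintype ι] {e : ι → ℤ} {m n : ℤ} {a b : Matrix ι ι ℂ}
    (ha : Deg e m a) (hb : Deg e n b) : Deg e (m + n) (a * b) := by
  intro p q h
  rw [Matrix.mul_apply] at h
  obtain ⟨r, -, hr⟩ := Finset.exists_ne_zero_of_sum_ne_zero h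
  have h1 := ha p r (left_ne_zero_of_mul hr)
  have h2 := hb r q (right_ne_zero_of_mul hr)
  omega

theorem BLK_deg_one {ι : Type} [DecidableEq ι] {e : ι → ℤ} : Deg e 0 (1 : Matrix ι ι ℂ) := by
  intro p q h
  by_cases hpq : p = q
  · rw [hpq, add_zero]
  · exact absurd (Matrix.one_apply_ne hpq) h

theorem BLK_deg_add {ι : Type} {e : ι → ℤ} {n : ℤ} {a b : Matrix ι ι ℂ}
    (ha : Deg e n a) (hb : Deg e n b) : Deg e n (a + b) := by
  intro p q h
  by_cases h1 : a p q = 0
  · by_cases h2 : b p q = 0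
    · exact absurd (by rw [Matrix.add_apply, h1, h2, add_zero]) h
    · exact hb p q h2
  · exact ha p q h1

theorem BLK_deg_sub {ι : Type} {e : ι → ℤ} {n : ℤ} {a b : Matrix ι ι ℂ}
    (ha : Deg e n a) (hb : Deg e n b) : Deg e n (a - b) := by
  intro p q h
  by_cases h1 : a p q = 0
  · by_cases h2 : b p q = 0
    · exact absurd (by rw [Matrix.sub_apply, h1, h2, sub_zero]) h
    · exact hb p q h2
  · exact ha p q h1

theorem p_BLK (h1 : Stmt_AUT) : Stmt_BLK := by
  intro ι κ _ _ _ e N sg hsg i U hU t ht y hy hyx hrow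
  obtain ⟨hn0, -, hnx⟩ := h1 ι κ e N sg hsg i U hU t ht
  have hm : Deg e 0 (1 - nt e sg t) := BLK_deg_sub BLK_deg_one hn0
  have hp : Deg e 0 (1 + nt e sg t) := BLK_deg_add BLK_deg_one hn0
  refine ⟨?_, ?_, ?_⟩
  · have := BLK_deg_mul (BLK_deg_mul hm hy) hp
    simpa using this
  · have e1 : (1 + nt e sg t) * smat e sg = smat e sg * (1 + nt e sg t) := by
      rw [add_mul, mul_add, hnx, one_mul, mul_one]
    have e2 : (1 - nt e sg t) * smat e sg = smat e sg * (1 - nt e sg t) := by
      rw [sub_mul, mul_sub, hnx, one_mul, mul_one]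
    calc (1 - nt e sg t) * y * (1 + nt e sg t) * smat e sg
        = (1 - nt e sg t) * y * ((1 + nt e sg t) * smat e sg) := by rw [mul_assoc]
      _ = (1 - nt e sg t) * (y * smat e sg) * (1 + nt e sg t) := by
          rw [e1]; simp only [mul_assoc]
      _ = (1 - nt e sg t) * smat e sg * y * (1 + nt e sg t) := by
          rw [hyx]; simp only [mul_assoc]
      _ = smat e sg * ((1 - nt e sg t) * y * (1 + nt e sg t)) := by
          rw [e2]; simp only [mul_assoc]
  · intro c q hc hcU
    have key : ∀ p, ((1 - nt e sg t) * y) c p = 0 := by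
      intro p
      rw [sub_mul, one_mul, Matrix.sub_apply, hrow c p hc hcU, sub_eq_zero, Matrix.mul_apply]
      refine Finset.sum_congr rfl fun a _ => ?_
      unfold nt
      by_cases ha : e a = i
      · rw [if_pos ha, if_pos (by rw [hc, ha])]
      · rw [if_neg ha, if_neg (by rw [hc]; exact fun h => ha h.symm), zero_mul]
    rw [Matrix.mul_apply]
    exact Finset.sum_eq_zero fun p _ => by rw [key p, zero_mul]

end Pool.DM
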