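import Pool.Agent.Work.MP_c20ce7_lab.Interface

set_option autoImplicit false

/-!
# Block BXC (MP_c20ce7_nt, labels): boxings over a sum (helper94)
-/

open MvPolynomial Matrix Topology

noncomputable section

namespace Pool.DM

theorem p_BXC : Stmt_BXC := by
  classical
  intro ι' C κ _ _ _ _ _ e' i N U hU hcard sg0 hb
  have degr : ∀ c : C, addDeg e' C i (Sum.inr c) = i := fun c => rfl
  have degl : ∀ a : ι', addDeg e' C i (Sum.inl a) = e' a := fun a => rfl
  generalize hdeg : addDeg e' C i = deg at *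
  let F := {a : ι' ⊕ C // deg a = i}
  let p : F → Prop := fun x => ∃ c : C, x.1 = Sum.inr c
  let q : F → Prop := fun x => sg0 x.1 ∈ U
  have hp : Fintype.card {x : F // p x} = Fintype.card C := by
    refine (Fintype.card_congr (Equiv.ofBijective
      (fun c : C => (⟨⟨Sum.inr c, degr c⟩, ⟨c, rfl⟩⟩ : {x : F // p x})) ⟨?_, ?_⟩)).symm
    · intro c c' h
      have h1 : (Sum.inr c : ι' ⊕ C) = Sum.inr c' := congrArg (fun z : {x : F // p x} => z.1.1) h
      exact Sum.inr.inj h1
    · rintro ⟨⟨x, hx⟩, ⟨c, hc⟩⟩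
      refine ⟨c, ?_⟩
      apply Subtype.ext
      apply Subtype.ext
      exact hc.symm
  have hq : Fintype.card {x : F // q x} = U.card := by
    rw [← Fintype.card_coe]
    refine Fintype.card_congr (Equiv.ofBijective
      (fun x : {x : F // q x} => (⟨sg0 x.1.1, x.2⟩ : {k // k ∈ U})) ⟨?_, ?_⟩)
    · rintro ⟨⟨x, hx⟩, hx'⟩ ⟨⟨y, hy⟩, hy'⟩ h
      have h1 : sg0 x = sg0 y := congrArg Subtype.val h
      have h2 : x = y := hb.inj x y h1 (hx.trans hy.symm)
      subst h2
      rfl
    · rintro ⟨c, hc⟩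
      obtain ⟨h1, h2⟩ := hU c hc
      obtain ⟨a, ha, ha'⟩ := hb.ex c i h1.le h2
      exact ⟨⟨⟨a, ha'⟩, by change sg0 a ∈ U; rw [ha]; exact hc⟩, Subtype.ext ha⟩
  let ε : {x : F // p x} ≃ {x : F // q x} := Fintype.equivOfCardEq (hp.trans (hcard.trans hq.symm))
  let πF : Equiv.Perm F := ε.extendSubtype
  let π : Equiv.Perm (ι' ⊕ C) := Equiv.Perm.ofSubtype πF
  have hπ1 : ∀ (a : ι' ⊕ C) (ha : deg a = i), π a = (πF ⟨a, ha⟩ : F).1 := fun a ha =>
    Equiv.Perm.ofSubtype_apply_of_mem πF ha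
  have hπ2 : ∀ a : ι' ⊕ C, deg a ≠ i → π a = a := fun a ha =>
    Equiv.Perm.ofSubtype_apply_of_not_mem πF ha
  have hπd : ∀ a, deg (π a) = deg a := by
    intro a
    by_cases ha : deg a = i
    · rw [hπ1 a ha, ha]
      exact (πF ⟨a, ha⟩ : F).2
    · rw [hπ2 a ha]
  have hin : ∀ c : C, sg0 (π (Sum.inr c)) ∈ U := by
    intro c
    rw [hπ1 _ (degr c)]
    exact ε.extendSubtype_mem (⟨Sum.inr c, degr c⟩ : F) ⟨c, rfl⟩
  have hout : ∀ a : ι', e' a = i → sg0 (π (Sum.inl a)) ∉ U := by
    intro a ha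
    have ha' : deg (Sum.inl a) = i := by rw [degl]; exact ha
    rw [hπ1 _ ha']
    refine ε.extendSubtype_not_mem (⟨Sum.inl a, ha'⟩ : F) ?_
    rintro ⟨c, hc⟩
    exact Sum.inl_ne_inr hc
  have hbox : Boxing deg N (fun a => sg0 (π a)) := by
    refine ⟨?_, ?_, ?_⟩
    · intro a b h1 h2
      exact π.injective (hb.inj _ _ h1 (by rw [hπd, hπd, h2]))
    · intro a
      have := hb.mem (π a)
      rwa [hπd] at this
    · intro k j h1 h2
      obtain ⟨a, ha, ha'⟩ := hb.ex k j h1 h2
      refine ⟨π.symm a, ?_, ?_⟩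
      · change sg0 (π (π.symm a)) = k
        rw [Equiv.apply_symm_apply]
        exact ha
      · have := hπd (π.symm a)
        rw [Equiv.apply_symm_apply] at this
        rw [← this]
        exact ha'
  refine ⟨fun a => sg0 (π a), hbox, hin, hout, ?_, ?_, ?_⟩
  · intro a b h1 h2
    have h3 : (Sum.inl a : ι' ⊕ C) = Sum.inl b :=
      hbox.inj _ _ h1 (by rw [degl, degl]; exact h2)
    exact Sum.inl.inj h3
  · intro a
    have h1 := hbox.mem (Sum.inl a)
    rw [degl] at h1
    unfold redN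
    by_cases hU' : sg0 (π (Sum.inl a)) ∈ U
    · have h2 : e' a ≠ i := fun h => hout a h hU'
      have h3 := (hU _ hU').1
      simp only [hU', if_true]
      refine ⟨?_, h1.2⟩
      have h4 : i ≤ e' a := h3 ▸ h1.1
      omega
    · simp only [hU', if_false]
      exact h1
  · intro k j h1 h2
    unfold redN at h1 h2
    by_cases hk : k ∈ U
    · simp only [hk, if_true] at h1 h2
      obtain ⟨a, ha, ha'⟩ := hbox.ex k j (by rw [(hU k hk).1]; omega) h2
      rcases a with a | c
      · exact ⟨a, ha, by rw [← degl]; exact ha'⟩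
      · exfalso
        rw [degr] at ha'
        omega
    · simp only [hk, if_false] at h1 h2
      obtain ⟨a, ha, ha'⟩ := hbox.ex k j h1 h2
      rcases a with a | c
      · exact ⟨a, ha, by rw [← degl]; exact ha'⟩
      · exfalso
        apply hk
        rw [← ha]
        exact hin c

end Pool.DM
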