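import Pool.Agent.Work.MP_c20ce7_lab.Interface

/-! # Block BXU: extension of boxings -/

set_option autoImplicit false

open MvPolynomial Matrix Topology

noncomputable section

namespace Pool.DM

theorem p_BXU : Stmt_BXU := by
  classical
  intro ι' C κ _ _ _ _ _ e' i N U hU hC sg' hsg
  obtain ⟨φ⟩ : Nonempty (C ≃ U) := by
    refine ⟨Fintype.equivOfCardEq ?_⟩
    rw [hC, Fintype.card_coe]
  have hred : ∀ k ∈ U, redN i U N k = (i + 1, (N k).2) := fun k hk => by
    show (if k ∈ U then (i + 1, (N k).2) else N k) = _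
    rw [if_pos hk]
  have hred' : ∀ k, k ∉ U → redN i U N k = N k := fun k hk => by
    show (if k ∈ U then (i + 1, (N k).2) else N k) = _
    rw [if_neg hk]
  have hnot : ∀ a : ι', e' a = i → sg' a ∉ U := by
    intro a ha hk
    have h := (hsg.mem a).1
    rw [hred _ hk, ha] at h
    simp only at h
    omega
  refine ⟨Sum.elim sg' (fun c => (φ c : κ)), ⟨?_, ?_, ?_⟩, fun c => (φ c).2, hnot, rfl⟩
  · rintro (a | c) (b | c') h1 h2
    · exact congrArg Sum.inl (hsg.inj a b h1 h2)
    · exfalso
      have h3 : sg' a = (φ c' : κ) := h1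
      have h4 : e' a = i := h2
      exact hnot a h4 (h3 ▸ (φ c').2)
    · exfalso
      have h3 : (φ c : κ) = sg' b := h1
      have h4 : i = e' b := h2
      exact hnot b h4.symm (h3 ▸ (φ c).2)
    · have h3 : (φ c : κ) = φ c' := h1
      exact congrArg Sum.inr (φ.injective (Subtype.ext h3))
  · rintro (a | c)
    · show (N (sg' a)).1 ≤ e' a ∧ e' a ≤ (N (sg' a)).2
      have h := hsg.mem a
      by_cases hk : sg' a ∈ U
      · rw [hred _ hk] at h
        simp only at h
        have h5 := (hU _ hk).1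
        omega
      · rw [hred' _ hk] at h
        exact h
    · show (N (φ c : κ)).1 ≤ i ∧ i ≤ (N (φ c : κ)).2
      have h := hU _ (φ c).2
      omega
  · intro k j h1 h2
    by_cases hk : k ∈ U
    · have h5 := (hU k hk).1
      by_cases hj : j = i
      · refine ⟨Sum.inr (φ.symm ⟨k, hk⟩), ?_, hj.symm⟩
        show ((φ (φ.symm ⟨k, hk⟩) : U) : κ) = k
        rw [Equiv.apply_symm_apply]
      · obtain ⟨a, ha, hb⟩ := hsg.ex k j (by rw [hred _ hk]; simp only; omega)
          (by rw [hred _ hk]; exact h2)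
        exact ⟨Sum.inl a, ha, hb⟩
    · obtain ⟨a, ha, hb⟩ := hsg.ex k j (by rw [hred' _ hk]; exact h1)
        (by rw [hred' _ hk]; exact h2)
      exact ⟨Sum.inl a, ha, hb⟩

end Pool.DM
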