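import Pool.Agent.Work.MP_c20ce7_lab.Interface

set_option autoImplicit false

open MvPolynomial Matrix Topology

noncomputable section

namespace Pool.DM

def CHH_M0 : Fin 9 → Seg := ![(1, 4), (1, 6), (2, 5), (2, 7), (3, 6), (4, 4), (4, 7), (5, 8), (7, 8)]
def CHH_N0 : Fin 10 → Seg := ![(1, 4), (1, 4), (2, 6), (2, 6), (3, 5), (4, 5), (4, 7), (5, 8), (6, 7), (7, 8)]
def CHH_M1 : Fin 9 → Seg := ![(1, 4), (1, 6), (2, 5), (2, 7), (3, 6), (4, 4), (4, 7), (6, 8), (7, 8)]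
def CHH_N1 : Fin 10 → Seg := ![(1, 4), (1, 4), (2, 6), (2, 6), (3, 5), (4, 5), (4, 7), (6, 8), (6, 7), (7, 8)]
def CHH_M2 : Fin 9 → Seg := ![(1, 4), (1, 6), (2, 5), (2, 7), (3, 6), (5, 4), (5, 7), (6, 8), (7, 8)]
def CHH_N2 : Fin 10 → Seg := ![(1, 4), (1, 4), (2, 6), (2, 6), (3, 5), (5, 5), (5, 7), (6, 8), (6, 7), (7, 8)]
def CHH_M3 : Fin 9 → Seg := ![(1, 4), (1, 6), (2, 5), (2, 7), (4, 6), (5, 4), (5, 7), (6, 8), (7, 8)]
def CHH_N3 : Fin 10 → Seg := ![(1, 4), (1, 4), (2, 6), (2, 6), (4, 5), (5, 5), (5, 7), (6, 8), (6, 7), (7, 8)]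
def CHH_M4 : Fin 9 → Seg := ![(1, 4), (1, 6), (3, 5), (3, 7), (4, 6), (5, 4), (5, 7), (6, 8), (7, 8)]
def CHH_N4 : Fin 10 → Seg := ![(1, 4), (1, 4), (3, 6), (3, 6), (4, 5), (5, 5), (5, 7), (6, 8), (6, 7), (7, 8)]
def CHH_M5 : Fin 9 → Seg := ![(2, 4), (2, 6), (3, 5), (3, 7), (4, 6), (5, 4), (5, 7), (6, 8), (7, 8)]
def CHH_N5 : Fin 10 → Seg := ![(2, 4), (2, 4), (3, 6), (3, 6), (4, 5), (5, 5), (5, 7), (6, 8), (6, 7), (7, 8)]
def CHH_M6 : Fin 9 → Seg := ![(2, 4), (2, 6), (3, 5), (3, 7), (4, 6), (5, 4), (5, 7), (7, 8), (7, 8)]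
def CHH_N6 : Fin 10 → Seg := ![(2, 4), (2, 4), (3, 6), (3, 6), (4, 5), (5, 5), (5, 7), (7, 8), (6, 7), (7, 8)]
def CHH_M7 : Fin 9 → Seg := ![(2, 4), (2, 6), (3, 5), (3, 7), (4, 6), (5, 4), (6, 7), (7, 8), (7, 8)]
def CHH_N7 : Fin 10 → Seg := ![(2, 4), (2, 4), (3, 6), (3, 6), (4, 5), (5, 5), (6, 7), (7, 8), (6, 7), (7, 8)]
def CHH_M8 : Fin 9 → Seg := ![(2, 4), (2, 6), (3, 5), (3, 7), (5, 6), (5, 4), (6, 7), (7, 8), (7, 8)]
def CHH_N8 : Fin 10 → Seg := ![(2, 4), (2, 4), (3, 6), (3, 6), (5, 5), (5, 5), (6, 7), (7, 8), (6, 7), (7, 8)]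
def CHH_M9 : Fin 9 → Seg := ![(2, 4), (2, 6), (4, 5), (4, 7), (5, 6), (5, 4), (6, 7), (7, 8), (7, 8)]
def CHH_N9 : Fin 10 → Seg := ![(2, 4), (2, 4), (4, 6), (4, 6), (5, 5), (5, 5), (6, 7), (7, 8), (6, 7), (7, 8)]
def CHH_M10 : Fin 9 → Seg := ![(3, 4), (3, 6), (4, 5), (4, 7), (5, 6), (5, 4), (6, 7), (7, 8), (7, 8)]
def CHH_N10 : Fin 10 → Seg := ![(3, 4), (3, 4), (4, 6), (4, 6), (5, 5), (5, 5), (6, 7), (7, 8), (6, 7), (7, 8)]
def CHH_M11 : Fin 9 → Seg := ![(3, 4), (3, 6), (4, 5), (4, 7), (5, 6), (5, 4), (6, 7), (8, 8), (8, 8)]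
def CHH_N11 : Fin 10 → Seg := ![(3, 4), (3, 4), (4, 6), (4, 6), (5, 5), (5, 5), (6, 7), (8, 8), (6, 7), (8, 8)]
def CHH_M12 : Fin 9 → Seg := ![(3, 4), (3, 6), (4, 5), (4, 7), (5, 6), (5, 4), (6, 7), (9, 8), (9, 8)]
def CHH_N12 : Fin 10 → Seg := ![(3, 4), (3, 4), (4, 6), (4, 6), (5, 5), (5, 5), (6, 7), (9, 8), (6, 7), (9, 8)]

theorem CHH_step0 (hGS : Stmt_GS) (h : HasGood CHH_M1 CHH_N1) : HasGood CHH_M0 CHH_N0 := by
  have e1 : redN (5) ({7} : Finset (Fin 9)) CHH_M0 = CHH_M1 := by decide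
  have e2 : redN (5) ({7} : Finset (Fin 10)) CHH_N0 = CHH_N1 := by decide
  rw [← e1, ← e2] at h
  refine hGS (Fin 9) (Fin 10) (5) CHH_M0 CHH_N0 ({7} : Finset (Fin 9)) (∅ : Finset (Fin 9)) ![0, 1, 2, 3, 4, 5, 6, 7, 8] ({7} : Finset (Fin 10)) (∅ : Finset (Fin 10)) ![0, 1, 2, 3, 4, 5, 6, 7, 8, 9] ?_ ?_ ?_ (by decide) (by decide) h
  · exact ⟨by decide, by decide, by decide, by decide, by decide, by decide⟩
  · exact ⟨by decide, by decide, by decide⟩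
  · exact ⟨by decide, by decide, by decide, by decide, by decide, by decide⟩

theorem CHH_step1 (hGS : Stmt_GS) (h : HasGood CHH_M2 CHH_N2) : HasGood CHH_M1 CHH_N1 := by
  have e1 : redN (4) ({6, 5} : Finset (Fin 9)) CHH_M1 = CHH_M2 := by decide
  have e2 : redN (4) ({6, 5} : Finset (Fin 10)) CHH_N1 = CHH_N2 := by decide
  rw [← e1, ← e2] at h
  refine hGS (Fin 9) (Fin 10) (4) CHH_M1 CHH_N1 ({6, 5} : Finset (Fin 9)) (∅ : Finset (Fin 9)) ![0, 1, 2, 3, 4, 5, 6, 7, 8] ({6, 5} : Finset (Fin 10)) (∅ : Finset (Fin 10)) ![0, 1, 2, 3, 4, 5, 6, 7, 8, 9] ?_ ?_ ?_ (by decide) (by decide) h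
  · exact ⟨by decide, by decide, by decide, by decide, by decide, by decide⟩
  · exact ⟨by decide, by decide, by decide⟩
  · exact ⟨by decide, by decide, by decide, by decide, by decide, by decide⟩

theorem CHH_step2 (hGS : Stmt_GS) (h : HasGood CHH_M3 CHH_N3) : HasGood CHH_M2 CHH_N2 := by
  have e1 : redN (3) ({4} : Finset (Fin 9)) CHH_M2 = CHH_M3 := by decide
  have e2 : redN (3) ({4} : Finset (Fin 10)) CHH_N2 = CHH_N3 := by decide
  rw [← e1, ← e2] at h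
  refine hGS (Fin 9) (Fin 10) (3) CHH_M2 CHH_N2 ({4} : Finset (Fin 9)) (∅ : Finset (Fin 9)) ![0, 1, 2, 3, 4, 5, 6, 7, 8] ({4} : Finset (Fin 10)) (∅ : Finset (Fin 10)) ![0, 1, 2, 3, 4, 5, 6, 7, 8, 9] ?_ ?_ ?_ (by decide) (by decide) h
  · exact ⟨by decide, by decide, by decide, by decide, by decide, by decide⟩
  · exact ⟨by decide, by decide, by decide⟩
  · exact ⟨by decide, by decide, by decide, by decide, by decide, by decide⟩

theorem CHH_step3 (hGS : Stmt_GS) (h : HasGood CHH_M4 CHH_N4) : HasGood CHH_M3 CHH_N3 := by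
  have e1 : redN (2) ({3, 2} : Finset (Fin 9)) CHH_M3 = CHH_M4 := by decide
  have e2 : redN (2) ({2, 3} : Finset (Fin 10)) CHH_N3 = CHH_N4 := by decide
  rw [← e1, ← e2] at h
  refine hGS (Fin 9) (Fin 10) (2) CHH_M3 CHH_N3 ({3, 2} : Finset (Fin 9)) (∅ : Finset (Fin 9)) ![0, 1, 2, 3, 4, 5, 6, 7, 8] ({2, 3} : Finset (Fin 10)) (∅ : Finset (Fin 10)) ![0, 1, 2, 3, 4, 5, 6, 7, 8, 9] ?_ ?_ ?_ (by decide) (by decide) h
  · exact ⟨by decide, by decide, by decide, by decide, by decide, by decide⟩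
  · exact ⟨by decide, by decide, by decide⟩
  · exact ⟨by decide, by decide, by decide, by decide, by decide, by decide⟩

theorem CHH_step4 (hGS : Stmt_GS) (h : HasGood CHH_M5 CHH_N5) : HasGood CHH_M4 CHH_N4 := by
  have e1 : redN (1) ({1, 0} : Finset (Fin 9)) CHH_M4 = CHH_M5 := by decide
  have e2 : redN (1) ({0, 1} : Finset (Fin 10)) CHH_N4 = CHH_N5 := by decide
  rw [← e1, ← e2] at h
  refine hGS (Fin 9) (Fin 10) (1) CHH_M4 CHH_N4 ({1, 0} : Finset (Fin 9)) (∅ : Finset (Fin 9)) ![0, 1, 2, 3, 4, 5, 6, 7, 8] ({0, 1} : Finset (Fin 10)) (∅ : Finset (Fin 10)) ![0, 1, 2, 3, 4, 5, 6, 7, 8, 9] ?_ ?_ ?_ (by decide) (by decide) h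
  · exact ⟨by decide, by decide, by decide, by decide, by decide, by decide⟩
  · exact ⟨by decide, by decide, by decide⟩
  · exact ⟨by decide, by decide, by decide, by decide, by decide, by decide⟩

theorem CHH_step5 (hGS : Stmt_GS) (h : HasGood CHH_M6 CHH_N6) : HasGood CHH_M5 CHH_N5 := by
  have e1 : redN (6) ({7} : Finset (Fin 9)) CHH_M5 = CHH_M6 := by decide
  have e2 : redN (6) ({7} : Finset (Fin 10)) CHH_N5 = CHH_N6 := by decide
  rw [← e1, ← e2] at h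
  refine hGS (Fin 9) (Fin 10) (6) CHH_M5 CHH_N5 ({7} : Finset (Fin 9)) ({3} : Finset (Fin 9)) ![0, 1, 2, 1, 4, 5, 6, 7, 8] ({7} : Finset (Fin 10)) ({9} : Finset (Fin 10)) ![0, 1, 2, 3, 4, 5, 6, 7, 8, 8] ?_ ?_ ?_ (by decide) (by decide) h
  · exact ⟨by decide, by decide, by decide, by decide, by decide, by decide⟩
  · exact ⟨by decide, by decide, by decide⟩
  · exact ⟨by decide, by decide, by decide, by decide, by decide, by decide⟩

theorem CHH_step6 (hGS : Stmt_GS) (h : HasGood CHH_M7 CHH_N7) : HasGood CHH_M6 CHH_N6 := by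
  have e1 : redN (5) ({6} : Finset (Fin 9)) CHH_M6 = CHH_M7 := by decide
  have e2 : redN (5) ({6} : Finset (Fin 10)) CHH_N6 = CHH_N7 := by decide
  rw [← e1, ← e2] at h
  refine hGS (Fin 9) (Fin 10) (5) CHH_M6 CHH_N6 ({6} : Finset (Fin 9)) ({3} : Finset (Fin 9)) ![0, 1, 2, 1, 4, 5, 6, 7, 8] ({6} : Finset (Fin 10)) ({8} : Finset (Fin 10)) ![0, 1, 2, 3, 4, 5, 6, 7, 5, 9] ?_ ?_ ?_ (by decide) (by decide) h
  · exact ⟨by decide, by decide, by decide, by decide, by decide, by decide⟩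
  · exact ⟨by decide, by decide, by decide⟩
  · exact ⟨by decide, by decide, by decide, by decide, by decide, by decide⟩

theorem CHH_step7 (hGS : Stmt_GS) (h : HasGood CHH_M8 CHH_N8) : HasGood CHH_M7 CHH_N7 := by
  have e1 : redN (4) ({4} : Finset (Fin 9)) CHH_M7 = CHH_M8 := by decide
  have e2 : redN (4) ({4} : Finset (Fin 10)) CHH_N7 = CHH_N8 := by decide
  rw [← e1, ← e2] at h
  refine hGS (Fin 9) (Fin 10) (4) CHH_M7 CHH_N7 ({4} : Finset (Fin 9)) (∅ : Finset (Fin 9)) ![0, 1, 2, 3, 4, 5, 6, 7, 8] ({4} : Finset (Fin 10)) (∅ : Finset (Fin 10)) ![0, 1, 2, 3, 4, 5, 6, 7, 8, 9] ?_ ?_ ?_ (by decide) (by decide) h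
  · exact ⟨by decide, by decide, by decide, by decide, by decide, by decide⟩
  · exact ⟨by decide, by decide, by decide⟩
  · exact ⟨by decide, by decide, by decide, by decide, by decide, by decide⟩

theorem CHH_step8 (hGS : Stmt_GS) (h : HasGood CHH_M9 CHH_N9) : HasGood CHH_M8 CHH_N8 := by
  have e1 : redN (3) ({3, 2} : Finset (Fin 9)) CHH_M8 = CHH_M9 := by decide
  have e2 : redN (3) ({2, 3} : Finset (Fin 10)) CHH_N8 = CHH_N9 := by decide
  rw [← e1, ← e2] at h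
  refine hGS (Fin 9) (Fin 10) (3) CHH_M8 CHH_N8 ({3, 2} : Finset (Fin 9)) (∅ : Finset (Fin 9)) ![0, 1, 2, 3, 4, 5, 6, 7, 8] ({2, 3} : Finset (Fin 10)) (∅ : Finset (Fin 10)) ![0, 1, 2, 3, 4, 5, 6, 7, 8, 9] ?_ ?_ ?_ (by decide) (by decide) h
  · exact ⟨by decide, by decide, by decide, by decide, by decide, by decide⟩
  · exact ⟨by decide, by decide, by decide⟩
  · exact ⟨by decide, by decide, by decide, by decide, by decide, by decide⟩

theorem CHH_step9 (hGS : Stmt_GS) (h : HasGood CHH_M10 CHH_N10) : HasGood CHH_M9 CHH_N9 := by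
  have e1 : redN (2) ({1, 0} : Finset (Fin 9)) CHH_M9 = CHH_M10 := by decide
  have e2 : redN (2) ({0, 1} : Finset (Fin 10)) CHH_N9 = CHH_N10 := by decide
  rw [← e1, ← e2] at h
  refine hGS (Fin 9) (Fin 10) (2) CHH_M9 CHH_N9 ({1, 0} : Finset (Fin 9)) (∅ : Finset (Fin 9)) ![0, 1, 2, 3, 4, 5, 6, 7, 8] ({0, 1} : Finset (Fin 10)) (∅ : Finset (Fin 10)) ![0, 1, 2, 3, 4, 5, 6, 7, 8, 9] ?_ ?_ ?_ (by decide) (by decide) h
  · exact ⟨by decide, by decide, by decide, by decide, by decide, by decide⟩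
  · exact ⟨by decide, by decide, by decide⟩
  · exact ⟨by decide, by decide, by decide, by decide, by decide, by decide⟩

theorem CHH_step10 (hGS : Stmt_GS) (h : HasGood CHH_M11 CHH_N11) : HasGood CHH_M10 CHH_N10 := by
  have e1 : redN (7) ({7, 8} : Finset (Fin 9)) CHH_M10 = CHH_M11 := by decide
  have e2 : redN (7) ({7, 9} : Finset (Fin 10)) CHH_N10 = CHH_N11 := by decide
  rw [← e1, ← e2] at h
  refine hGS (Fin 9) (Fin 10) (7) CHH_M10 CHH_N10 ({7, 8} : Finset (Fin 9)) (∅ : Finset (Fin 9)) ![0, 1, 2, 3, 4, 5, 6, 7, 8] ({7, 9} : Finset (Fin 10)) (∅ : Finset (Fin 10)) ![0, 1, 2, 3, 4, 5, 6, 7, 8, 9] ?_ ?_ ?_ (by decide) (by decide) h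
  · exact ⟨by decide, by decide, by decide, by decide, by decide, by decide⟩
  · exact ⟨by decide, by decide, by decide⟩
  · exact ⟨by decide, by decide, by decide, by decide, by decide, by decide⟩

theorem CHH_step11 (hGS : Stmt_GS) (h : HasGood CHH_M12 CHH_N12) : HasGood CHH_M11 CHH_N11 := by
  have e1 : redN (8) ({7, 8} : Finset (Fin 9)) CHH_M11 = CHH_M12 := by decide
  have e2 : redN (8) ({7, 9} : Finset (Fin 10)) CHH_N11 = CHH_N12 := by decide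
  rw [← e1, ← e2] at h
  refine hGS (Fin 9) (Fin 10) (8) CHH_M11 CHH_N11 ({7, 8} : Finset (Fin 9)) (∅ : Finset (Fin 9)) ![0, 1, 2, 3, 4, 5, 6, 7, 8] ({7, 9} : Finset (Fin 10)) (∅ : Finset (Fin 10)) ![0, 1, 2, 3, 4, 5, 6, 7, 8, 9] ?_ ?_ ?_ (by decide) (by decide) h
  · exact ⟨by decide, by decide, by decide, by decide, by decide, by decide⟩
  · exact ⟨by decide, by decide, by decide⟩
  · exact ⟨by decide, by decide, by decide, by decide, by decide, by decide⟩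

theorem p_CHH (hGS : Stmt_GS) (hGM : Stmt_GM) (hGH : Stmt_GH) (hB : Stmt_BASE) : Stmt_CHH := by
  have h0 : HasGood CHH_M12 CHH_N12 :=
    hGM _ _ _ _ (shiftN 2 ksM) CHH_M12 (shiftN 2 ksN) CHH_N12 (by decide) (by decide) (hGH _ _ 2 ksM ksN hB)
  have h0 := CHH_step11 hGS h0
  have h0 := CHH_step10 hGS h0
  have h0 := CHH_step9 hGS h0
  have h0 := CHH_step8 hGS h0
  have h0 := CHH_step7 hGS h0
  have h0 := CHH_step6 hGS h0
  have h0 := CHH_step5 hGS h0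
  have h0 := CHH_step4 hGS h0
  have h0 := CHH_step3 hGS h0
  have h0 := CHH_step2 hGS h0
  have h0 := CHH_step1 hGS h0
  have h0 := CHH_step0 hGS h0
  exact h0

end Pool.DM
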