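import Pool.Agent.Work.MP_c20ce7_lab.Interface

/-!
# Block COE: coefficients of a matrix which commutes with the box matrix
-/

set_option autoImplicit false

open MvPolynomial Matrix

noncomputable section

namespace Pool.DM

section COE

variable {ι κ : Type} [Fintype ι] {e : ι → ℤ} {N : κ → Seg} {sg : ι → κ}

theorem COE_yx (hB : Boxing e N sg) (y : Matrix ι ι ℂ) (p q r : ι) (h1 : sg r = sg q)
    (h2 : e r = e q + 1) : (y * smat e sg) p q = y p r := by
  classical
  rw [Matrix.mul_apply, Finset.sum_eq_single r]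
  · have : smat e sg r q = 1 := by
      unfold smat
      exact if_pos ⟨h1, h2⟩
    rw [this, mul_one]
  · intro s _ hs
    have : smat e sg s q = 0 := by
      unfold smat
      refine if_neg ?_
      rintro ⟨h3, h4⟩
      exact hs (hB.inj s r (h3.trans h1.symm) (h4.trans h2.symm))
    rw [this, mul_zero]
  · intro h
    exact absurd (Finset.mem_univ r) h

theorem COE_yx0 (y : Matrix ι ι ℂ) (p q : ι) (h : ∀ r, sg r = sg q → e r ≠ e q + 1) :
    (y * smat e sg) p q = 0 := by
  classical
  rw [Matrix.mul_apply]
  refine Finset.sum_eq_zero fun s _ => ?_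
  have : smat e sg s q = 0 := by
    unfold smat
    refine if_neg ?_
    rintro ⟨h3, h4⟩
    exact h s h3 h4
  rw [this, mul_zero]

theorem COE_xy (hB : Boxing e N sg) (y : Matrix ι ι ℂ) (p q r : ι) (h1 : sg r = sg p)
    (h2 : e p = e r + 1) : (smat e sg * y) p q = y r q := by
  classical
  rw [Matrix.mul_apply, Finset.sum_eq_single r]
  · have : smat e sg p r = 1 := by
      unfold smat
      exact if_pos ⟨h1.symm, h2⟩
    rw [this, one_mul]
  · intro s _ hs
    have : smat e sg p s = 0 := by
      unfold smat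
      refine if_neg ?_
      rintro ⟨h3, h4⟩
      exact hs (hB.inj s r (h3.symm.trans h1.symm) (by omega))
    rw [this, zero_mul]
  · intro h
    exact absurd (Finset.mem_univ r) h

theorem COE_xy0 (y : Matrix ι ι ℂ) (p q : ι) (h : ∀ r, sg r = sg p → e p ≠ e r + 1) :
    (smat e sg * y) p q = 0 := by
  classical
  rw [Matrix.mul_apply]
  refine Finset.sum_eq_zero fun s _ => ?_
  have : smat e sg p s = 0 := by
    unfold smat
    refine if_neg ?_
    rintro ⟨h3, h4⟩
    exact h s h3.symm h4
  rw [this, zero_mul]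

end COE

theorem p_COE : Stmt_COE := by
  intro ι κ _ _ e N sg hB y _ hyx i a b ha hb hN hab
  have hc : ∀ p q, (y * smat e sg) p q = (smat e sg * y) p q := fun p q => by rw [hyx]
  have hb2 := hB.mem b
  have ha2 := hB.mem a
  have h1 : (N (sg b)).1 = i + 1 := by
    by_contra hne
    have hle : (N (sg b)).1 ≤ i := by omega
    obtain ⟨b0, hb0, hb0'⟩ := hB.ex (sg b) i hle (by omega)
    have e1 := hc a b0
    rw [COE_yx hB y a b0 b hb0.symm (by omega), COE_xy0 y a b0] at e1
    · exact hab e1
    · intro r hr her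
      have := (hB.mem r).1
      rw [hr, hN] at this
      omega
  refine ⟨h1, ?_⟩
  by_contra hlt
  have hle : (N (sg b)).2 ≤ (N (sg a)).2 := not_lt.1 hlt
  have key : ∀ (n : ℕ) (p q : ι), sg p = sg a → e p = i + n → sg q = sg b → e q = i + n + 1 →
      y p q = y a b := by
    intro n
    induction n with
    | zero =>
      intro p q hp hep hq heq
      have e1 : p = a := hB.inj p a hp (by rw [hep, ha]; simp)
      have e2 : q = b := hB.inj q b hq (by rw [heq, hb]; simp)
      rw [e1, e2]
    | succ n ih =>
      intro p q hp hep hq heq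
      push_cast at hep heq
      have hp2 := hB.mem p
      have hq2 := hB.mem q
      rw [hp] at hp2
      rw [hq] at hq2
      obtain ⟨p', hp', hep'⟩ := hB.ex (sg a) (i + n) (by omega) (by omega)
      obtain ⟨q', hq', heq'⟩ := hB.ex (sg b) (i + n + 1) (by omega) (by omega)
      have e1 := hc p q'
      rw [COE_yx hB y p q' q (hq.trans hq'.symm) (by omega),
        COE_xy hB y p q' p' (hp'.trans hp.symm) (by omega)] at e1
      rw [e1]
      exact ih p' q' hp' hep' hq' heq'
  obtain ⟨q, hq, heq⟩ := hB.ex (sg b) (N (sg b)).2 (by omega) le_rfl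
  obtain ⟨p, hp, hep⟩ := hB.ex (sg a) (N (sg b)).2 (by omega) hle
  obtain ⟨p', hp', hep'⟩ := hB.ex (sg a) ((N (sg b)).2 - 1) (by omega) (by omega)
  have e1 := hc p q
  rw [COE_yx0 y p q, COE_xy hB y p q p' (hp'.trans hp.symm) (by omega)] at e1
  · have e2 := key ((N (sg b)).2 - 1 - i).toNat p' q hp' (by omega) hq (by omega)
    rw [e2] at e1
    exact hab e1.symm
  · intro r hr her
    have := (hB.mem r).2
    rw [hr, hq] at this
    omega

end Pool.DM
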