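import Pool.Agent.Work.MP_c20ce7_lab.Interface

set_option autoImplicit false

/-! Block CON. -/

open MvPolynomial Matrix Topology

noncomputable section

namespace Pool.DM

theorem CON_sum {R : Type} [AddCommGroup R] [One R] {ι : Type} [Fintype ι] [DecidableEq ι]
    (e : ι → R) (ξ : Co e → ℂ) (m : Matrix ι ι ℂ) :
    ∑ c : Co e, ξ c * m c.1.1 c.1.2 = Matrix.trace (ymat e ξ * m) := by
  classical
  have h1 : ∑ c : Co e, ξ c * m c.1.1 c.1.2 =
      ∑ c : Co e, ymat e ξ c.1.2 c.1.1 * m c.1.1 c.1.2 := by
    refine Finset.sum_congr rfl fun c _ => ?_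
    have : ymat e ξ c.1.2 c.1.1 = ξ c := by
      simp only [ymat]
      rw [dif_pos c.2]
    rw [this]
  have h2 : ∑ p ∈ Finset.univ.filter (fun p : ι × ι => e p.1 = e p.2 + 1),
      ymat e ξ p.2 p.1 * m p.1 p.2 = ∑ c : Co e, ymat e ξ c.1.2 c.1.1 * m c.1.1 c.1.2 := by
    exact Finset.sum_subtype (F := inferInstance) _ (fun p => by simp) _
  rw [h1, ← h2, Finset.sum_filter_of_ne, Fintype.sum_prod_type, Finset.sum_comm, Matrix.trace]
  · refine Finset.sum_congr rfl fun b _ => ?_
    rw [Matrix.diag_apply, Matrix.mul_apply]
  · intro p _ hp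
    by_contra hne
    apply hp
    have : ymat e ξ p.2 p.1 = 0 := by
      simp only [ymat]
      rw [dif_neg hne]
    rw [this, zero_mul]

theorem CON_tr {ι : Type} [Fintype ι] (h X Y : Matrix ι ι ℂ) :
    Matrix.trace (Y * (h * X - X * h)) = Matrix.trace (h * (X * Y - Y * X)) := by
  rw [mul_sub, mul_sub, Matrix.trace_sub, Matrix.trace_sub]
  congr 1
  · rw [Matrix.trace_mul_comm, mul_assoc]
  · rw [← mul_assoc, Matrix.trace_mul_comm]

theorem p_CON : Stmt_CON := by
  classical
  intro R _ _ ι _ _ e C x ξ
  constructor
  · rintro ⟨hx, hall⟩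
    refine ⟨hx, ?_⟩
    have hD : ∀ h : Matrix ι ι ℂ, (∀ a b, h a b ≠ 0 → e a = e b) →
        Matrix.trace (h * (mat e x * ymat e ξ - ymat e ξ * mat e x)) = 0 := by
      intro h hh
      have h1 := hall h hh
      rw [CON_sum e ξ (h * mat e x - mat e x * h), CON_tr] at h1
      exact h1
    have hX : ∀ a b, mat e x a b ≠ 0 → e a = e b + 1 := by
      intro a b hab
      by_contra hne
      apply hab
      simp only [mat]
      rw [dif_neg hne]
    have hY : ∀ a b, ymat e ξ a b ≠ 0 → e b = e a + 1 := by
      intro a b hab
      by_contra hne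
      apply hab
      simp only [ymat]
      rw [dif_neg hne]
    have hzero : mat e x * ymat e ξ - ymat e ξ * mat e x = 0 := by
      ext a b
      rw [Matrix.zero_apply]
      by_cases hab : e a = e b
      · have h1 := hD (Matrix.single b a 1) (by
          intro p q hpq
          rw [Matrix.single_apply] at hpq
          split_ifs at hpq with hc
          · rw [← hc.1, ← hc.2, hab]
          · exact absurd rfl hpq)
        rw [Matrix.trace, Finset.sum_eq_single b] at h1
        · rw [Matrix.diag_apply, Matrix.mul_apply, Finset.sum_eq_single a] at h1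
          · rw [Matrix.single_apply_same, one_mul] at h1
            exact h1
          · intro c _ hc
            rw [Matrix.single_apply_of_ne _ _ _ _ _ (fun h => hc h.2.symm), zero_mul]
          · intro h
            exact absurd (Finset.mem_univ _) h
        · intro c _ hc
          rw [Matrix.diag_apply, Matrix.mul_apply]
          refine Finset.sum_eq_zero fun d _ => ?_
          rw [Matrix.single_apply_of_ne _ _ _ _ _ (fun h => hc h.1.symm), zero_mul]
        · intro h
          exact absurd (Finset.mem_univ _) h
      · rw [Matrix.sub_apply, Matrix.mul_apply, Matrix.mul_apply]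
        have h1 : ∑ c, mat e x a c * ymat e ξ c b = 0 := by
          refine Finset.sum_eq_zero fun c _ => ?_
          by_contra hne
          have h2 := hX a c (left_ne_zero_of_mul hne)
          have h3 := hY c b (right_ne_zero_of_mul hne)
          exact hab (h2.trans h3.symm)
        have h4 : ∑ c, ymat e ξ a c * mat e x c b = 0 := by
          refine Finset.sum_eq_zero fun c _ => ?_
          by_contra hne
          have h2 := hY a c (left_ne_zero_of_mul hne)
          have h3 := hX c b (right_ne_zero_of_mul hne)
          rw [h2] at h3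
          exact hab (add_right_cancel h3)
        rw [h1, h4, sub_zero]
    exact sub_eq_zero.1 hzero
  · rintro ⟨hx, hc⟩
    refine ⟨hx, fun h _ => ?_⟩
    have h1 := CON_sum e ξ (h * mat e x - mat e x * h)
    show ∑ c : Co e, ξ c * (h * mat e x - mat e x * h) c.1.1 c.1.2 = 0
    rw [h1, CON_tr, hc, sub_self, mul_zero, Matrix.trace_zero]

end Pool.DM
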