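import Pool.Agent.Work.MP_c20ce7_lab.Interface

set_option autoImplicit false

open MvPolynomial Matrix Topology

noncomputable section

namespace Pool.DM

theorem CQJ_det {n : Type} [Fintype n] [DecidableEq n] (M : ℂ → Matrix n n ℂ)
    (h : ∀ a b, ContinuousAt (fun s => M s a b) 0) : ContinuousAt (fun s => Matrix.det (M s)) 0 := by
  have h1 : Continuous (fun N : Matrix n n ℂ => N.det) := Continuous.matrix_det continuous_id
  have h2 : ContinuousAt M 0 := continuousAt_pi.2 fun a => continuousAt_pi.2 fun b => h a b
  exact h1.continuousAt.comp h2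

theorem CQJ_ymat {ι : Type} [Fintype ι] [DecidableEq ι] (e : ι → ℤ) (η : ℂ → Co e → ℂ)
    (h : ∀ c, ContinuousAt (fun s => η s c) 0) (a b : ι) :
    ContinuousAt (fun s => ymat e (η s) a b) 0 := by
  classical
  unfold ymat
  by_cases hab : e b = e a + 1
  · simp only [dif_pos hab]
    exact h _
  · simp only [dif_neg hab]
    exact continuousAt_const

theorem p_CQJ : Stmt_CQJ := by
  intro ι _ _ e i J x η hη h0
  have h1 : ContinuousAt (fun s => QJ e i J x (η s)) 0 := by
    unfold QJ
    refine CQJ_det _ fun a k => ?_
    by_cases hk : e (J k) = i - 1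
    · simp only [if_pos hk]
      exact continuousAt_const
    · simp only [if_neg hk]
      exact CQJ_ymat e η hη a.1 (J k)
  exact h1.eventually_ne h0

end Pool.DM
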