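import Pool.Agent.Work.MP_c20ce7_lab.Interface

/-!
Block CTT of MP_c20ce7_lab (helper46): continuity of the coefficients of the graph.
-/

set_option autoImplicit false

open MvPolynomial Matrix Topology

noncomputable section

namespace Pool.DM

theorem CTT_cont {ι κ : Type} [Fintype ι] [DecidableEq ι] [DecidableEq κ] (e : ι → ℤ)
    (sg : ι → κ) (i : ℤ) (U : Finset κ) (τ : Row e sg i U → ι) (F : ℂ → Matrix ι ι ℂ)
    (hF : Continuous F) : Continuous fun s => Amat e sg i U τ (F s) := by
  refine continuous_matrix fun a k => ?_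
  have h : Continuous fun s => (F s) a.1 (τ k) := hF.matrix_elem a.1 (τ k)
  exact continuous_const.add h

theorem p_CTT : Stmt_CTT := by
  intro ι κ _ _ _ e N sg hB i U hU τ hτ F hF hone hzero
  have hc : Continuous fun s => (Amat e sg i U τ (F s)).det :=
    (CTT_cont e sg i U τ F hF).matrix_det
  have hdet : (Amat e sg i U τ (F 0)).det ≠ 0 := by
    rw [hone, Matrix.det_one]
    exact one_ne_zero
  refine ⟨hc.continuousAt.eventually_ne hdet, ?_⟩
  intro c a hci hcU
  refine ⟨?_, ?_⟩
  · unfold Tm
    refine tendsto_finsetSum _ fun k _ => ?_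
    have h1 : Continuous fun s => (smat e sg + F s) c (τ k) :=
      continuous_const.add (hF.matrix_elem c (τ k))
    have h2 : ContinuousAt (fun s => (Amat e sg i U τ (F s))⁻¹ k a) 0 := by
      have e1 : (fun s => (Amat e sg i U τ (F s))⁻¹ k a) =
          fun s => ((Amat e sg i U τ (F s)).det)⁻¹ * (Amat e sg i U τ (F s)).adjugate k a := by
        funext s
        rw [Matrix.inv_def, Ring.inverse_eq_inv', Matrix.smul_apply, smul_eq_mul]
      rw [e1]
      refine (hc.continuousAt.inv₀ hdet).mul ?_
      exact ((CTT_cont e sg i U τ F hF).matrix_adjugate.matrix_elem k a).continuousAt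
    exact h1.continuousAt.mul h2
  · unfold Tm
    refine Finset.sum_eq_zero fun k _ => ?_
    have h1 : (smat e sg + F 0) c (τ k) = 0 := by
      rw [Matrix.add_apply, hzero c (τ k) hcU, add_zero]
      unfold smat
      rw [if_neg]
      rintro ⟨h3, h4⟩
      have h5 := (hB.mem (τ k)).1
      rw [← h3, (hU _ hcU).1] at h5
      omega
    rw [h1, zero_mul]

end Pool.DM
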