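import Pool.Agent.Work.MP_c20ce7_lab.Interface

/-! # Block GH: translation of the degrees -/

set_option autoImplicit false

open MvPolynomial Matrix

noncomputable section

namespace Pool.DM

section

variable {ι κ : Type} [Fintype ι] [DecidableEq ι]

/-- The identity on the pairs. -/
def GH_eqv (e : ι → ℤ) (t : ℤ) : Co e ≃ Co (fun a => e a + t) where
  toFun c := ⟨c.1, by have := c.2; show e c.1.1 + t = e c.1.2 + t + 1; omega⟩
  invFun c := ⟨c.1, by
    have h := c.2
    have h' : e c.1.1 + t = e c.1.2 + t + 1 := h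
    omega⟩
  left_inv c := rfl
  right_inv c := rfl

theorem GH_mat (e : ι → ℤ) (t : ℤ) (x : Co (fun a => e a + t) → ℂ) :
    mat (fun a => e a + t) x = mat e (x ∘ GH_eqv e t) := by
  funext a b
  unfold mat
  by_cases h : e a = e b + 1
  · have h' : (fun a => e a + t) a = (fun a => e a + t) b + 1 := by
      show e a + t = e b + t + 1
      omega
    rw [dif_pos h, dif_pos h']
    rfl
  · have h' : ¬ ((fun a => e a + t) a = (fun a => e a + t) b + 1) := by
      intro h2
      have h3 : e a + t = e b + t + 1 := h2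
      omega
    rw [dif_neg h, dif_neg h']

theorem GH_ymat (e : ι → ℤ) (t : ℤ) (x : Co (fun a => e a + t) → ℂ) :
    ymat (fun a => e a + t) x = ymat e (x ∘ GH_eqv e t) := by
  funext b a
  unfold ymat
  by_cases h : e a = e b + 1
  · have h' : (fun a => e a + t) a = (fun a => e a + t) b + 1 := by
      show e a + t = e b + t + 1
      omega
    rw [dif_pos h, dif_pos h']
    rfl
  · have h' : ¬ ((fun a => e a + t) a = (fun a => e a + t) b + 1) := by
      intro h2
      have h3 : e a + t = e b + t + 1 := h2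
      omega
    rw [dif_neg h, dif_neg h']

theorem GH_box (e : ι → ℤ) (t : ℤ) (N : κ → Seg) (sg : ι → κ) :
    Boxing (fun a => e a + t) (shiftN t N) sg ↔ Boxing e N sg := by
  constructor
  · intro h
    refine ⟨fun a b h1 h2 => h.inj a b h1 (by show e a + t = e b + t; omega), fun a => ?_,
      fun k j h1 h2 => ?_⟩
    · have h1 := h.mem a
      have h2 : (N (sg a)).1 + t ≤ e a + t ∧ e a + t ≤ (N (sg a)).2 + t := h1
      omega
    · obtain ⟨a, ha, hb⟩ := h.ex k (j + t) (by show (N k).1 + t ≤ j + t; omega)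
        (by show j + t ≤ (N k).2 + t; omega)
      have hb' : e a + t = j + t := hb
      exact ⟨a, ha, by omega⟩
  · intro h
    refine ⟨fun a b h1 h2 => h.inj a b h1 ?_, fun a => ?_, fun k j h1 h2 => ?_⟩
    · have h3 : e a + t = e b + t := h2
      omega
    · have h1 := h.mem a
      show (N (sg a)).1 + t ≤ e a + t ∧ e a + t ≤ (N (sg a)).2 + t
      omega
    · have h1' : (N k).1 + t ≤ j := h1
      have h2' : j ≤ (N k).2 + t := h2
      obtain ⟨a, ha, hb⟩ := h.ex k (j - t) (by omega) (by omega)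
      exact ⟨a, ha, by show e a + t = j; omega⟩

theorem GH_smat (e : ι → ℤ) (t : ℤ) (sg : ι → κ) :
    smat (fun a => e a + t) sg = smat e sg := by
  funext a b
  unfold smat
  have h : (e a + t = e b + t + 1) ↔ (e a = e b + 1) := by omega
  by_cases h2 : sg a = sg b ∧ e a = e b + 1
  · have h3 : sg a = sg b ∧ (fun a => e a + t) a = (fun a => e a + t) b + 1 := ⟨h2.1, h.2 h2.2⟩
    rw [if_pos h2, if_pos h3]
  · have h3 : ¬ (sg a = sg b ∧ (fun a => e a + t) a = (fun a => e a + t) b + 1) :=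
      fun h3 => h2 ⟨h3.1, h.1 h3.2⟩
    rw [if_neg h2, if_neg h3]

theorem GH_deg (e : ι → ℤ) (t n : ℤ) (m : Matrix ι ι ℂ) :
    Deg (fun a => e a + t) n m ↔ Deg e n m := by
  constructor
  · intro h a b hab
    have h1 : e a + t = e b + t + n := h a b hab
    omega
  · intro h a b hab
    have h1 := h a b hab
    show e a + t = e b + t + n
    omega

theorem GH_orb (e : ι → ℤ) (t : ℤ) (N : κ → Seg) (x : Co (fun a => e a + t) → ℂ) :
    x ∈ orbN (fun a => e a + t) (shiftN t N) ↔ x ∘ GH_eqv e t ∈ orbN e N := by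
  constructor
  · rintro ⟨sg, hb, g, h, hg, hh, h1, h2, h3⟩
    refine ⟨sg, (GH_box e t N sg).1 hb, g, h, (GH_deg e t 0 g).1 hg, (GH_deg e t 0 h).1 hh, h1, h2, ?_⟩
    rw [← GH_mat, h3, GH_smat]
  · rintro ⟨sg, hb, g, h, hg, hh, h1, h2, h3⟩
    refine ⟨sg, (GH_box e t N sg).2 hb, g, h, (GH_deg e t 0 g).2 hg, (GH_deg e t 0 h).2 hh, h1, h2, ?_⟩
    rw [GH_mat, h3, GH_smat]

theorem GH_xo {L : Type} [AddCommGroup L] [Module ℂ L] (e : ι → ℤ) (t : ℤ) (W : WMod (Co e) L)
    (W1 : WMod (Co (fun a => e a + t)) L)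
    (h : ∀ p : MvPolynomial (Co e) ℂ, W1.x (rename (GH_eqv e t) p) = W.x p ∧
      W1.d (rename (GH_eqv e t) p) = W.d p) (a b : ι) :
    W1.xo a b = W.xo a b ∧ W1.dO a b = W.dO a b := by
  unfold WMod.xo WMod.dO
  by_cases h1 : e a = e b + 1
  · have h' : (fun a => e a + t) a = (fun a => e a + t) b + 1 := by
      show e a + t = e b + t + 1
      omega
    rw [dif_pos h1, dif_pos h', dif_pos h1, dif_pos h']
    have h2 := h (X ⟨(a, b), h1⟩)
    rw [rename_X] at h2
    exact h2
  · have h' : ¬ ((fun a => e a + t) a = (fun a => e a + t) b + 1) := by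
      intro h2
      have h3 : e a + t = e b + t + 1 := h2
      omega
    rw [dif_neg h1, dif_neg h', dif_neg h1, dif_neg h']
    exact ⟨rfl, rfl⟩

theorem GH_G {L : Type} [AddCommGroup L] [Module ℂ L] (e : ι → ℤ) (t : ℤ) (W : WMod (Co e) L)
    (W1 : WMod (Co (fun a => e a + t)) L)
    (h : ∀ p : MvPolynomial (Co e) ℂ, W1.x (rename (GH_eqv e t) p) = W.x p ∧
      W1.d (rename (GH_eqv e t) p) = W.d p) (a b : ι) : W1.G a b = W.G a b := by
  unfold WMod.G
  congr 1
  · refine Finset.sum_congr rfl fun c _ => ?_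
    rw [(GH_xo e t W W1 h b c).1, (GH_xo e t W W1 h a c).2]
  · refine Finset.sum_congr rfl fun c _ => ?_
    rw [(GH_xo e t W W1 h c a).1, (GH_xo e t W W1 h c b).2]

end

theorem p_GH (hREX : Stmt_REX) : Stmt_GH := by
  rintro κ κ2 t M N ⟨ι, _, _, e, L, _, _, W, hW⟩
  obtain ⟨W1, h1, h2, h3, h4, h5⟩ := hREX (Co e) (Co (fun a => e a + t)) (GH_eqv e t) L W
  refine ⟨ι, inferInstance, inferInstance, fun a => e a + t, L, inferInstance, inferInstance, W1, ?_⟩
  have hlab : ∀ {κ3 : Type} (N : κ3 → Seg), W.Lab N → W1.Lab (shiftN t N) := by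
    intro κ3 N hN x hx ξ hc
    refine h4 x ξ (hN _ ((GH_orb e t N x).1 hx) _ ?_)
    rw [← GH_mat, ← GH_ymat]
    exact hc
  refine ⟨h2 hW.simple, h3 hW.growth, ⟨?_, ?_⟩, ?_, hlab M hW.labM, hlab N hW.labN, ?_, ?_⟩
  · intro a u
    rw [GH_G e t W W1 h1]
    exact hW.equi.diag a u
  · intro a b hab he
    rw [GH_G e t W W1 h1]
    refine hW.equi.nil a b hab ?_
    have h6 : e a + t = e b + t := he
    omega
  · intro g hg
    refine h5 (orbN e M) hW.nilOn g fun x hx => hg x ?_
    exact (GH_orb e t M x).2 hx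
  · obtain ⟨sg, hs⟩ := hW.exM
    exact ⟨sg, (GH_box e t M sg).2 hs⟩
  · obtain ⟨sg, hs⟩ := hW.exN
    exact ⟨sg, (GH_box e t N sg).2 hs⟩

end Pool.DM
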