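import Pool.Agent.Work.MP_c20ce7_lab.Interface

set_option autoImplicit false

/-! # Block GM: `HasGood` depends only on the multisets of the nonempty segments -/

open MvPolynomial Matrix Topology

noncomputable section

namespace Pool.DM

theorem p_GM (h1 : Stmt_ORM) : Stmt_GM := by
  intro κ κ' κ2 κ2' _ _ _ _ M M' N N' hM hN hG
  obtain ⟨ι, i1, i2, e, L, i3, i4, W, hW⟩ := hG
  obtain ⟨oM, exM⟩ := h1 κ κ' M M' hM ι e
  obtain ⟨oN, exN⟩ := h1 κ2 κ2' N N' hN ι e
  refine ⟨ι, i1, i2, e, L, i3, i4, W, ⟨hW.simple, hW.growth, hW.equi, ?_, ?_, ?_, exM hW.exM,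
    exN hW.exN⟩⟩
  · rw [← oM]
    exact hW.nilOn
  · intro x hx
    rw [← oM] at hx
    exact hW.labM x hx
  · intro x hx
    rw [← oN] at hx
    exact hW.labN x hx

end Pool.DM
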