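import Pool.Agent.Work.MP_c20ce7_lab.Interface

set_option autoImplicit false

/-!
# Block GRA (helper79): the rows of the boxes of `U`
-/

open MvPolynomial Matrix

noncomputable section

namespace Pool.DM

lemma GRA_key (hCOE : Stmt_COE) {ι κ : Type} [Fintype ι] [DecidableEq ι] [DecidableEq κ] {e : ι → ℤ}
    {N : κ → Seg} {sg : ι → κ} (hB : Boxing e N sg) {i : ℤ} {U : Finset κ}
    (hU : ∀ c ∈ U, (N c).1 = i ∧ i ≤ (N c).2) {y : Matrix ι ι ℂ} (hy : Deg e (-1) y)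
    (hcom : y * smat e sg = smat e sg * y) (hF : FlagInj e N sg i U y) {c : ι} (hc : e c = i)
    (hcU : sg c ∈ U) (w : ι → ℂ)
    (hw : ∀ a, e a = i → sg a ∉ U → (N (sg a)).1 = i → (N (sg c)).2 ≤ (N (sg a)).2 →
      ((smat e sg + y) *ᵥ w) a = 0) : ((smat e sg + y) *ᵥ w) c = 0 := by
  obtain ⟨z, hz⟩ : ∃ z : ι → ℂ, ∀ b, z b =
      if e b = i + 1 ∧ (N (sg b)).1 = i + 1 ∧ (N (sg c)).2 < (N (sg b)).2 then w b else 0 := ⟨_, fun _ => rfl⟩
  have hrow : ∀ a, e a = i → (N (sg a)).1 = i → (N (sg c)).2 ≤ (N (sg a)).2 →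
      ((smat e sg + y) *ᵥ w) a = (y *ᵥ z) a := by
    intro a ha h1 h2
    simp only [Matrix.mulVec, dotProduct]
    refine Finset.sum_congr rfl fun b _ => ?_
    have hx : smat e sg a b = 0 := by
      unfold smat
      rw [if_neg]
      rintro ⟨h3, h4⟩
      have h5 := (hB.mem b).1
      rw [← h3, h1] at h5
      omega
    rw [Matrix.add_apply, hx, zero_add]
    by_cases hyab : y a b = 0
    · rw [hyab, zero_mul, zero_mul]
    · have h5 := hy a b hyab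
      have h6 : e b = i + 1 := by omega
      have h7 := hCOE ι κ e N sg hB y hy hcom i a b ha h6 h1 hyab
      rw [hz, if_pos ⟨h6, h7.1, lt_of_le_of_lt h2 h7.2⟩]
  have hz0 : z = 0 := by
    refine hF (sg c) hcU z (fun b hb => ?_) (fun a ha h1 h2 h3 => ?_)
    · by_contra hn
      rw [hz, if_neg hn] at hb
      exact hb rfl
    · rw [← hrow a ha h1 h3]
      exact hw a ha h2 h1 h3
  rw [hrow c hc (hU _ hcU).1 le_rfl, hz0, Matrix.mulVec_zero]
  rfl

lemma GRA_sum {ι R : Type} [Fintype ι] [DecidableEq ι] [Fintype R] (Z : Matrix ι ι ℂ) (τ : R → ι)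
    (s : R → ℂ) (a : ι) :
    (Z *ᵥ (∑ k, s k • (Pi.single (τ k) (1 : ℂ) : ι → ℂ))) a = ∑ k, Z a (τ k) * s k := by
  show (Matrix.mulVecLin Z (∑ k, s k • (Pi.single (τ k) (1 : ℂ) : ι → ℂ))) a = _
  rw [map_sum, Finset.sum_apply]
  refine Finset.sum_congr rfl fun k _ => ?_
  rw [map_smul, Pi.smul_apply, smul_eq_mul, Matrix.mulVecLin_apply, Matrix.mulVec_single_one]
  exact mul_comm _ _

theorem p_GRA (hCOE : Stmt_COE) : Stmt_GRA := by
  intro ι κ _ _ _ e N sg hB i U hU τ y _ hy hcom hF hdet c hc hcU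
  have key := GRA_key hCOE hB hU hy hcom hF hc hcU
  obtain ⟨A, hA⟩ : ∃ A, A = Amat e sg i U τ y := ⟨_, rfl⟩
  have hAe : ∀ a k, A a k = (smat e sg + y) a.1 (τ k) := fun a k => by rw [hA]; rfl
  rw [← hA] at hdet
  have hAA : A * A⁻¹ = 1 := Matrix.mul_nonsing_inv A (IsUnit.mk0 _ hdet)
  have hT : ∀ a, Tm e sg i U τ y c a = ∑ k, (smat e sg + y) c (τ k) * A⁻¹ k a := fun a => by rw [hA]; rfl
  constructor
  · intro q _
    obtain ⟨r, hr⟩ : ∃ r : Row e sg i U → ℂ, ∀ a, r a = (smat e sg + y) a.1 q := ⟨_, fun _ => rfl⟩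
    have h1 := key (Pi.single q 1 - ∑ k, (A⁻¹ *ᵥ r) k • (Pi.single (τ k) (1 : ℂ) : ι → ℂ)) (by
      intro a ha haU _ _
      rw [Matrix.mulVec_sub, Pi.sub_apply, GRA_sum, Matrix.mulVec_single_one]
      have h2 : (A *ᵥ (A⁻¹ *ᵥ r)) ⟨a, ha, haU⟩ = r ⟨a, ha, haU⟩ := by
        rw [Matrix.mulVec_mulVec, hAA, Matrix.one_mulVec]
      have h3 : (A *ᵥ (A⁻¹ *ᵥ r)) ⟨a, ha, haU⟩ = ∑ k, (smat e sg + y) a (τ k) * (A⁻¹ *ᵥ r) k := by
        show ∑ k, A ⟨a, ha, haU⟩ k * (A⁻¹ *ᵥ r) k = _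
        exact Finset.sum_congr rfl fun k _ => by rw [hAe]
      rw [← h3, h2, hr]
      exact sub_self _)
    rw [Matrix.mulVec_sub, Pi.sub_apply, GRA_sum, Matrix.mulVec_single_one, sub_eq_zero] at h1
    have h4 : (smat e sg + y) c q = ∑ k, (smat e sg + y) c (τ k) * (A⁻¹ *ᵥ r) k := h1
    rw [h4]
    simp only [hT, Matrix.mulVec, dotProduct, Finset.mul_sum, Finset.sum_mul]
    rw [Finset.sum_comm]
    refine Finset.sum_congr rfl fun a _ => Finset.sum_congr rfl fun k _ => ?_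
    rw [hr, mul_assoc]
  · intro a hTa
    by_contra hn
    apply hTa
    rw [hT, ← GRA_sum (smat e sg + y) τ (fun k => A⁻¹ k a) c]
    refine key _ ?_
    intro b hb hbU h1 h2
    rw [GRA_sum]
    have h3 : (A * A⁻¹) ⟨b, hb, hbU⟩ a = 0 := by
      rw [hAA, Matrix.one_apply_ne]
      intro h
      apply hn
      rw [← h]
      exact ⟨h1, h2⟩
    rw [Matrix.mul_apply] at h3
    rw [← h3]
    exact Finset.sum_congr rfl fun k _ => by rw [hAe]

end Pool.DM
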