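import Pool.Agent.Work.MP_c20ce7_lab.Interface

set_option autoImplicit false

/-!
# Block GT: transposition
-/

open MvPolynomial Matrix

noncomputable section

namespace Pool.DM

variable {ι κ : Type} [Fintype ι] [DecidableEq ι]

theorem GT_smat (e : ι → ℤ) (sg : ι → κ) :
    smat (negDeg e) sg = (smat e sg).transpose := by
  ext a b
  rw [Matrix.transpose_apply]
  simp only [smat]
  by_cases h : sg a = sg b ∧ negDeg e a = negDeg e b + 1
  · have h2 : e b = e a + 1 := by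
      have := h.2
      simp only [negDeg] at this
      omega
    rw [if_pos h, if_pos ⟨h.1.symm, h2⟩]
  · have h2 : ¬ (sg b = sg a ∧ e b = e a + 1) := by
      intro h3
      refine h ⟨h3.1.symm, ?_⟩
      simp only [negDeg]
      have := h3.2
      omega
    rw [if_neg h, if_neg h2]

theorem GT_mat1 (e : ι → ℤ) (x : Co e → ℂ) (a b : ι) (h : e a = e b + 1) :
    mat e x a b = x ⟨(a, b), h⟩ := by
  simp only [mat]
  rw [dif_pos h]

theorem GT_mat0 (e : ι → ℤ) (x : Co e → ℂ) (a b : ι) (h : ¬ (e a = e b + 1)) :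
    mat e x a b = 0 := by
  simp only [mat]
  rw [dif_neg h]

theorem GT_ymat1 (e : ι → ℤ) (x : Co e → ℂ) (a b : ι) (h : e a = e b + 1) :
    ymat e x b a = x ⟨(a, b), h⟩ := by
  simp only [ymat]
  rw [dif_pos h]

theorem GT_ymat0 (e : ι → ℤ) (x : Co e → ℂ) (a b : ι) (h : ¬ (e a = e b + 1)) :
    ymat e x b a = 0 := by
  simp only [ymat]
  rw [dif_neg h]

theorem GT_mat (e : ι → ℤ) (x1 : Co (negDeg e) → ℂ) :
    ∃ x : Co e → ℂ, mat (negDeg e) x1 = (mat e x).transpose := by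
  refine ⟨fun c => mat (negDeg e) x1 c.1.2 c.1.1, ?_⟩
  ext a b
  rw [Matrix.transpose_apply]
  by_cases h : e b = e a + 1
  · rw [GT_mat1 e _ b a h]
  · have h2 : ¬ (negDeg e a = negDeg e b + 1) := by
      intro h3
      simp only [negDeg] at h3
      omega
    rw [GT_mat0 e _ b a h, GT_mat0 (negDeg e) _ a b h2]

theorem GT_ymat (e : ι → ℤ) (ξ1 : Co (negDeg e) → ℂ) :
    ∃ ξ : Co e → ℂ, ymat (negDeg e) ξ1 = (ymat e ξ).transpose := by
  refine ⟨fun c => ymat (negDeg e) ξ1 c.1.1 c.1.2, ?_⟩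
  ext a b
  rw [Matrix.transpose_apply]
  by_cases h : e a = e b + 1
  · rw [GT_ymat1 e _ a b h]
  · have h2 : ¬ (negDeg e b = negDeg e a + 1) := by
      intro h3
      simp only [negDeg] at h3
      omega
    rw [GT_ymat0 e _ a b h, GT_ymat0 (negDeg e) _ b a h2]

theorem GT_box {e : ι → ℤ} {N : κ → Seg} {sg : ι → κ} (h : Boxing e N sg) :
    Boxing (negDeg e) (starN N) sg := by
  refine ⟨?_, ?_, ?_⟩
  · intro a b h1 h2
    exact h.inj a b h1 (by simp only [negDeg] at h2; omega)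
  · intro a
    have h1 := h.mem a
    show -(N (sg a)).2 ≤ - e a ∧ - e a ≤ -(N (sg a)).1
    omega
  · intro k j h1 h2
    have h1' : -(N k).2 ≤ j := h1
    have h2' : j ≤ -(N k).1 := h2
    obtain ⟨a, ha, hb⟩ := h.ex k (-j) (by omega) (by omega)
    refine ⟨a, ha, ?_⟩
    show - e a = j
    omega

theorem GT_box' {e : ι → ℤ} {N : κ → Seg} {sg : ι → κ}
    (h : Boxing (negDeg e) (starN N) sg) : Boxing e N sg := by
  refine ⟨?_, ?_, ?_⟩
  · intro a b h1 h2
    refine h.inj a b h1 ?_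
    show - e a = - e b
    omega
  · intro a
    have h1 : -(N (sg a)).2 ≤ - e a ∧ - e a ≤ -(N (sg a)).1 := h.mem a
    omega
  · intro k j h1 h2
    obtain ⟨a, ha, hb⟩ := h.ex k (-j) (by show -(N k).2 ≤ -j; omega)
      (by show -j ≤ -(N k).1; omega)
    refine ⟨a, ha, ?_⟩
    have h3 : - e a = - j := hb
    omega

theorem GT_orb {e : ι → ℤ} {N : κ → Seg} {x : Co e → ℂ} {x1 : Co (negDeg e) → ℂ}
    (hx : mat (negDeg e) x1 = (mat e x).transpose) (h : x ∈ orbN e N) :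
    x1 ∈ orbN (negDeg e) (starN N) := by
  obtain ⟨sg, hsg, g, k, hg, hk, hgk, hkg, hm⟩ := h
  refine ⟨sg, GT_box hsg, k.transpose, g.transpose, ?_, ?_, ?_, ?_, ?_⟩
  · intro a b h1
    have h2 := hk b a h1
    show - e a = - e b + 0
    omega
  · intro a b h1
    have h2 := hg b a h1
    show - e a = - e b + 0
    omega
  · rw [← Matrix.transpose_mul, hgk, Matrix.transpose_one]
  · rw [← Matrix.transpose_mul, hkg, Matrix.transpose_one]
  · rw [hx, hm, Matrix.transpose_mul, Matrix.transpose_mul, GT_smat, Matrix.mul_assoc]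

theorem GT_orb' {e : ι → ℤ} {N : κ → Seg} {x : Co e → ℂ} {x1 : Co (negDeg e) → ℂ}
    (hx : mat (negDeg e) x1 = (mat e x).transpose)
    (h : x1 ∈ orbN (negDeg e) (starN N)) : x ∈ orbN e N := by
  obtain ⟨sg, hsg, g, k, hg, hk, hgk, hkg, hm⟩ := h
  refine ⟨sg, GT_box' hsg, k.transpose, g.transpose, ?_, ?_, ?_, ?_, ?_⟩
  · intro a b h1
    have h2 : - e b = - e a + 0 := hk b a h1
    omega
  · intro a b h1
    have h2 : - e b = - e a + 0 := hg b a h1
    omega
  · rw [← Matrix.transpose_mul, hgk, Matrix.transpose_one]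
  · rw [← Matrix.transpose_mul, hkg, Matrix.transpose_one]
  · have h1 : mat e x = (mat (negDeg e) x1).transpose := by
      rw [hx, Matrix.transpose_transpose]
    rw [h1, hm, Matrix.transpose_mul, Matrix.transpose_mul, GT_smat,
      Matrix.transpose_transpose, Matrix.mul_assoc]

theorem GT_lab {e : ι → ℤ} {L : Type} [AddCommGroup L] [Module ℂ L] {W : WMod (Co e) L}
    {W1 : WMod (Co (negDeg e)) L} {N : κ → Seg}
    (hc : ∀ x ξ x1 ξ1, W.InCh x ξ → mat (negDeg e) x1 = (mat e x).transpose →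
      ymat (negDeg e) ξ1 = (ymat e ξ).transpose → W1.InCh x1 ξ1)
    (h : W.Lab N) : W1.Lab (starN N) := by
  intro x1 hx1 ξ1 hcomm
  obtain ⟨x, hx⟩ := GT_mat e x1
  obtain ⟨ξ, hξ⟩ := GT_ymat e ξ1
  refine hc x ξ x1 ξ1 (h x (GT_orb' hx hx1) ξ ?_) hx hξ
  rw [hx, hξ, ← Matrix.transpose_mul, ← Matrix.transpose_mul] at hcomm
  have h2 := congrArg Matrix.transpose hcomm
  rw [Matrix.transpose_transpose, Matrix.transpose_transpose] at h2
  exact h2.symm

theorem p_GT (hT : Stmt_TRA) : Stmt_GT := by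
  intro κ κ2 M N h
  obtain ⟨ι, i1, i2, e, L, i3, i4, W, hW⟩ := h
  obtain ⟨W1, h1, h2, h3, h4, h5⟩ := hT ι e L W hW.simple hW.growth hW.equi
  refine ⟨ι, i1, i2, negDeg e, L, i3, i4, W1, ?_⟩
  refine ⟨h1, h2, h3, ?_, GT_lab h4 hW.labM, GT_lab h4 hW.labN, ?_, ?_⟩
  · intro g hg
    refine h5 _ hW.nilOn g ?_
    rintro x1 ⟨x, hx, hx1⟩
    exact hg x1 (GT_orb hx1 hx)
  · obtain ⟨sg, hsg⟩ := hW.exM
    exact ⟨sg, GT_box hsg⟩
  · obtain ⟨sg, hsg⟩ := hW.exN
    exact ⟨sg, GT_box hsg⟩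

end Pool.DM
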