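import Pool.Agent.Work.MP_c20ce7_lab.Interface

set_option autoImplicit false

open MvPolynomial Matrix Topology

noncomputable section

namespace Pool.DM

theorem LNE_poly {τ : Type} (a b : τ → ℂ) (q : MvPolynomial τ ℂ) :
    ∃ p : Polynomial ℂ, ∀ s : ℂ, p.eval s = eval (fun c => a c + s * b c) q := by
  refine ⟨eval₂ (Polynomial.C) (fun c => Polynomial.C (a c) + Polynomial.X * Polynomial.C (b c)) q,
    fun s => ?_⟩
  have h1 := MvPolynomial.eval₂_comp_left (Polynomial.evalRingHom s) Polynomial.C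
    (fun c => Polynomial.C (a c) + Polynomial.X * Polynomial.C (b c)) q
  rw [← Polynomial.coe_evalRingHom, h1]
  have h2 : (Polynomial.evalRingHom s).comp Polynomial.C = RingHom.id ℂ := by
    ext z; simp
  rw [h2]
  have h3 : (⇑(Polynomial.evalRingHom s) ∘ fun c => Polynomial.C (a c) + Polynomial.X * Polynomial.C (b c)) =
      fun c => a c + s * b c := by
    funext c
    simp only [Function.comp_apply, Polynomial.coe_evalRingHom, Polynomial.eval_add, Polynomial.eval_mul,
      Polynomial.eval_C, Polynomial.eval_X]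
  rw [h3]
  rfl

theorem p_LNE : Stmt_LNE := by
  intro σ _ _ L _ _ W x ξ0 ξ1 h u hu m P hP hPu
  obtain ⟨p, hp⟩ := LNE_poly (Sum.elim x ξ0) (Sum.elim (fun _ => 0) (ξ1 - ξ0))
    (weightedHomogeneousComponent (wt σ) m P)
  have hpt : ∀ s : ℂ, (fun c => Sum.elim x ξ0 c + s * Sum.elim (fun _ => 0) (ξ1 - ξ0) c) =
      Sum.elim x (ξ0 + s • (ξ1 - ξ0)) := by
    intro s
    funext c
    rcases c with c | c
    · simp
    · simp
  have h1 : {s : ℂ | p.IsRoot s} ∈ 𝓝 (0 : ℂ) := by
    refine Filter.mem_of_superset h fun s hs => ?_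
    have h2 := hs u hu m P hP hPu
    rw [← hpt s, ← hp s] at h2
    exact h2
  have h3 : p = 0 := Polynomial.eq_zero_of_infinite_isRoot p (infinite_of_mem_nhds 0 h1)
  have h4 := hp 1
  rw [h3, Polynomial.eval_zero, hpt 1] at h4
  have h5 : ξ0 + (1 : ℂ) • (ξ1 - ξ0) = ξ1 := by
    rw [one_smul]; abel
  rw [h5] at h4
  exact h4.symm

end Pool.DM
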