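import Pool.Agent.Work.MP_c20ce7_lab.Interface

set_option autoImplicit false

/-! # Block OPN: openness of `FlagInj` -/

open MvPolynomial Matrix Filter Topology
open scoped ComplexOrder

noncomputable section

namespace Pool.DM

lemma OPN_sum {ι : Type} [Fintype ι] [DecidableEq ι] (K B : ι → Prop) [DecidablePred K]
    [DecidablePred B] (M : Matrix ι ι ℂ) (z : ι → ℂ) (hz : ∀ b, z b ≠ 0 → B b)
    (a : {a // K a}) :
    (M.submatrix (Subtype.val : {a // K a} → ι) (Subtype.val : {b // B b} → ι) *ᵥ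
      (fun b : {b // B b} => z b.1)) a = (M *ᵥ z) a.1 := by
  simp only [Matrix.mulVec, dotProduct, Matrix.submatrix_apply]
  rw [← Finset.sum_subtype (Finset.univ.filter B) (by simp) (fun b => M a.1 b * z b)]
  refine Finset.sum_filter_of_ne fun b _ hb => hz b ?_
  intro h
  exact hb (by rw [h, mul_zero])

lemma OPN_aux {ι : Type} [Fintype ι] [DecidableEq ι] (K B : ι → Prop)
    (F : ℂ → Matrix ι ι ℂ) (hF : Continuous F)
    (h0 : ∀ z : ι → ℂ, (∀ b, z b ≠ 0 → B b) → (∀ a, K a → (F 0 *ᵥ z) a = 0) → z = 0) :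
    ∀ᶠ s in 𝓝 (0 : ℂ), ∀ z : ι → ℂ, (∀ b, z b ≠ 0 → B b) →
      (∀ a, K a → (F s *ᵥ z) a = 0) → z = 0 := by
  classical
  let P : ℂ → Matrix {a // K a} {b // B b} ℂ :=
    fun s => (F s).submatrix Subtype.val Subtype.val
  have hP : Continuous fun s => ((P s)ᴴ * P s).det := by
    have h1 : Continuous P := hF.matrix_submatrix _ _
    exact (h1.matrix_conjTranspose.matrix_mul h1).matrix_det
  have hdet0 : ((P 0)ᴴ * P 0).det ≠ 0 := by
    intro hd
    obtain ⟨w, hw0, hw⟩ := Matrix.exists_mulVec_eq_zero_iff.2 hd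
    rw [Matrix.conjTranspose_mul_self_mulVec_eq_zero] at hw
    apply hw0
    let z : ι → ℂ := fun b => if h : B b then w ⟨b, h⟩ else 0
    have hzB : ∀ b, z b ≠ 0 → B b := by
      intro b hb
      by_contra h
      exact hb (dif_neg h)
    have hzw : (fun b : {b // B b} => z b.1) = w := by
      funext b
      exact dif_pos b.2
    have hz : z = 0 := by
      refine h0 z hzB fun a ha => ?_
      rw [← OPN_sum K B (F 0) z hzB ⟨a, ha⟩, hzw]
      exact congrFun hw ⟨a, ha⟩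
    rw [← hzw, hz]
    rfl
  have hev : ∀ᶠ s in 𝓝 (0 : ℂ), ((P s)ᴴ * P s).det ≠ 0 :=
    hP.continuousAt.eventually_ne hdet0
  filter_upwards [hev] with s hs z hzB hzK
  have hPz : P s *ᵥ (fun b : {b // B b} => z b.1) = 0 := by
    funext a
    have := OPN_sum K B (F s) z hzB a
    rw [hzK a.1 a.2] at this
    exact this
  have hw : (fun b : {b // B b} => z b.1) = 0 := by
    refine Matrix.eq_zero_of_mulVec_eq_zero hs ?_
    rw [Matrix.conjTranspose_mul_self_mulVec_eq_zero]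
    exact hPz
  funext b
  by_cases hb : B b
  · exact congrFun hw ⟨b, hb⟩
  · by_contra h
    exact hb (hzB b h)

theorem p_OPN : Stmt_OPN := by
  classical
  intro ι κ _ _ _ e N sg i U F hF h0
  have key : ∀ c ∈ U, ∀ᶠ s in 𝓝 (0 : ℂ), ∀ z : ι → ℂ,
      (∀ b, z b ≠ 0 → e b = i + 1 ∧ (N (sg b)).1 = i + 1 ∧ (N c).2 < (N (sg b)).2) →
      (∀ a, (e a = i ∧ (N (sg a)).1 = i ∧ sg a ∉ U ∧ (N c).2 ≤ (N (sg a)).2) →
        (F s *ᵥ z) a = 0) → z = 0 := by
    intro c hc
    refine OPN_aux (fun a => e a = i ∧ (N (sg a)).1 = i ∧ sg a ∉ U ∧ (N c).2 ≤ (N (sg a)).2)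
      (fun b => e b = i + 1 ∧ (N (sg b)).1 = i + 1 ∧ (N c).2 < (N (sg b)).2) F hF ?_
    intro z hz hK
    exact h0 c hc z hz fun a h1 h2 h3 h4 => hK a ⟨h1, h2, h3, h4⟩
  have h := (Filter.eventually_all_finset U).2 key
  filter_upwards [h] with s hs c hc z hz hK
  exact hs c hc z hz fun a ⟨h1, h2, h3, h4⟩ => hK a h1 h2 h3 h4

end Pool.DM
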