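import Pool.Agent.Work.MP_c20ce7_lab.Interface
import Pool.Agent.Work.MP_c20ce7_nt.B_PM
import Pool.Agent.Work.MP_c20ce7_nt.B_CJ
import Pool.Agent.Work.MP_c20ce7_nt.B_EQ

/-! # Block ORB: the orbit of the parameter of a multisegment -/

set_option autoImplicit false

open MvPolynomial Matrix Pool.Agent.MPc20ce7

noncomputable section

namespace Pool.DM

/-- The pair of a segment. -/
abbrev ORB_f : Seg → ℝ × ℕ := fun s => (((s.1 : ℝ) + s.2) / 2, (s.2 - s.1 + 1).toNat)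

/-- A box bijection. -/
theorem ORB_eqv {ι ι1 κ : Type} (e : ι → ℤ) (e1 : ι1 → ℤ) (N : κ → Seg) (sg : ι → κ) (sg1 : ι1 → κ)
    (h : Boxing e N sg) (h1 : Boxing e1 N sg1) :
    ∃ σ : ι ≃ ι1, ∀ a, sg1 (σ a) = sg a ∧ e1 (σ a) = e a := by
  classical
  have ex1 : ∀ a, ∃ b, sg1 b = sg a ∧ e1 b = e a := fun a => h1.ex _ _ (h.mem a).1 (h.mem a).2
  have ex2 : ∀ b, ∃ a, sg a = sg1 b ∧ e a = e1 b := fun b => h.ex _ _ (h1.mem b).1 (h1.mem b).2
  choose f hf using ex1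
  choose g hg using ex2
  refine ⟨⟨f, g, fun a => ?_, fun b => ?_⟩, hf⟩
  · exact h.inj _ _ ((hg (f a)).1.trans (hf a).1) ((hg (f a)).2.trans (hf a).2)
  · exact h1.inj _ _ ((hf (g b)).1.trans (hg b).1) ((hf (g b)).2.trans (hg b).2)

theorem ORB_get (ls : List Seg) : Finset.univ.val.map ls.get = (ls : Multiset Seg) := by
  rw [Fin.univ_val_map, List.ofFn_get]

theorem ORB_mat {ι : Type} (e : ι → ℤ) (x : Co (fun a => (e a : ℝ)) → ℂ) :
    ∃ x1 : Co e → ℂ, mat e x1 = mat (fun a => (e a : ℝ)) x := by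
  refine ⟨fun c => x ⟨c.1, by
    have := c.2
    show (e c.1.1 : ℝ) = (e c.1.2 : ℝ) + 1
    exact_mod_cast this⟩, ?_⟩
  funext a b
  unfold mat
  by_cases h : e a = e b + 1
  · have h' : (fun a => (e a : ℝ)) a = (fun a => (e a : ℝ)) b + 1 := by
      show (e a : ℝ) = (e b : ℝ) + 1
      exact_mod_cast h
    rw [dif_pos h, dif_pos h']
  · have h' : ¬ ((fun a => (e a : ℝ)) a = (fun a => (e a : ℝ)) b + 1) := by
      intro h2
      have h3 : (e a : ℝ) = (e b : ℝ) + 1 := h2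
      apply h
      exact_mod_cast h3
    rw [dif_neg h, dif_neg h']

theorem p_ORB (_hSTD : Stmt_STD) (hORM : Stmt_ORM) (hORI : Stmt_ORI) (hTRB : Stmt_TRB) :
    Stmt_ORB := by
  intro ι κ _ _ _ e N hN x
  obtain ⟨ls, hls⟩ : ∃ ls : List Seg, (ls : Multiset Seg) = Finset.univ.val.map N :=
    ⟨(Finset.univ.val.map N).toList, Multiset.coe_toList _⟩
  have hne : ∀ s ∈ ls, s.1 ≤ s.2 := by
    intro s hs
    have h1 : s ∈ (ls : Multiset Seg) := hs
    rw [hls] at h1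
    obtain ⟨k, _, rfl⟩ := Multiset.mem_map.1 h1
    exact hN k
  obtain ⟨d, sg1, hd, hbox, hnil⟩ := hORI ls hne
  have horb : orbN e ls.get = orbN e N := by
    refine (hORM (Fin ls.length) κ ls.get N ?_ ι e).1
    rw [ORB_get, hls]
  have hpar : par (Finset.univ.val.map N) = ((ls.map ORB_f : List (ℝ × ℕ)) : Par) := by
    unfold par
    rw [← hls, Multiset.map_coe]
  constructor
  · rintro ⟨l, hl, hconj⟩
    rw [hpar] at hl
    have hperm : l.Perm (ls.map ORB_f) := Multiset.coe_eq_coe.1 hl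
    have hPM := p_PM p_CJ p_EQ l (ls.map ORB_f) hperm
    obtain ⟨g, h, hg, hh, h1, h2, h3⟩ := p_CJ.2.2 _ _ _ _ _ _ _ _ _ hconj hPM
    obtain ⟨x1, hx1⟩ := ORB_mat e x
    refine ⟨x1, ?_, hx1⟩
    rw [← horb]
    obtain ⟨sg, hsg, g', h', hg', hh', e1, e2, e3⟩ := hTRB ι _ (Fin ls.length) e d ls.get sg1 g h
      (fun a b hab => by
        have h4 := hg a b hab
        rw [hd a] at h4
        have h5 : (d a : ℝ) = (e b : ℝ) := h4
        exact_mod_cast h5)
      (fun a b hab => by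
        have h4 := hh a b hab
        rw [hd b] at h4
        have h5 : (e a : ℝ) = (d b : ℝ) := h4
        exact_mod_cast h5) h1 h2 hbox
    refine ⟨sg, hsg, g', h', hg', hh', e1, e2, ?_⟩
    rw [hx1, h3, hnil]
    exact e3
  · rintro ⟨x1, hx1, hx⟩
    rw [← horb] at hx1
    obtain ⟨sg, hsg, g, h, hg, hh, h1, h2, h3⟩ := hx1
    refine ⟨ls.map ORB_f, hpar.symm, ?_⟩
    have hA : Conj (fun a => (e a : ℝ)) (mat (fun a => (e a : ℝ)) x) (fun a => (e a : ℝ))
        (smat e sg) := by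
      refine ⟨h, g, fun a i hai => ?_, fun i a hia => ?_, h2, h1, ?_⟩
      · have h4 := hh a i hai
        show (e a : ℝ) = (e i : ℝ)
        rw [h4, add_zero]
      · have h4 := hg i a hia
        show (e i : ℝ) = (e a : ℝ)
        rw [h4, add_zero]
      · rw [← hx, h3]
    obtain ⟨σ, hσ⟩ := ORB_eqv e d ls.get sg sg1 hsg hbox
    have hB : Conj (fun a => (e a : ℝ)) (smat e sg) (expo (ls.map ORB_f)) (nil (ls.map ORB_f)) := by
      refine p_EQ _ _ σ _ _ _ _ (fun i => ?_) (fun i j => ?_)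
      · rw [hd (σ i), (hσ i).2]
      · rw [hnil]
        unfold smat
        rw [(hσ i).1, (hσ i).2, (hσ j).1, (hσ j).2]
    exact p_CJ.2.2 _ _ _ _ _ _ _ _ _ hA hB

end Pool.DM
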