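import Pool.Agent.Work.MP_c20ce7_lab.Interface

set_option autoImplicit false

/-!
# Block ORI: the index set of the parameters of a list of segments
-/

open MvPolynomial Matrix Topology

noncomputable section

namespace Pool.DM

open Pool.Agent.MPc20ce7

/-- The entries of the box matrix. -/
theorem ORI_smat {ι κ : Type} (e : ι → ℤ) (sg : ι → κ) (a b : ι) :
    (sg a = sg b ∧ e a = e b + 1 → smat e sg a b = 1) ∧
      (¬ (sg a = sg b ∧ e a = e b + 1) → smat e sg a b = 0) := by
  constructor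
  · intro h
    unfold smat
    exact if_pos h
  · intro h
    unfold smat
    exact if_neg h

theorem ORI_step (s : Seg) (hs : s.1 ≤ s.2) (l : List Seg) (L : List (ℝ × ℕ)) (d' : Idx L → ℤ)
    (sg' : Idx L → Fin l.length) (h1 : ∀ a, expo L a = (d' a : ℝ)) (h2 : Boxing d' l.get sg')
    (h3 : nil L = smat d' sg') :
    ∃ (d : Idx ((((s.1 : ℝ) + s.2) / 2, (s.2 - s.1 + 1).toNat) :: L) → ℤ)
      (sg : Idx ((((s.1 : ℝ) + s.2) / 2, (s.2 - s.1 + 1).toNat) :: L) → Fin (s :: l).length),
      (∀ a, expo _ a = (d a : ℝ)) ∧ Boxing d (s :: l).get sg ∧ nil _ = smat d sg := by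
  refine ⟨Sum.elim (fun j => s.2 - (j : ℕ)) d', Sum.elim (fun _ => (0 : Fin (l.length + 1)))
    (fun x => (sg' x).succ), ?_, ?_, ?_⟩
  · rintro (j | x)
    · change ((s.1 : ℝ) + s.2) / 2 + ((((s.2 - s.1 + 1).toNat : ℕ) : ℝ) - 1) / 2 - ((j : ℕ) : ℝ) =
        ((s.2 - ((j : ℕ) : ℤ) : ℤ) : ℝ)
      have h4 : (((s.2 - s.1 + 1).toNat : ℕ) : ℝ) = (s.2 : ℝ) - s.1 + 1 := by
        have h5 : (((s.2 - s.1 + 1).toNat : ℕ) : ℤ) = s.2 - s.1 + 1 := Int.toNat_of_nonneg (by omega)
        have h6 : ((((s.2 - s.1 + 1).toNat : ℕ) : ℤ) : ℝ) = ((s.2 - s.1 + 1 : ℤ) : ℝ) := by rw [h5]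
        push_cast at h6
        exact h6
      rw [h4]
      push_cast
      ring
    · exact h1 x
  · refine ⟨?_, ?_, ?_⟩
    · rintro (j | x) (j' | x') h4 h5
      · have h6 : s.2 - ((j : ℕ) : ℤ) = s.2 - ((j' : ℕ) : ℤ) := h5
        have h7 : (j : ℕ) = (j' : ℕ) := by omega
        exact congrArg Sum.inl (Fin.ext h7)
      · exact absurd (h4 : (0 : Fin (l.length + 1)) = (sg' x').succ) (Fin.succ_ne_zero _).symm
      · exact absurd (h4 : (sg' x).succ = (0 : Fin (l.length + 1))) (Fin.succ_ne_zero _)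
      · exact congrArg Sum.inr (h2.inj x x' (Fin.succ_injective _ h4) h5)
    · rintro (j | x)
      · have hj : (j : ℕ) < (s.2 - s.1 + 1).toNat := j.2
        change s.1 ≤ s.2 - ((j : ℕ) : ℤ) ∧ s.2 - ((j : ℕ) : ℤ) ≤ s.2
        constructor <;> omega
      · exact h2.mem x
    · intro k j
      refine Fin.cases ?_ ?_ k
      · intro h4 h5
        have h6 : s.1 ≤ j := h4
        have h7 : j ≤ s.2 := h5
        refine ⟨Sum.inl ⟨(s.2 - j).toNat, ?_⟩, rfl, ?_⟩
        · change (s.2 - j).toNat < (s.2 - s.1 + 1).toNat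
          omega
        · change s.2 - (((s.2 - j).toNat : ℕ) : ℤ) = j
          omega
      · intro k' h4 h5
        obtain ⟨a, ha, hb⟩ := h2.ex k' j h4 h5
        exact ⟨Sum.inr a, congrArg Fin.succ ha, hb⟩
  · ext a b
    rcases a with j | x
    · rcases b with j' | x'
      · change jordan (s.2 - s.1 + 1).toNat j j' = _
        unfold jordan
        by_cases h4 : (j : ℕ) + 1 = (j' : ℕ)
        · rw [if_pos h4]
          symm
          apply (ORI_smat _ _ _ _).1
          refine ⟨rfl, ?_⟩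
          change s.2 - ((j : ℕ) : ℤ) = s.2 - ((j' : ℕ) : ℤ) + 1
          omega
        · rw [if_neg h4]
          refine ((ORI_smat _ _ _ _).2 ?_).symm
          rintro ⟨_, h5⟩
          have h6 : s.2 - ((j : ℕ) : ℤ) = s.2 - ((j' : ℕ) : ℤ) + 1 := h5
          omega
      · refine Eq.trans (b := (0 : ℂ)) rfl ((ORI_smat _ _ _ _).2 ?_).symm
        rintro ⟨h5, _⟩
        exact absurd (h5 : (0 : Fin (l.length + 1)) = (sg' x').succ) (Fin.succ_ne_zero _).symm
    · rcases b with j' | x'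
      · refine Eq.trans (b := (0 : ℂ)) rfl ((ORI_smat _ _ _ _).2 ?_).symm
        rintro ⟨h5, _⟩
        exact absurd (h5 : (sg' x).succ = (0 : Fin (l.length + 1))) (Fin.succ_ne_zero _)
      · change nil L x x' = _
        rw [h3]
        by_cases h4 : sg' x = sg' x' ∧ d' x = d' x' + 1
        · rw [(ORI_smat _ _ _ _).1 h4]
          symm
          apply (ORI_smat _ _ _ _).1
          exact ⟨congrArg Fin.succ h4.1, h4.2⟩
        · rw [(ORI_smat _ _ _ _).2 h4]
          refine ((ORI_smat _ _ _ _).2 ?_).symm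
          rintro ⟨h5, h6⟩
          exact h4 ⟨Fin.succ_injective _ h5, h6⟩

theorem p_ORI : Stmt_ORI := by
  intro l
  induction l with
  | nil =>
    intro _
    refine ⟨fun a => Empty.elim a, fun a => Empty.elim a, fun a => Empty.elim a, ⟨?_, ?_, ?_⟩, ?_⟩
    · intro a
      exact Empty.elim a
    · intro a
      exact Empty.elim a
    · intro k
      exact k.elim0
    · ext a
      exact Empty.elim a
  | cons s l ih =>
    intro h
    obtain ⟨d', sg', h1, h2, h3⟩ := ih fun t ht => h t (List.mem_cons_of_mem _ ht)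
    exact ORI_step s (h s List.mem_cons_self) l _ d' sg' h1 h2 h3

end Pool.DM
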