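import Pool.Agent.Work.MP_c20ce7_lab.Interface

set_option autoImplicit false

/-!
# Block ORM: the orbit depends only on the multiset of the nonempty segments
-/

noncomputable section

namespace Pool.DM

/-- Two functions on finite types with fibres of the same size differ by a bijection. -/
lemma ORM_equiv {A B X : Type} (f : A → X) (g : B → X)
    (h : ∀ x, Nonempty ({a // f a = x} ≃ {b // g b = x})) : ∃ σ : A ≃ B, ∀ a, g (σ a) = f a := by
  classical
  let F : ∀ x, {a // f a = x} ≃ {b // g b = x} := fun x => (h x).some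
  refine ⟨(Equiv.sigmaFiberEquiv f).symm.trans
    ((Equiv.sigmaCongrRight F).trans (Equiv.sigmaFiberEquiv g)), fun a => ?_⟩
  have := (F (f a) ⟨a, rfl⟩).2
  simpa [Equiv.sigmaFiberEquiv] using this

/-- The fibres over a nonempty segment are counted by the filtered multiset. -/
lemma ORM_count {κ : Type} [Fintype κ] (N : κ → Seg) (x : Seg) (hx : x.1 ≤ x.2) :
    Multiset.count x ((Finset.univ.val.map N).filter (fun s => s.1 ≤ s.2)) =
      Nat.card {a : {k : κ // (N k).1 ≤ (N k).2} // N a.1 = x} := by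
  classical
  rw [Multiset.count_filter_of_pos (by exact hx), Multiset.count_map]
  have e1 : {a : {k : κ // (N k).1 ≤ (N k).2} // N a.1 = x} ≃ {k : κ // x = N k} :=
    { toFun := fun a => ⟨a.1.1, a.2.symm⟩
      invFun := fun k => ⟨⟨k.1, by rw [← k.2]; exact hx⟩, k.2.symm⟩
      left_inv := fun a => rfl
      right_inv := fun k => rfl }
  rw [Nat.card_congr e1, Nat.card_eq_fintype_card, Fintype.card_subtype]
  rfl

/-- The bijection of the nonempty segments. -/
lemma ORM_bij {κ κ' : Type} [Fintype κ] [Fintype κ'] (N : κ → Seg) (N' : κ' → Seg)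
    (h : (Finset.univ.val.map N).filter (fun s => s.1 ≤ s.2) =
      (Finset.univ.val.map N').filter (fun s => s.1 ≤ s.2)) :
    ∃ σ : {k : κ // (N k).1 ≤ (N k).2} ≃ {k : κ' // (N' k).1 ≤ (N' k).2}, ∀ a, N' (σ a).1 = N a.1 := by
  classical
  refine ORM_equiv (fun a : {k : κ // (N k).1 ≤ (N k).2} => N a.1)
    (fun a : {k : κ' // (N' k).1 ≤ (N' k).2} => N' a.1) fun x => ?_
  by_cases hx : x.1 ≤ x.2
  · have h1 := ORM_count N x hx
    have h2 := ORM_count N' x hx
    rw [h] at h1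
    have h3 := h1.symm.trans h2
    rw [Nat.card_eq_fintype_card, Nat.card_eq_fintype_card] at h3
    exact Fintype.card_eq.1 h3
  · have : IsEmpty {a : {k : κ // (N k).1 ≤ (N k).2} // N a.1 = x} :=
      ⟨fun a => hx (by have := a.1.2; rw [a.2] at this; exact this)⟩
    have : IsEmpty {a : {k : κ' // (N' k).1 ≤ (N' k).2} // N' a.1 = x} :=
      ⟨fun a => hx (by have := a.1.2; rw [a.2] at this; exact this)⟩
    exact ⟨Equiv.equivOfIsEmpty _ _⟩

/-- Transport of one boxing, with the same box matrix. -/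
lemma ORM_box {κ κ' : Type} (N : κ → Seg) (N' : κ' → Seg)
    (σ : {k : κ // (N k).1 ≤ (N k).2} ≃ {k : κ' // (N' k).1 ≤ (N' k).2}) (hσ : ∀ a, N' (σ a).1 = N a.1)
    {ι : Type} [Fintype ι] [DecidableEq ι] (e : ι → ℤ) (sg : ι → κ) (hb : Boxing e N sg) :
    ∃ sg' : ι → κ', Boxing e N' sg' ∧ smat e sg' = smat e sg := by
  have hne : ∀ a, (N (sg a)).1 ≤ (N (sg a)).2 := fun a => (hb.mem a).1.trans (hb.mem a).2
  have hiff : ∀ a b, (σ ⟨sg a, hne a⟩).1 = (σ ⟨sg b, hne b⟩).1 ↔ sg a = sg b := by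
    intro a b
    constructor
    · intro h
      have := σ.injective (Subtype.ext h)
      exact congrArg Subtype.val this
    · intro h
      have : (⟨sg a, hne a⟩ : {k : κ // (N k).1 ≤ (N k).2}) = ⟨sg b, hne b⟩ := Subtype.ext h
      rw [this]
  refine ⟨fun a => (σ ⟨sg a, hne a⟩).1, ⟨?_, ?_, ?_⟩, ?_⟩
  · intro a b h1 h2
    exact hb.inj a b ((hiff a b).1 h1) h2
  · intro a
    have := hb.mem a
    rw [hσ ⟨sg a, hne a⟩]
    exact this
  · intro k j h1 h2
    have hk : (N' k).1 ≤ (N' k).2 := h1.trans h2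
    have h3 : N' k = N (σ.symm ⟨k, hk⟩).1 := by
      rw [← hσ, Equiv.apply_symm_apply]
    rw [h3] at h1 h2
    obtain ⟨a, ha, hea⟩ := hb.ex (σ.symm ⟨k, hk⟩).1 j h1 h2
    refine ⟨a, ?_, hea⟩
    have : (⟨sg a, hne a⟩ : {k : κ // (N k).1 ≤ (N k).2}) = σ.symm ⟨k, hk⟩ := Subtype.ext ha
    show (σ ⟨sg a, hne a⟩).1 = k
    rw [this, Equiv.apply_symm_apply]
  · funext a b
    unfold smat
    have h := hiff a b
    by_cases h1 : sg a = sg b
    · simp [h1]
    · have h2 : ¬ (σ ⟨sg a, hne a⟩).1 = (σ ⟨sg b, hne b⟩).1 := fun h' => h1 (h.1 h')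
      simp [h2, h1]

theorem p_ORM : Stmt_ORM := by
  intro κ κ' _ _ N N' h ι _ _ e
  obtain ⟨σ, hσ⟩ := ORM_bij N N' h
  have hσ' : ∀ a, N (σ.symm a).1 = N' a.1 := by
    intro a
    rw [← hσ, Equiv.apply_symm_apply]
  refine ⟨Set.Subset.antisymm ?_ ?_, ?_⟩
  · rintro x ⟨sg, hb, g, k, h1, h2, h3, h4, h5⟩
    obtain ⟨sg', hb', hs⟩ := ORM_box N N' σ hσ e sg hb
    exact ⟨sg', hb', g, k, h1, h2, h3, h4, by rw [hs]; exact h5⟩
  · rintro x ⟨sg, hb, g, k, h1, h2, h3, h4, h5⟩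
    obtain ⟨sg', hb', hs⟩ := ORM_box N' N σ.symm hσ' e sg hb
    exact ⟨sg', hb', g, k, h1, h2, h3, h4, by rw [hs]; exact h5⟩
  · rintro ⟨sg, hb⟩
    obtain ⟨sg', hb', -⟩ := ORM_box N N' σ hσ e sg hb
    exact ⟨sg', hb'⟩

end Pool.DM
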