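import Pool.Agent.Work.MP_c20ce7_lab.Interface

set_option autoImplicit false

/-!
# Labels: block PJ

The columns `J` can be moved to the columns `τ` by a permutation.
-/

open MvPolynomial Matrix Topology

noncomputable section

namespace Pool.DM

theorem PJ_ext {ι K : Type} [Fintype ι] [DecidableEq ι] (e : ι → ℤ) (f g : K → ι)
    (hf : Function.Injective f) (hg : Function.Injective g) (h : ∀ k, e (f k) = e (g k)) :
    ∃ π : Equiv.Perm ι, (∀ k, π (f k) = g k) ∧ ∀ b, e (π b) = e b := by
  classical
  have key : ∀ d : ℤ, ∃ ε : Equiv.Perm {b // e b = d},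
      ∀ (k : K) (hk : e (f k) = d), (ε ⟨f k, hk⟩).1 = g k := by
    intro d
    let A : {b // e b = d} → Prop := fun b => b.1 ∈ Set.range f
    let B : {b // e b = d} → Prop := fun b => b.1 ∈ Set.range g
    let u : {k // e (f k) = d} ≃ {b // A b} :=
      Equiv.ofBijective (fun k => ⟨⟨f k.1, k.2⟩, ⟨k.1, rfl⟩⟩) (by
        constructor
        · intro k k' hk
          apply Subtype.ext
          apply hf
          exact congrArg (fun x : {b // A b} => x.1.1) hk
        · rintro ⟨⟨b, hb⟩, k, hk⟩
          have hk' : f k = b := hk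
          subst hk'
          exact ⟨⟨k, hb⟩, rfl⟩)
    let v : {k // e (f k) = d} ≃ {b // B b} :=
      Equiv.ofBijective (fun k => ⟨⟨g k.1, by rw [← h]; exact k.2⟩, ⟨k.1, rfl⟩⟩) (by
        constructor
        · intro k k' hk
          apply Subtype.ext
          apply hg
          exact congrArg (fun x : {b // B b} => x.1.1) hk
        · rintro ⟨⟨b, hb⟩, k, hk⟩
          have hk' : g k = b := hk
          subst hk'
          exact ⟨⟨k, by rw [h]; exact hb⟩, rfl⟩)
    refine ⟨(u.symm.trans v).extendSubtype, ?_⟩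
    intro k hk
    have hA : A ⟨f k, hk⟩ := ⟨k, rfl⟩
    rw [Equiv.extendSubtype_apply_of_mem _ _ hA]
    have hu : u.symm ⟨⟨f k, hk⟩, hA⟩ = ⟨k, hk⟩ := by
      rw [Equiv.symm_apply_eq]
      rfl
    rw [Equiv.trans_apply, hu]
    rfl
  choose ε hε using key
  refine ⟨Equiv.ofFiberEquiv ε, ?_, ?_⟩
  · intro k
    rw [Equiv.ofFiberEquiv_apply]
    exact hε _ k rfl
  · intro b
    exact Equiv.ofFiberEquiv_map ε b

theorem PJ_mat {ι : Type} [Fintype ι] [DecidableEq ι] (e : ι → ℤ) (M : Matrix ι ι ℂ) (a b : ι)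
    (h : e a = e b + 1) : mat e (ptOf e M) a b = M a b := by
  unfold mat
  exact dif_pos h

theorem PJ_ymat {ι : Type} [Fintype ι] [DecidableEq ι] (e : ι → ℤ) (M : Matrix ι ι ℂ) (a b : ι)
    (h : e b = e a + 1) : ymat e (covOf e M) a b = M a b := by
  unfold ymat
  exact dif_pos h

theorem p_PJ : Stmt_PJ := by
  intro ι _ _ e i J τ hJ hτ hJe hτe hcard
  classical
  -- the permutation of the columns
  have hc : Fintype.card {k // e (τ k) = i + 1} = Fintype.card {k // e (J k) = i + 1} := by
    rw [Fintype.card_subtype, Fintype.card_subtype, hcard]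
  obtain ⟨ρ, hρ⟩ : ∃ ρ : Equiv.Perm {a // e a = i}, ∀ k, e (τ k) = e (J (ρ k)) := by
    let ε : {k // e (τ k) = i + 1} ≃ {k // e (J k) = i + 1} := Fintype.equivOfCardEq hc
    refine ⟨ε.extendSubtype, fun k => ?_⟩
    by_cases hk : e (τ k) = i + 1
    · have h1 := Equiv.extendSubtype_mem ε k hk
      rw [hk]
      exact h1.symm
    · have h1 := Equiv.extendSubtype_not_mem ε k hk
      rw [(hτe k).resolve_right hk]
      exact ((hJe _).resolve_right h1).symm
  obtain ⟨π, hπ, hπe⟩ := PJ_ext e τ (fun k => J (ρ k)) hτ (hJ.comp ρ.injective) hρ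
  have hπs : ∀ b, e (π.symm b) = e b := by
    intro b
    rw [← hπe (π.symm b), Equiv.apply_symm_apply]
  let g : Matrix ι ι ℂ := (1 : Matrix ι ι ℂ).submatrix π.symm (Equiv.refl ι)
  let h : Matrix ι ι ℂ := (1 : Matrix ι ι ℂ).submatrix (Equiv.refl ι) π.symm
  have hgM : ∀ M : Matrix ι ι ℂ, g * M = M.submatrix π.symm id := by
    intro M
    change (1 : Matrix ι ι ℂ).submatrix π.symm (Equiv.refl ι) * M = _
    rw [Matrix.one_submatrix_mul]
    rfl
  have hMh : ∀ M : Matrix ι ι ℂ, M * h = M.submatrix id π.symm := by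
    intro M
    change M * (1 : Matrix ι ι ℂ).submatrix (Equiv.refl ι) π.symm = _
    rw [Matrix.mul_submatrix_one]
    rfl
  have hgh : g * h = 1 := by
    rw [hgM]
    ext a b
    change (1 : Matrix ι ι ℂ) (π.symm a) (π.symm b) = (1 : Matrix ι ι ℂ) a b
    rw [Matrix.one_apply, Matrix.one_apply]
    by_cases hab : a = b
    · rw [if_pos hab, if_pos (by rw [hab])]
    · rw [if_neg hab, if_neg (fun h0 => hab (π.symm.injective h0))]
  refine ⟨g, h, ?_, ?_, hgh, mul_eq_one_comm.1 hgh, ?_⟩
  · intro a b hab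
    have h1 : π.symm a = b := by
      by_contra hne
      apply hab
      change (1 : Matrix ι ι ℂ) (π.symm a) b = 0
      exact Matrix.one_apply_ne hne
    rw [← h1, hπs, add_zero]
  · intro a b hab
    have h1 : a = π.symm b := by
      by_contra hne
      apply hab
      change (1 : Matrix ι ι ℂ) a (π.symm b) = 0
      exact Matrix.one_apply_ne hne
    rw [h1, hπs, add_zero]
  · intro m y hm hy hdet
    have hent : ∀ (M : Matrix ι ι ℂ) (a b : ι), (g * M * h) a b = M (π.symm a) (π.symm b) := by
      intro M a b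
      rw [hgM, hMh]
      rfl
    let N1 : Matrix {a // e a = i} {a // e a = i} ℂ := fun a k =>
      (m + y) (π.symm a.1) (π.symm (J k))
    have hQ : QJ e i J (ptOf e (g * m * h)) (covOf e (g * y * h)) = N1.det := by
      unfold QJ
      congr 1
      ext a k
      by_cases hk : e (J k) = i - 1
      · rw [if_pos hk, PJ_mat _ _ _ _ (by rw [a.2, hk]; ring), hent]
        change _ = (m + y) (π.symm a.1) (π.symm (J k))
        have hz : y (π.symm a.1) (π.symm (J k)) = 0 := by
          by_contra hne
          have h1 := hy _ _ hne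
          rw [hπs, hπs, a.2, hk] at h1
          omega
        rw [Matrix.add_apply, hz, add_zero]
      · have hk' := (hJe k).resolve_left hk
        rw [if_neg hk, PJ_ymat _ _ _ _ (by rw [a.2, hk']), hent]
        change _ = (m + y) (π.symm a.1) (π.symm (J k))
        have hz : m (π.symm a.1) (π.symm (J k)) = 0 := by
          by_contra hne
          have h1 := hm _ _ hne
          rw [hπs, hπs, a.2, hk'] at h1
          omega
        rw [Matrix.add_apply, hz, zero_add]
    rw [hQ]
    let N2 : Matrix {a // e a = i} {a // e a = i} ℂ := fun a k => (m + y) a.1 (τ k)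
    let σ : Equiv.Perm {a // e a = i} :=
      Equiv.subtypeEquiv π.symm (fun a => by rw [hπs])
    have h12 : N1.submatrix id ρ = N2.submatrix σ id := by
      ext a k
      change (m + y) (π.symm a.1) (π.symm (J (ρ k))) = (m + y) (π.symm a.1) (τ k)
      rw [← hπ k, Equiv.symm_apply_apply]
    have h3 := congrArg Matrix.det h12
    rw [Matrix.det_permute', Matrix.det_permute] at h3
    intro h0
    rw [h0, mul_zero] at h3
    rcases mul_eq_zero.1 h3.symm with h4 | h4
    · rcases Int.units_eq_one_or (Equiv.Perm.sign σ) with h5 | h5 <;> rw [h5] at h4 <;> simp at h4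
    · exact hdet h4

end Pool.DM
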