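import Pool.Agent.Work.MP_c20ce7_lab.Interface

set_option autoImplicit false

/-!
# Block QJE of MP_c20ce7_lab: a point of the conormal bundle with a nonzero minor (typed by helper6)
-/

open MvPolynomial Matrix Topology

noncomputable section

namespace Pool.DM

theorem p_QJE (h1 : Stmt_MPT) (h2 : Stmt_STD) (h3 : Stmt_BXU) (h4 : Stmt_RES) (h5 : Stmt_HAT) :
    Stmt_QJE := by
  intro ι' κ _ _ _ e' i N U S μ hs sg' hsg'
  obtain ⟨sg, hbox, hin, hout, hsg⟩ :=
    h3 ι' (Fin U.card) κ e' i N U hs.start (Fintype.card_fin _) sg' hsg'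
  subst hsg
  obtain ⟨hdeg, hcomm, hrow, -, ⟨τ, hτ⟩, hτ2⟩ :=
    h5 (ι' ⊕ Fin U.card) κ (addDeg e' (Fin U.card) i) N sg hbox i U S μ hs
  obtain ⟨hτd, hA, hinj, hcard⟩ := hτ2 τ hτ
  obtain ⟨-, hres⟩ := h4 ι' (Fin U.card) κ e' i N U sg hs.start hbox hin hout
  obtain ⟨hyd, hyc, -⟩ := hres (yhat (addDeg e' (Fin U.card) i) sg S μ) hdeg hcomm
    (fun c q => hrow _ q (hin c))
  obtain ⟨m1, m2, -, -, m5, -, -, -⟩ := h1 ι' e'
  let ρ0 : {a // e' a = i} → Row (addDeg e' (Fin U.card) i) sg i U :=
    fun a => ⟨Sum.inl a.1, a.2, hout a.1 a.2⟩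
  have hρ : Function.Bijective ρ0 := by
    constructor
    · intro a b hab
      have h := congrArg Subtype.val hab
      exact Subtype.ext (Sum.inl_injective h)
    · rintro ⟨a | c, h⟩
      · exact ⟨⟨a, h.1⟩, rfl⟩
      · exact absurd (hin c) h.2
  let ρ : {a // e' a = i} ≃ Row (addDeg e' (Fin U.card) i) sg i U := Equiv.ofBijective ρ0 hρ
  have hρ1 : ∀ a, (ρ a).1 = Sum.inl a.1 := fun a => rfl
  have hJ : ∀ k, ∃ a : ι', τ (ρ k) = Sum.inl a := by
    intro k
    rcases hk : τ (ρ k) with a | c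
    · exact ⟨a, rfl⟩
    · exfalso
      have h := hτd (ρ k)
      rw [hk] at h
      have h' : i = i - 1 ∨ i = i + 1 := h
      omega
  choose J hJ using hJ
  have hJd : ∀ k, e' (J k) = i - 1 ∨ e' (J k) = i + 1 := by
    intro k
    have h := hτd (ρ k)
    rw [hJ k] at h
    exact h
  have hm : mat e' (ptOf e' (smat e' fun a => sg (Sum.inl a))) = smat e' fun a => sg (Sum.inl a) :=
    m1 _ (m5 κ _)
  have hy := m2 _ hyd
  refine ⟨J, ?_, hJd, ?_, ptOf e' (smat e' fun a => sg (Sum.inl a)),
    covOf e' ((yhat (addDeg e' (Fin U.card) i) sg S μ).submatrix Sum.inl Sum.inl),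
    (h2 ι' κ e' _ _ hsg').1, ?_, ?_⟩
  · intro k k' hk
    apply ρ.injective
    apply hinj
    rw [hJ, hJ, hk]
  · rw [← hcard]
    refine Finset.card_equiv ρ ?_
    intro k
    rw [Finset.mem_filter, Finset.mem_filter, hJ k]
    simp
  · rw [hm, hy]
    exact hyc.symm
  · unfold QJ
    rw [hm, hy]
    have hmat : (fun a k : {a // e' a = i} => if e' (J k) = i - 1 then
        smat e' (fun a => sg (Sum.inl a)) a.1 (J k) else
        (yhat (addDeg e' (Fin U.card) i) sg S μ).submatrix Sum.inl Sum.inl a.1 (J k)) =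
        (Amat (addDeg e' (Fin U.card) i) sg i U τ
          (yhat (addDeg e' (Fin U.card) i) sg S μ)).submatrix ρ ρ := by
      funext a k
      have e1 : (Amat (addDeg e' (Fin U.card) i) sg i U τ
          (yhat (addDeg e' (Fin U.card) i) sg S μ)).submatrix ρ ρ a k =
          smat (addDeg e' (Fin U.card) i) sg (Sum.inl a.1) (Sum.inl (J k)) +
          yhat (addDeg e' (Fin U.card) i) sg S μ (Sum.inl a.1) (Sum.inl (J k)) := by
        rw [← hJ k]
        rfl
      rw [e1]
      have e2 : smat (addDeg e' (Fin U.card) i) sg (Sum.inl a.1) (Sum.inl (J k)) =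
          smat e' (fun a => sg (Sum.inl a)) a.1 (J k) := rfl
      rw [e2]
      have ha := a.2
      split_ifs with hc
      · have e3 : yhat (addDeg e' (Fin U.card) i) sg S μ (Sum.inl a.1) (Sum.inl (J k)) = 0 := by
          by_contra hne
          have h := hdeg _ _ hne
          have h' : e' a.1 = e' (J k) + -1 := h
          omega
        rw [e3, add_zero]
      · have e4 : smat e' (fun a => sg (Sum.inl a)) a.1 (J k) = 0 := by
          by_contra hne
          have h' := m5 κ (fun a => sg (Sum.inl a)) _ _ hne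
          rcases hJd k with h | h
          · exact hc h
          · omega
        rw [e4, zero_add]
        rfl
    rw [hmat, hA, Matrix.det_submatrix_equiv_self, Matrix.det_one]
    exact one_ne_zero

end Pool.DM
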