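import Pool.Agent.Work.MP_c20ce7_lab.Interface

/-!
# Block RES: restriction of a commuting matrix
-/

set_option autoImplicit false

open MvPolynomial Matrix

noncomputable section

namespace Pool.DM

section RES

variable {ι' C : Type} [Fintype ι'] [DecidableEq ι']

theorem RES_mul_emb [Fintype C] (m : Matrix (ι' ⊕ C) (ι' ⊕ C) ℂ) (p : ι' ⊕ C) (b : ι') :
    (m * emb (0 : Matrix C ι' ℂ)) p b = m p (Sum.inl b) := by
  rw [Matrix.mul_apply, Fintype.sum_sum_type]
  have h1 : ∑ a : ι', m p (Sum.inl a) * emb (0 : Matrix C ι' ℂ) (Sum.inl a) b = m p (Sum.inl b) := by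
    rw [Finset.sum_eq_single b]
    · have : emb (0 : Matrix C ι' ℂ) (Sum.inl b) b = 1 := if_pos rfl
      rw [this, mul_one]
    · intro a _ ha
      have : emb (0 : Matrix C ι' ℂ) (Sum.inl a) b = 0 := if_neg ha
      rw [this, mul_zero]
    · intro h
      exact absurd (Finset.mem_univ b) h
  have h2 : ∑ c : C, m p (Sum.inr c) * emb (0 : Matrix C ι' ℂ) (Sum.inr c) b = 0 := by
    refine Finset.sum_eq_zero fun c _ => ?_
    have : emb (0 : Matrix C ι' ℂ) (Sum.inr c) b = 0 := rfl
    rw [this, mul_zero]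
  rw [h1, h2, add_zero]

theorem RES_emb_inl (m : Matrix ι' ι' ℂ) (a b : ι') :
    ((emb (0 : Matrix C ι' ℂ)) * m) (Sum.inl a) b = m a b := by
  rw [Matrix.mul_apply, Finset.sum_eq_single a]
  · have : emb (0 : Matrix C ι' ℂ) (Sum.inl a) a = 1 := if_pos rfl
    rw [this, one_mul]
  · intro q _ hq
    have : emb (0 : Matrix C ι' ℂ) (Sum.inl a) q = 0 := if_neg (Ne.symm hq)
    rw [this, zero_mul]
  · intro h
    exact absurd (Finset.mem_univ a) h

theorem RES_emb_inr (m : Matrix ι' ι' ℂ) (c : C) (b : ι') :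
    ((emb (0 : Matrix C ι' ℂ)) * m) (Sum.inr c) b = 0 := by
  rw [Matrix.mul_apply]
  refine Finset.sum_eq_zero fun q _ => ?_
  have : emb (0 : Matrix C ι' ℂ) (Sum.inr c) q = 0 := rfl
  rw [this, zero_mul]

end RES

theorem p_RES : Stmt_RES := by
  intro ι' C κ _ _ _ _ _ e' i N U sg hU hB hC _
  have hx0 : ∀ (c : C) (b : ι'), smat (addDeg e' C i) sg (Sum.inr c) (Sum.inl b) = 0 := by
    intro c b
    unfold smat
    refine if_neg ?_
    rintro ⟨h1, h2⟩
    have h3 := (hB.mem (Sum.inl b)).1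
    rw [← h1, (hU _ (hC c)).1] at h3
    have h4 : addDeg e' C i (Sum.inr c) = i := rfl
    rw [h4] at h2
    omega
  have hx1 : ∀ a b : ι', smat (addDeg e' C i) sg (Sum.inl a) (Sum.inl b) =
      smat e' (fun a => sg (Sum.inl a)) a b := by
    intro a b
    rfl
  refine ⟨?_, ?_⟩
  · ext p b
    rcases p with a | c
    · exact (RES_mul_emb _ _ b).trans ((hx1 a b).trans (RES_emb_inl _ a b).symm)
    · exact (RES_mul_emb _ _ b).trans ((hx0 c b).trans (RES_emb_inr _ c b).symm)
  · intro y hy hyx hyC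
    refine ⟨?_, ?_, ?_⟩
    · intro a b hab
      exact hy (Sum.inl a) (Sum.inl b) hab
    · ext a b
      have h1 : (y.submatrix Sum.inl Sum.inl * smat e' (fun a => sg (Sum.inl a))) a b =
          (y * smat (addDeg e' C i) sg) (Sum.inl a) (Sum.inl b) := by
        rw [Matrix.mul_apply, Matrix.mul_apply, Fintype.sum_sum_type]
        have h0 : ∑ c : C, y (Sum.inl a) (Sum.inr c) *
            smat (addDeg e' C i) sg (Sum.inr c) (Sum.inl b) = 0 :=
          Finset.sum_eq_zero fun c _ => by rw [hx0, mul_zero]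
        rw [h0, add_zero]
        exact Finset.sum_congr rfl fun q _ => by rw [hx1]; rfl
      have h2 : (smat e' (fun a => sg (Sum.inl a)) * y.submatrix Sum.inl Sum.inl) a b =
          (smat (addDeg e' C i) sg * y) (Sum.inl a) (Sum.inl b) := by
        rw [Matrix.mul_apply, Matrix.mul_apply, Fintype.sum_sum_type]
        have h0 : ∑ c : C, smat (addDeg e' C i) sg (Sum.inl a) (Sum.inr c) *
            y (Sum.inr c) (Sum.inl b) = 0 :=
          Finset.sum_eq_zero fun c _ => by rw [hyC, mul_zero]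
        rw [h0, add_zero]
        exact Finset.sum_congr rfl fun q _ => by rw [hx1]; rfl
      rw [h1, h2, hyx]
    · ext p b
      rcases p with a | c
      · exact (RES_mul_emb _ _ b).trans (RES_emb_inl (y.submatrix Sum.inl Sum.inl) a b).symm
      · exact (RES_mul_emb _ _ b).trans ((hyC c _).trans (RES_emb_inr _ c b).symm)

end Pool.DM
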