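import Pool.Agent.Work.MP_c20ce7_lab.Interface

/-! Block STD (helper58): box matrices of the same family are conjugate. -/

set_option autoImplicit false

open MvPolynomial Matrix Topology

noncomputable section

namespace Pool.DM

theorem STD_mat {ι κ : Type} [Fintype ι] [DecidableEq ι] (e : ι → ℤ) (sg : ι → κ) :
    mat e (ptOf e (smat e sg)) = smat e sg := by
  funext a b
  by_cases h : e a = e b + 1
  · have h1 : mat e (ptOf e (smat e sg)) a b = ptOf e (smat e sg) ⟨(a, b), h⟩ := by
      unfold mat
      exact dif_pos h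
    rw [h1]
    rfl
  · have h1 : mat e (ptOf e (smat e sg)) a b = 0 := by
      unfold mat
      exact dif_neg h
    rw [h1]
    unfold smat
    rw [if_neg (fun hh => h hh.2)]

theorem STD_perm {ι κ : Type} [Fintype ι] [DecidableEq ι] {e : ι → ℤ} {N : κ → Seg}
    {sg sg' : ι → κ} (h : Boxing e N sg) (h' : Boxing e N sg') :
    ∃ π : ι ≃ ι, (∀ a, sg' (π a) = sg a) ∧ ∀ a, e (π a) = e a := by
  classical
  choose π h1 h2 using fun a => h'.ex (sg a) (e a) (h.mem a).1 (h.mem a).2
  have hinj : Function.Injective π := fun a b hab => by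
    refine h.inj a b ?_ ?_
    · rw [← h1 a, ← h1 b, hab]
    · rw [← h2 a, ← h2 b, hab]
  exact ⟨Equiv.ofBijective π (Finite.injective_iff_bijective.1 hinj), h1, h2⟩

theorem p_STD : Stmt_STD := by
  intro ι κ _ _ e N sg hB
  refine ⟨⟨sg, hB, 1, 1, ?_, ?_, one_mul 1, one_mul 1, ?_⟩, ?_⟩
  · intro a b hab
    by_cases h : a = b
    · rw [h, add_zero]
    · exact absurd (Matrix.one_apply_ne h) hab
  · intro a b hab
    by_cases h : a = b
    · rw [h, add_zero]
    · exact absurd (Matrix.one_apply_ne h) hab
  · rw [one_mul, mul_one, STD_mat]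
  · rintro x ⟨sg', hB', g', h', hg, hh, hgh, hhg, hx⟩
    obtain ⟨π, h1, h2⟩ := STD_perm hB hB'
    have hs : smat e sg = (smat e sg').submatrix π π := by
      classical
      funext a b
      rw [Matrix.submatrix_apply]
      unfold smat
      simp only [h1, h2]
    refine ⟨g'.submatrix id π, h'.submatrix π id, ?_, ?_, ?_, ?_, ?_⟩
    · intro a b hab
      rw [Matrix.submatrix_apply] at hab
      have h3 := hg _ _ hab
      rw [h2] at h3
      exact h3
    · intro a b hab
      rw [Matrix.submatrix_apply] at hab
      have h3 := hh _ _ hab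
      rw [h2] at h3
      exact h3
    · rw [Matrix.submatrix_mul_equiv, hgh]
      exact Matrix.submatrix_id_id _
    · have h3 : h'.submatrix π id * g'.submatrix id π = (h' * g').submatrix π π :=
        Matrix.submatrix_mul_equiv h' g' π (Equiv.refl ι) π
      rw [h3, hhg, Matrix.submatrix_one_equiv]
    · rw [hs, Matrix.submatrix_mul_equiv, Matrix.submatrix_mul_equiv, ← hx]
      exact (Matrix.submatrix_id_id _).symm

end Pool.DM
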