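import Pool.Agent.Work.MP_c20ce7_lab.Interface

/-! # Block SUP -/

set_option autoImplicit false

open MvPolynomial

namespace Pool.DM

theorem SUP_zero {ι : Type} [Fintype ι] [DecidableEq ι] (e : ι → ℤ) :
    ymat e (0 : Co e → ℂ) = 0 := by
  funext a b
  simp [ymat]

theorem p_SUP (h1 : Stmt_SCH) : Stmt_SUP := by
  intro ι κ κ2 _ _ e L _ _ W M N hG g
  constructor
  · exact hG.nilOn g
  · intro hn x hx
    refine h1 (Co e) L W g hG.simple hn x 0 (hG.labM x hx 0 ?_)
    rw [SUP_zero, Matrix.mul_zero, Matrix.zero_mul]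

end Pool.DM
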