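import Pool.Agent.Work.MP_c20ce7_lab.Interface

set_option autoImplicit false

open MvPolynomial Matrix

noncomputable section

namespace Pool.DM

/-- The fibres of the degrees have the same cardinality. -/
theorem TRB_card (ι ι1 : Type) [Fintype ι] [DecidableEq ι] [Fintype ι1] [DecidableEq ι1] (e : ι → ℤ)
    (e1 : ι1 → ℤ) (g : Matrix ι1 ι ℂ) (h : Matrix ι ι1 ℂ)
    (hg : ∀ a b, g a b ≠ 0 → e1 a = e b) (hgh : g * h = 1)
    (hhg : h * g = 1) (j : ℤ) :
    Fintype.card {b : ι1 // e1 b = j} = Fintype.card {a : ι // e a = j} := by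
  set D : Matrix ι ι ℂ := Matrix.diagonal (fun a => if e a = j then 1 else 0) with hD
  set D1 : Matrix ι1 ι1 ℂ := Matrix.diagonal (fun a => if e1 a = j then 1 else 0) with hD1
  have hcomm : g * D = D1 * g := by
    ext a b
    rw [hD, hD1, Matrix.mul_diagonal, Matrix.diagonal_mul]
    by_cases hab : g a b = 0
    · rw [hab]; simp
    · rw [hg a b hab]; exact mul_comm _ _
  have htr : D.trace = D1.trace := by
    calc D.trace = (h * g * D).trace := by rw [hhg, one_mul]
      _ = (h * (D1 * g)).trace := by rw [Matrix.mul_assoc, hcomm]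
      _ = ((D1 * g) * h).trace := Matrix.trace_mul_comm _ _
      _ = D1.trace := by rw [Matrix.mul_assoc, hgh, mul_one]
  have h1 : D.trace = ((Fintype.card {a : ι // e a = j} : ℕ) : ℂ) := by
    rw [hD, Matrix.trace_diagonal, Finset.sum_boole, Fintype.card_subtype]
  have h2 : D1.trace = ((Fintype.card {a : ι1 // e1 a = j} : ℕ) : ℂ) := by
    rw [hD1, Matrix.trace_diagonal, Finset.sum_boole, Fintype.card_subtype]
  rw [h1, h2] at htr
  exact_mod_cast htr.symm

theorem p_TRB : Stmt_TRB := by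
  classical
  intro ι ι1 κ _ _ _ _ e e1 N sg1 g h hg hh hgh hhg hB
  obtain ⟨φ, hφ⟩ : ∃ φ : ι1 ≃ ι, ∀ b, e (φ b) = e1 b := by
    have hE : ∀ c : ℤ, Nonempty ({b : ι1 // e1 b = c} ≃ {a : ι // e a = c}) := fun c =>
      Fintype.card_eq.1 (TRB_card ι ι1 e e1 g h hg hgh hhg c)
    exact ⟨Equiv.ofFiberEquiv (fun c => Classical.choice (hE c)),
      Equiv.ofFiberEquiv_map (fun c => Classical.choice (hE c))⟩
  have hφ' : ∀ a, e1 (φ.symm a) = e a := fun a => by
    rw [← hφ (φ.symm a), Equiv.apply_symm_apply]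
  refine ⟨fun a => sg1 (φ.symm a), ⟨?_, ?_, ?_⟩, ?_⟩
  · intro a b hs he
    have := hB.inj (φ.symm a) (φ.symm b) hs (by rw [hφ', hφ', he])
    exact φ.symm.injective this
  · intro a
    have := hB.mem (φ.symm a)
    rw [hφ'] at this
    exact this
  · intro k j hk hj
    obtain ⟨b, hb1, hb2⟩ := hB.ex k j hk hj
    exact ⟨φ b, by rw [Equiv.symm_apply_apply, hb1], by rw [hφ, hb2]⟩
  · have hs : smat e (fun a => sg1 (φ.symm a)) = (smat e1 sg1).submatrix φ.symm φ.symm := by
      ext a b
      simp only [smat, Matrix.submatrix_apply, hφ']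
    refine ⟨h.submatrix id φ.symm, g.submatrix φ.symm id, ?_, ?_, ?_, ?_, ?_⟩
    · intro a b hab
      have := hh a (φ.symm b) hab
      rw [hφ'] at this
      rw [this, add_zero]
    · intro a b hab
      have := hg (φ.symm a) b hab
      rw [hφ'] at this
      rw [this, add_zero]
    · rw [Matrix.submatrix_mul_equiv, hhg, Matrix.submatrix_id_id]
    · have := Matrix.submatrix_mul_equiv g h (φ.symm : ι → ι1) (Equiv.refl ι) (φ.symm : ι → ι1)
      rw [Equiv.coe_refl] at this
      rw [this, hgh, Matrix.submatrix_one_equiv]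
    · rw [hs, Matrix.submatrix_mul_equiv, Matrix.submatrix_mul_equiv, Matrix.submatrix_id_id]

end Pool.DM
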