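import Pool.Agent.Work.MP_c20ce7_lab.Interface

set_option autoImplicit false

/-!
# Labels under up-steps: block UL (the label theorem)
-/

open MvPolynomial Matrix Topology

noncomputable section

namespace Pool.DM

theorem p_UL (hMPT : Stmt_MPT) (hSTD : Stmt_STD) (hBXC : Stmt_BXC) (hLNE : Stmt_LNE)
    (hULG : Stmt_ULG) (hHST : Stmt_HST) : Stmt_UL := by
  intro ι' C κ _ _ _ _ _ e' i N U S μ hStep hcard L' _ _ W' L _ _ W hS' hE' hS hE J hJi hJ hJc hCH
    hLab x hx ξ hc
  obtain ⟨m1, m2, m3, m4, m5, m6, -, -⟩ := hMPT (ι' ⊕ C) (addDeg e' C i)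
  obtain ⟨sg0, hb0, -⟩ := id hx
  obtain ⟨sg, hb, hC, hI, hb'⟩ := hBXC ι' C κ e' i N U hStep.start hcard sg0 hb0
  obtain ⟨g, h, hg, hh, hgh, hhg, hxe⟩ := (hSTD (ι' ⊕ C) κ (addDeg e' C i) N sg hb).2 x hx
  have hsm : smat (addDeg e' C i) sg = h * mat (addDeg e' C i) x * g := by
    rw [hxe]
    calc smat (addDeg e' C i) sg = 1 * smat (addDeg e' C i) sg * 1 := by rw [one_mul, mul_one]
      _ = (h * g) * smat (addDeg e' C i) sg * (h * g) := by rw [hhg]
      _ = _ := by simp only [mul_assoc]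
  have hy : Deg (addDeg e' C i) (-1) (h * ymat (addDeg e' C i) ξ * g) := by
    have h1 := m6 (0 + -1) 0 _ _ (m6 0 (-1) _ _ hh (m4 ξ).1) hg
    simpa using h1
  have hym := m2 _ hy
  have hcomm : smat (addDeg e' C i) sg * ymat (addDeg e' C i) (covOf (addDeg e' C i)
      (h * ymat (addDeg e' C i) ξ * g)) = ymat (addDeg e' C i) (covOf (addDeg e' C i)
      (h * ymat (addDeg e' C i) ξ * g)) * smat (addDeg e' C i) sg := by
    rw [hym, hsm]
    calc h * mat (addDeg e' C i) x * g * (h * ymat (addDeg e' C i) ξ * g)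
        = h * mat (addDeg e' C i) x * (g * h) * ymat (addDeg e' C i) ξ * g := by
          simp only [mul_assoc]
      _ = h * (mat (addDeg e' C i) x * ymat (addDeg e' C i) ξ) * g := by
          rw [hgh, mul_one]; simp only [mul_assoc]
      _ = h * (ymat (addDeg e' C i) ξ * mat (addDeg e' C i) x) * g := by rw [hc]
      _ = h * ymat (addDeg e' C i) ξ * (g * h) * mat (addDeg e' C i) x * g := by
          rw [hgh, mul_one]; simp only [mul_assoc]
      _ = _ := by simp only [mul_assoc]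
  have hnear := hULG ι' C κ e' i N U S μ hStep hcard L' W' L W hS' hE' hS hE J hJi hJ hJc hCH hLab
    sg hb hC hI hb' _ hcomm
  have hin := hLNE _ L W _ _ _ hnear
  refine hHST (ι' ⊕ C) (addDeg e' C i) L W hS hE g h hgh hhg ?_ ?_ _ _ x ξ hin ?_ ?_
  · intro a b hab
    have := hg a b hab
    rwa [add_zero] at this
  · intro a b hab
    have := hh a b hab
    rwa [add_zero] at this
  · rw [m1 _ (m5 κ sg)]
    exact hxe
  · rw [hym]
    calc ymat (addDeg e' C i) ξ = 1 * ymat (addDeg e' C i) ξ * 1 := by rw [one_mul, mul_one]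
      _ = (g * h) * ymat (addDeg e' C i) ξ * (g * h) := by rw [hgh]
      _ = _ := by simp only [mul_assoc]

end Pool.DM
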