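import Pool.Agent.Work.MP_c20ce7_lab.Interface

set_option autoImplicit false

/-!
# Block ULG: near `yhat` the points of the conormal space are in the characteristic variety (helper4)
-/

open MvPolynomial Matrix Topology

noncomputable section

namespace Pool.DM

section gen

variable {ι κ : Type} [Fintype ι] [DecidableEq ι] [DecidableEq κ] {e : ι → ℤ} {N : κ → Seg} {sg : ι → κ}
  {i : ℤ} {U : Finset κ}

/-- the coefficients as a matrix over the segments -/
def ULG_t (e : ι → ℤ) (sg : ι → κ) (i : ℤ) (U : Finset κ) (T : ι → Row e sg i U → ℂ) : Matrix κ κ ℂ :=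
  fun c k => ∑ p, ∑ a : Row e sg i U, if (e p = i ∧ sg p = c ∧ sg p ∈ U ∧ sg a.1 = k) then T p a else 0

theorem ULG_t_apply (hB : Boxing e N sg) (T : ι → Row e sg i U → ℂ) (p : ι) (hp : e p = i)
    (hpU : sg p ∈ U) (a : Row e sg i U) : ULG_t e sg i U T (sg p) (sg a.1) = T p a := by
  unfold ULG_t
  rw [Finset.sum_eq_single p, Finset.sum_eq_single a, if_pos ⟨hp, rfl, hpU, rfl⟩]
  · intro a' _ hne
    rw [if_neg]
    rintro ⟨-, -, -, h⟩
    exact hne (Subtype.ext (hB.inj _ _ h (a'.2.1.trans a.2.1.symm)))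
  · intro h
    exact absurd (Finset.mem_univ _) h
  · intro p' _ hne
    refine Finset.sum_eq_zero fun a' _ => ?_
    rw [if_neg]
    rintro ⟨h1, h2, -, -⟩
    exact hne (hB.inj _ _ h2 (h1.trans hp.symm))
  · intro h
    exact absurd (Finset.mem_univ _) h

theorem ULG_t_ne (T : ι → Row e sg i U → ℂ) (c k : κ) (h : ULG_t e sg i U T c k ≠ 0) :
    ∃ (p : ι) (a : Row e sg i U), e p = i ∧ sg p = c ∧ sg p ∈ U ∧ sg a.1 = k ∧ T p a ≠ 0 := by
  obtain ⟨p, -, hp⟩ := Finset.exists_ne_zero_of_sum_ne_zero h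
  obtain ⟨a, -, ha⟩ := Finset.exists_ne_zero_of_sum_ne_zero hp
  by_cases hc : e p = i ∧ sg p = c ∧ sg p ∈ U ∧ sg a.1 = k
  · rw [if_pos hc] at ha
    exact ⟨p, a, hc.1, hc.2.1, hc.2.2.1, hc.2.2.2, ha⟩
  · rw [if_neg hc] at ha
    exact absurd rfl ha

theorem ULG_row (hG : Stmt_GRA) (hB : Boxing e N sg) (hU : ∀ c ∈ U, (N c).1 = i ∧ i ≤ (N c).2)
    (τ : Row e sg i U → ι) (y : Matrix ι ι ℂ) (hτ : ∀ k, e (τ k) = i - 1 ∨ e (τ k) = i + 1)
    (hy : Deg e (-1) y) (hcom : y * smat e sg = smat e sg * y) (hF : FlagInj e N sg i U y)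
    (hdet : (Amat e sg i U τ y).det ≠ 0) (hX : Deg e 1 (smat e sg)) :
    TSupp N i U (ULG_t e sg i U (Tm e sg i U τ y)) ∧
    ∀ c q, e c = i → sg c ∈ U → y c q =
      ∑ a, if e a = i then ULG_t e sg i U (Tm e sg i U τ y) (sg c) (sg a) * y a q else 0 := by
  have key := hG ι κ e N sg hB i U hU τ y hτ hy hcom hF hdet
  have hT : TSupp N i U (ULG_t e sg i U (Tm e sg i U τ y)) := by
    intro c k h
    obtain ⟨p, a, h1, h2, h3, h4, h5⟩ := ULG_t_ne _ c k h
    have h6 := (key p h1 h3).2 a h5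
    subst h2
    subst h4
    exact ⟨h3, a.2.2, h6.1, h6.2⟩
  refine ⟨hT, ?_⟩
  intro c q hc hcU
  have hz : ∀ a, e a = i → e q ≠ i + 1 → y a q = 0 := by
    intro a ha hq
    by_contra hne
    have := hy a q hne
    omega
  by_cases hq : e q = i + 1
  · have h1 := (key c hc hcU).1 q (Or.inr hq)
    have hx0 : ∀ a, e a = i → smat e sg a q = 0 := by
      intro a ha
      by_contra hne
      have := hX a q hne
      omega
    have h2 : y c q = ∑ a : Row e sg i U, Tm e sg i U τ y c a * y a.1 q := by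
      have h3 : (smat e sg + y) c q = y c q := by
        rw [Matrix.add_apply, hx0 c hc, zero_add]
      rw [← h3, h1]
      refine Finset.sum_congr rfl fun a _ => ?_
      rw [Matrix.add_apply, hx0 a.1 a.2.1, zero_add]
    rw [h2]
    have h4 : ∑ a, (if e a = i then ULG_t e sg i U (Tm e sg i U τ y) (sg c) (sg a) * y a q else 0) =
        ∑ a ∈ Finset.univ.filter (fun a => e a = i ∧ sg a ∉ U),
          (if e a = i then ULG_t e sg i U (Tm e sg i U τ y) (sg c) (sg a) * y a q else 0) := by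
      refine (Finset.sum_filter_of_ne fun a _ hne => ?_).symm
      by_cases ha : e a = i
      · refine ⟨ha, fun haU => hne ?_⟩
        rw [if_pos ha]
        have : ULG_t e sg i U (Tm e sg i U τ y) (sg c) (sg a) = 0 := by
          by_contra h0
          exact (hT _ _ h0).2.1 haU
        rw [this, zero_mul]
      · exact absurd (if_neg ha) hne
    rw [h4, Finset.sum_subtype (p := fun a => e a = i ∧ sg a ∉ U)
      (Finset.univ.filter (fun a => e a = i ∧ sg a ∉ U)) (fun a => by simp)]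
    refine Finset.sum_congr rfl fun a _ => ?_
    rw [if_pos a.2.1, ULG_t_apply hB _ c hc hcU a]
  · rw [hz c hc hq]
    refine (Finset.sum_eq_zero fun a _ => ?_).symm
    by_cases ha : e a = i
    · rw [if_pos ha, hz a ha hq, mul_zero]
    · rw [if_neg ha]

theorem ULG_nt_cont (T : ℂ → ι → Row e sg i U → ℂ)
    (hT : ∀ (c : ι) (a : Row e sg i U), e c = i → sg c ∈ U →
      ContinuousAt (fun s => T s c a) 0 ∧ T 0 c a = 0) :
    ContinuousAt (fun s => nt e sg (ULG_t e sg i U (T s))) 0 ∧ nt e sg (ULG_t e sg i U (T 0)) = 0 := by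
  constructor
  · refine continuousAt_pi.2 fun p => continuousAt_pi.2 fun q => ?_
    unfold nt
    by_cases hpq : e p = e q
    · simp only [if_pos hpq]
      unfold ULG_t
      refine tendsto_finsetSum _ fun p' _ => tendsto_finsetSum _ fun a _ => ?_
      by_cases hc : e p' = i ∧ sg p' = sg p ∧ sg p' ∈ U ∧ sg a.1 = sg q
      · simp only [if_pos hc]
        exact (hT p' a hc.1 hc.2.2.1).1
      · simp only [if_neg hc]
        exact tendsto_const_nhds
    · simp only [if_neg hpq]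
      exact continuousAt_const
  · funext p q
    show (if e p = e q then ULG_t e sg i U (T 0) (sg p) (sg q) else 0) = 0
    split_ifs
    · unfold ULG_t
      refine Finset.sum_eq_zero fun p' _ => Finset.sum_eq_zero fun a _ => ?_
      by_cases hc : e p' = i ∧ sg p' = sg p ∧ sg p' ∈ U ∧ sg a.1 = sg q
      · rw [if_pos hc]
        exact (hT p' a hc.1 hc.2.2.1).2
      · rw [if_neg hc]
    · rfl

end gen

section blocks

variable {ι' C : Type} [Fintype ι'] [DecidableEq ι'] [Fintype C] [DecidableEq C]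

theorem ULG_emb (g : Matrix ι' ι' ℂ) :
    Matrix.fromBlocks g 0 0 (1 : Matrix C C ℂ) * emb (0 : Matrix C ι' ℂ) = emb (0 : Matrix C ι' ℂ) * g := by
  refine Matrix.ext fun p b => ?_
  have h1 : (Matrix.fromBlocks g 0 0 (1 : Matrix C C ℂ) * emb (0 : Matrix C ι' ℂ)) p b =
    ∑ j, Matrix.fromBlocks g 0 0 (1 : Matrix C C ℂ) p j * emb (0 : Matrix C ι' ℂ) j b := Matrix.mul_apply
  have h2 : (emb (0 : Matrix C ι' ℂ) * g) p b = ∑ j, emb (0 : Matrix C ι' ℂ) p j * g j b := Matrix.mul_apply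
  rw [h1, h2, Fintype.sum_sum_type]
  rcases p with a | c
  · simp [emb]
  · simp [emb]

theorem ULG_one (g h : Matrix ι' ι' ℂ) (hgh : g * h = 1) :
    Matrix.fromBlocks g 0 0 (1 : Matrix C C ℂ) * Matrix.fromBlocks h 0 0 1 = 1 := by
  rw [Matrix.fromBlocks_multiply]
  simp [hgh]

theorem ULG_deg {e' : ι' → ℤ} {i : ℤ} (g : Matrix ι' ι' ℂ) (hg : Deg e' 0 g) :
    Deg (addDeg e' C i) 0 (Matrix.fromBlocks g 0 0 (1 : Matrix C C ℂ)) := by
  intro p q h
  rcases p with a | c <;> rcases q with b | d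
  · exact hg a b h
  · exact absurd rfl h
  · exact absurd rfl h
  · show i = i + 0
    omega

end blocks

theorem p_ULG (h1 : Stmt_MPT) (_ : Stmt_BXC) (hSTD : Stmt_STD) (hRES : Stmt_RES) (hGRA : Stmt_GRA)
    (hAUT : Stmt_AUT) (hBLK : Stmt_BLK) (hHAT : Stmt_HAT) (hOPN : Stmt_OPN) (hCTT : Stmt_CTT)
    (hPJ : Stmt_PJ) (hCQJ : Stmt_CQJ) (hHST : Stmt_HST) : Stmt_ULG := by
  classical
  intro ι' C κ _ _ _ _ _ e' i N U S μ hstep hC L' _ _ W' L _ _ W hs' he' hs he J hJi hJd hJc hCH hLab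
    sg hB hgC hgι hB' ξ hξ
  let E : ι' ⊕ C → ℤ := addDeg e' C i
  have hU : ∀ c ∈ U, (N c).1 = i ∧ i ≤ (N c).2 := hstep.start
  obtain ⟨M1, M2, M3, M4, M5, M6, M7, M8⟩ := h1 (ι' ⊕ C) E
  obtain ⟨m1, m2, m3, m4, m5, m6, m7, m8⟩ := h1 ι' e'
  obtain ⟨a1, a2, a3, a4, ⟨τ, hτ⟩, a5⟩ := hHAT (ι' ⊕ C) κ E N sg hB i U S μ hstep
  obtain ⟨b1, b2, b3, b4⟩ := a5 τ hτ
  let X := smat E sg
  let YH := yhat E sg S μ
  let Y := ymat E ξ
  have hξ' : X * Y = Y * X := hξ
  have a2' : YH * X = X * YH := a2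
  have hYd : Deg E (-1) Y := (M4 ξ).1
  let F : ℂ → Matrix (ι' ⊕ C) (ι' ⊕ C) ℂ := fun s => YH + s • (Y - YH)
  have hF0 : F 0 = YH := by
    show YH + (0 : ℂ) • (Y - YH) = YH
    rw [zero_smul, add_zero]
  have hFc : Continuous F := continuous_const.add (continuous_id.smul continuous_const)
  have hFd : ∀ s, Deg E (-1) (F s) := by
    intro s a b h
    by_cases h2 : YH a b = 0
    · by_cases h3 : Y a b = 0
      · exfalso
        apply h
        show YH a b + s * (Y a b - YH a b) = 0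
        rw [h2, h3]
        ring
      · exact hYd a b h3
    · exact a1 a b h2
  have hFcom : ∀ s, F s * X = X * F s := by
    intro s
    show (YH + s • (Y - YH)) * X = X * (YH + s • (Y - YH))
    rw [add_mul, mul_add, Matrix.smul_mul, Matrix.mul_smul, sub_mul, mul_sub, a2', hξ']
  -- the coefficients
  let T : ℂ → (ι' ⊕ C) → Row E sg i U → ℂ := fun s => Tm E sg i U τ (F s)
  let P : ℂ → Matrix (ι' ⊕ C) (ι' ⊕ C) ℂ := fun s => nt E sg (ULG_t E sg i U (T s))
  obtain ⟨c1, c2⟩ := hCTT (ι' ⊕ C) κ E N sg hB i U hU τ b1 F hFc (by rw [hF0]; exact b2)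
    (by rw [hF0]; exact a3)
  obtain ⟨P1, P2⟩ := ULG_nt_cont (e := E) (sg := sg) (i := i) (U := U) T c2
  let y2 : ℂ → Matrix (ι' ⊕ C) (ι' ⊕ C) ℂ := fun s => (1 - P s) * F s * (1 + P s)
  let y' : ℂ → Matrix ι' ι' ℂ := fun s => (y2 s).submatrix Sum.inl Sum.inl
  have hy20 : y2 0 = YH := by
    show (1 - P 0) * F 0 * (1 + P 0) = YH
    have : P 0 = 0 := P2
    rw [this, hF0, sub_zero, add_zero, one_mul, mul_one]
  have hy2c : ContinuousAt y2 0 :=
    ((continuousAt_const.sub P1).mul hFc.continuousAt).mul (continuousAt_const.add P1)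
  have hy'c : ContinuousAt y' 0 := by
    have hc : Continuous (fun A : Matrix (ι' ⊕ C) (ι' ⊕ C) ℂ =>
        A.submatrix (Sum.inl : ι' → ι' ⊕ C) (Sum.inl : ι' → ι' ⊕ C)) :=
      continuous_id.matrix_submatrix _ _
    exact hc.continuousAt.comp hy2c
  -- the point of W'
  let X' := smat e' (fun a => sg (Sum.inl a))
  have hX'd : Deg e' 1 X' := m5 κ _
  have hXd : Deg E 1 X := M5 κ _
  have horb : ptOf e' X' ∈ orbN e' (redN i U N) :=
    (hSTD ι' κ e' (redN i U N) (fun a => sg (Sum.inl a)) hB').1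
  obtain ⟨r1', r2⟩ := hRES ι' C κ e' i N U sg hU hB hgC hgι
  have r1 : X * emb (0 : Matrix C ι' ℂ) = emb (0 : Matrix C ι' ℂ) * X' := r1'
  -- the columns
  have hrow : ∀ a : {a // e' a = i}, E (Sum.inl a.1) = i ∧ sg (Sum.inl a.1) ∉ U :=
    fun a => ⟨a.2, hgι a.1 a.2⟩
  let ε0 : {a // e' a = i} → Row E sg i U := fun a => ⟨Sum.inl a.1, hrow a⟩
  have hε0 : Function.Bijective ε0 := by
    constructor
    · intro a b h
      exact Subtype.ext (Sum.inl_injective (congrArg Subtype.val h))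
    · rintro ⟨p, hp1, hp2⟩
      rcases p with a | c
      · exact ⟨⟨a, hp1⟩, rfl⟩
      · exact absurd (hgC c) hp2
  let ε : {a // e' a = i} ≃ Row E sg i U := Equiv.ofBijective ε0 hε0
  have hτl : ∀ k : Row E sg i U, ∃ b : ι', τ k = Sum.inl b := by
    intro k
    have h2 := b1 k
    rcases hk : τ k with b | c
    · exact ⟨b, rfl⟩
    · exfalso
      rw [hk] at h2
      have h3 : E (Sum.inr c) = i := rfl
      omega
  choose τ0 hτ0 using hτl
  let τ' : {a // e' a = i} → ι' := fun a => τ0 (ε a)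
  have hτ' : ∀ a, τ (ε a) = Sum.inl (τ' a) := fun a => hτ0 (ε a)
  have hEl : ∀ b : ι', E (Sum.inl b) = e' b := fun b => rfl
  have hτ'i : Function.Injective τ' := by
    intro a b h
    apply ε.injective
    apply b3
    rw [hτ', hτ', h]
  have hτ'd : ∀ k, e' (τ' k) = i - 1 ∨ e' (τ' k) = i + 1 := by
    intro k
    have := b1 (ε k)
    rw [hτ' k] at this
    exact this
  have hτ'c : (Finset.univ.filter fun k => e' (τ' k) = i + 1).card = S.card := by
    rw [← b4]
    refine Finset.card_bij (fun k _ => ε k) ?_ ?_ ?_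
    · intro k hk
      rw [Finset.mem_filter] at hk ⊢
      refine ⟨Finset.mem_univ _, ?_⟩
      rw [hτ' k]
      exact hk.2
    · intro a _ b _ h
      exact ε.injective h
    · intro r hr
      rw [Finset.mem_filter] at hr
      refine ⟨ε.symm r, ?_, ε.apply_symm_apply r⟩
      rw [Finset.mem_filter]
      refine ⟨Finset.mem_univ _, ?_⟩
      have h2 := hτ' (ε.symm r)
      rw [ε.apply_symm_apply] at h2
      have h3 := hr.2
      rw [h2] at h3
      exact h3
  obtain ⟨g, h, hg, hh, hgh, hhg, hQ⟩ := hPJ ι' e' i J τ' hJi hτ'i hJd hτ'd (by rw [hJc, hτ'c])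
  have hy'0 : y' 0 = YH.submatrix Sum.inl Sum.inl := by
    show (y2 0).submatrix Sum.inl Sum.inl = _
    rw [hy20]
  have hr0 : ∀ (c : C) q, YH (Sum.inr c) q = 0 := fun c q => a3 _ _ (hgC c)
  have hy'0d : Deg e' (-1) (y' 0) := by
    rw [hy'0]
    exact (r2 YH a1 a2 hr0).1
  have hdet0 : (Matrix.det fun a k : {a // e' a = i} => (X' + y' 0) a.1 (τ' k)) ≠ 0 := by
    have e1 : (fun a k : {a // e' a = i} => (X' + y' 0) a.1 (τ' k)) =
        (Amat E sg i U τ YH).submatrix ε ε := by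
      funext a k
      show (X' + y' 0) a.1 (τ' k) = (X + YH) (ε a).1 (τ (ε k))
      rw [hτ', hy'0]
      rfl
    have e2 : Matrix.det (fun a k : {a // e' a = i} => (X' + y' 0) a.1 (τ' k)) =
        ((Amat E sg i U τ YH).submatrix ε ε).det := congrArg Matrix.det e1
    rw [e2, Matrix.det_submatrix_equiv_self, b2, Matrix.det_one]
    exact one_ne_zero
  have hQ0 := hQ X' (y' 0) hX'd hy'0d hdet0
  have hQs : ∀ᶠ s in 𝓝 (0 : ℂ), QJ e' i J (ptOf e' (g * X' * h)) (covOf e' (g * y' s * h)) ≠ 0 := by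
    refine hCQJ ι' e' i J (ptOf e' (g * X' * h)) (fun s => covOf e' (g * y' s * h)) ?_ hQ0
    intro c
    have hc : ContinuousAt (fun s => g * y' s * h) 0 :=
      (continuousAt_const.mul hy'c).mul continuousAt_const
    exact ((continuous_apply_apply c.1.2 c.1.1).continuousAt.comp hc : _)
  have hFl : ∀ᶠ s in 𝓝 (0 : ℂ), FlagInj E N sg i U (F s) :=
    hOPN (ι' ⊕ C) κ E N sg i U F hFc (by rw [hF0]; exact a4)
  filter_upwards [hFl, c1, hQs] with s hs1 hs2 hs3
  -- now fixed s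
  obtain ⟨t1, t2⟩ := ULG_row hGRA hB hU τ (F s) b1 (hFd s) (hFcom s) hs1 hs2 hXd
  obtain ⟨u1, u2, u3⟩ := hAUT (ι' ⊕ C) κ E N sg hB i U hU _ t1
  obtain ⟨v1, v2, v3⟩ := hBLK (ι' ⊕ C) κ E N sg hB i U hU _ t1 (F s) (hFd s) (hFcom s) t2
  have w1 : Deg E (-1) (y2 s) := v1
  have w2 : y2 s * X = X * y2 s := v2
  have w3 : ∀ (c : C) q, y2 s (Sum.inr c) q = 0 := fun c q => v3 (Sum.inr c) q rfl (hgC c)
  obtain ⟨z1, z2, z3⟩ := r2 (y2 s) w1 w2 w3
  have z1' : Deg e' (-1) (y' s) := z1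
  have z2' : y' s * X' = X' * y' s := z2
  have z3' : y2 s * emb (0 : Matrix C ι' ℂ) = emb (0 : Matrix C ι' ℂ) * y' s := z3
  have k1 : W'.InCh (ptOf e' X') (covOf e' (y' s)) := by
    refine hLab _ horb _ ?_
    rw [m1 X' hX'd, m2 (y' s) z1']
    exact z2'.symm
  have degg : Deg e' 1 (g * X' * h) := by
    have := m6 (0 + 1) 0 _ _ (m6 0 1 _ _ hg hX'd) hh
    simpa using this
  have degy : Deg e' (-1) (g * y' s * h) := by
    have := m6 (0 + -1) 0 _ _ (m6 0 (-1) _ _ hg z1') hh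
    simpa using this
  have hg0 : ∀ a b, g a b ≠ 0 → e' a = e' b := fun a b hab => by simpa using hg a b hab
  have hh0 : ∀ a b, h a b ≠ 0 → e' a = e' b := fun a b hab => by simpa using hh a b hab
  have k2 : W'.InCh (ptOf e' (g * X' * h)) (covOf e' (g * y' s * h)) := by
    refine hHST ι' e' L' W' hs' he' g h hgh hhg hg0 hh0 _ _ _ _ k1 ?_ ?_
    · rw [m1 _ degg, m1 _ hX'd]
    · rw [m2 _ degy, m2 _ z1']
  -- blocks
  let Gg : Matrix (ι' ⊕ C) (ι' ⊕ C) ℂ := Matrix.fromBlocks g 0 0 1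
  let Gh : Matrix (ι' ⊕ C) (ι' ⊕ C) ℂ := Matrix.fromBlocks h 0 0 1
  have G1 : Gg * Gh = 1 := ULG_one g h hgh
  have G2 : Gh * Gg = 1 := ULG_one h g hhg
  have Gd : Deg E 0 Gg := ULG_deg g hg
  have Hd : Deg E 0 Gh := ULG_deg h hh
  have Ge : Gg * emb (0 : Matrix C ι' ℂ) = emb (0 : Matrix C ι' ℂ) * g := ULG_emb g
  have He : Gh * emb (0 : Matrix C ι' ℂ) = emb (0 : Matrix C ι' ℂ) * h := ULG_emb h
  have dX : Deg E 1 (Gg * X * Gh) := by
    have := M6 (0 + 1) 0 _ _ (M6 0 1 _ _ Gd hXd) Hd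
    simpa using this
  have dY : Deg E (-1) (Gg * y2 s * Gh) := by
    have := M6 (0 + -1) 0 _ _ (M6 0 (-1) _ _ Gd w1) Hd
    simpa using this
  have k3 : W.InCh (ptOf E (Gg * X * Gh)) (covOf E (Gg * y2 s * Gh)) := by
    refine hCH _ _ k2 hs3 0 _ _ (fun c a hne => absurd rfl hne) ?_ ?_ ?_
    · rw [M1 _ dX, m1 _ degg]
      calc Gg * X * Gh * emb (0 : Matrix C ι' ℂ) = Gg * (X * (Gh * emb (0 : Matrix C ι' ℂ))) := by simp only [Matrix.mul_assoc]
        _ = Gg * (X * emb (0 : Matrix C ι' ℂ) * h) := by rw [He, Matrix.mul_assoc]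
        _ = Gg * (emb (0 : Matrix C ι' ℂ) * X' * h) := by rw [r1]
        _ = (Gg * emb (0 : Matrix C ι' ℂ)) * (X' * h) := by simp only [Matrix.mul_assoc]
        _ = emb (0 : Matrix C ι' ℂ) * (g * X' * h) := by rw [Ge]; simp only [Matrix.mul_assoc]
    · rw [M2 _ dY, m2 _ degy]
      calc Gg * y2 s * Gh * emb (0 : Matrix C ι' ℂ) = Gg * (y2 s * (Gh * emb (0 : Matrix C ι' ℂ))) := by simp only [Matrix.mul_assoc]
        _ = Gg * (y2 s * emb (0 : Matrix C ι' ℂ) * h) := by rw [He, ← Matrix.mul_assoc (y2 s)]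
        _ = Gg * (emb (0 : Matrix C ι' ℂ) * y' s * h) := by rw [z3']
        _ = (Gg * emb (0 : Matrix C ι' ℂ)) * (y' s * h) := by simp only [Matrix.mul_assoc]
        _ = emb (0 : Matrix C ι' ℂ) * (g * y' s * h) := by rw [Ge]; simp only [Matrix.mul_assoc]
    · intro a b _ _
      rw [M1 _ dX, M2 _ dY]
      have e1 : Gg * X * Gh * (Gg * y2 s * Gh) = Gg * (X * y2 s) * Gh := by
        calc Gg * X * Gh * (Gg * y2 s * Gh) = Gg * X * (Gh * Gg) * (y2 s * Gh) := by
              simp only [Matrix.mul_assoc]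
          _ = Gg * (X * y2 s) * Gh := by rw [G2, mul_one]; simp only [Matrix.mul_assoc]
      have e2 : Gg * y2 s * Gh * (Gg * X * Gh) = Gg * (y2 s * X) * Gh := by
        calc Gg * y2 s * Gh * (Gg * X * Gh) = Gg * y2 s * (Gh * Gg) * (X * Gh) := by
              simp only [Matrix.mul_assoc]
          _ = Gg * (y2 s * X) * Gh := by rw [G2, mul_one]; simp only [Matrix.mul_assoc]
      rw [e1, e2, w2, sub_self]
      rfl
  -- back
  have hPd : Deg E 0 (P s) := u1
  have hPP : P s * P s = 0 := u2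
  have hPX : P s * X = X * P s := u3
  have hp1 : (1 + P s) * (1 - P s) = 1 := by
    rw [add_mul, mul_sub, mul_sub, hPP, one_mul, mul_one, one_mul]
    simp
  have hp2 : (1 - P s) * (1 + P s) = 1 := by
    rw [sub_mul, mul_add, mul_add, hPP, one_mul, mul_one, one_mul]
    simp
  have d1 : Deg E 0 ((1 + P s) * Gh) := by
    have := M6 0 0 _ _ (M7 0 _ _ M8 hPd).1 Hd
    simpa using this
  have d2 : Deg E 0 (Gg * (1 - P s)) := by
    have := M6 0 0 _ _ Gd (M7 0 _ _ M8 hPd).2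
    simpa using this
  have q1 : (1 + P s) * Gh * (Gg * (1 - P s)) = 1 := by
    calc (1 + P s) * Gh * (Gg * (1 - P s)) = (1 + P s) * (Gh * Gg) * (1 - P s) := by
          simp only [Matrix.mul_assoc]
      _ = 1 := by rw [G2, mul_one, hp1]
  have q2 : Gg * (1 - P s) * ((1 + P s) * Gh) = 1 := by
    calc Gg * (1 - P s) * ((1 + P s) * Gh) = Gg * ((1 - P s) * (1 + P s)) * Gh := by
          simp only [Matrix.mul_assoc]
      _ = 1 := by rw [hp2, mul_one, G1]
  have k4 : W.InCh (ptOf E X) (covOf E (F s)) := by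
    refine hHST (ι' ⊕ C) E L W hs he ((1 + P s) * Gh) (Gg * (1 - P s)) q1 q2
      (fun a b hab => by simpa using d1 a b hab) (fun a b hab => by simpa using d2 a b hab)
      _ _ _ _ k3 ?_ ?_
    · rw [M1 _ hXd, M1 _ dX]
      calc X = (1 + P s) * (1 - P s) * X := by rw [hp1, one_mul]
        _ = (1 + P s) * (X * (1 - P s)) := by
            rw [Matrix.mul_assoc, sub_mul, mul_sub X, one_mul, mul_one, hPX]
        _ = (1 + P s) * ((Gh * Gg) * X * (Gh * Gg) * (1 - P s)) := by rw [G2, one_mul, mul_one]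
        _ = (1 + P s) * Gh * (Gg * X * Gh) * (Gg * (1 - P s)) := by simp only [Matrix.mul_assoc]
    · rw [M2 _ (hFd s), M2 _ dY]
      calc F s = ((1 + P s) * (1 - P s)) * F s * ((1 + P s) * (1 - P s)) := by
            rw [hp1, one_mul, mul_one]
        _ = (1 + P s) * ((Gh * Gg) * ((1 - P s) * F s * (1 + P s)) * (Gh * Gg)) * (1 - P s) := by
            rw [G2, one_mul, mul_one]; simp only [Matrix.mul_assoc]
        _ = (1 + P s) * Gh * (Gg * y2 s * Gh) * (Gg * (1 - P s)) := by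
            show _ = (1 + P s) * Gh * (Gg * ((1 - P s) * F s * (1 + P s)) * Gh) * (Gg * (1 - P s))
            simp only [Matrix.mul_assoc]
  have e3 : covOf E (F s) = covOf E YH + s • (ξ - covOf E YH) := by
    funext c
    have h5 : ξ c = Y c.1.2 c.1.1 := (congrFun (M4 ξ).2 c).symm
    show YH c.1.2 c.1.1 + s * (Y c.1.2 c.1.1 - YH c.1.2 c.1.1) =
      YH c.1.2 c.1.1 + s * (ξ c - YH c.1.2 c.1.1)
    rw [h5]
  have k5 : W.InCh (ptOf E X) (covOf E YH + s • (ξ - covOf E YH)) := e3 ▸ k4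
  exact k5

end Pool.DM
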