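import Pool.Agent.Work.MP_c20ce7_lab.Interface

/-!
# Block US: the support of an up-step of type U
-/

set_option autoImplicit false

open MvPolynomial Matrix

noncomputable section

namespace Pool.DM

theorem US_blocks {ι' C κ : Type} [Fintype ι'] [DecidableEq ι'] [Fintype C] [DecidableEq C] [DecidableEq κ]
    (e' : ι' → ℤ) (i : ℤ) (M : κ → Seg) (U : Finset κ) (hU : TypeU i M U) (sg : ι' ⊕ C → κ)
    (hb : Boxing (addDeg e' C i) M sg) (hC : ∀ c : C, sg (Sum.inr c) ∈ U) :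
    smat (addDeg e' C i) sg = Matrix.fromBlocks (smat e' fun a => sg (Sum.inl a)) (alB e' i sg) 0 0 := by
  classical
  ext a b
  rcases a with a | c <;> rcases b with b | d
  · rfl
  · rfl
  · rw [Matrix.fromBlocks_apply₂₁]
    rw [Matrix.zero_apply]
    unfold smat
    refine if_neg ?_
    rintro ⟨h1, h2⟩
    have h2' : i = e' b + 1 := h2
    have hm := (hb.mem (Sum.inl b)).1
    rw [← h1, (hU.start _ (hC c)).1] at hm
    have hm' : i ≤ e' b := hm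
    omega
  · rw [Matrix.fromBlocks_apply₂₂]
    rw [Matrix.zero_apply]
    unfold smat
    refine if_neg ?_
    rintro ⟨_, h2⟩
    have h2' : i = i + 1 := h2
    omega

theorem US_orb {ι κ : Type} [Fintype ι] [DecidableEq ι] (e : ι → ℤ) (M : κ → Seg)
    (hmul : ∀ (m n : ℤ) (a b : Matrix ι ι ℂ), Deg e m a → Deg e n b → Deg e (m + n) (a * b))
    (x : Co e → ℂ) (hx : x ∈ orbN e M) (x1 : Co e → ℂ) (g h : Matrix ι ι ℂ) (hg : Deg e 0 g) (hh : Deg e 0 h)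
    (hgh : g * h = 1) (hhg : h * g = 1) (h1 : mat e x1 = g * mat e x * h) : x1 ∈ orbN e M := by
  obtain ⟨sg, hsg, g1, h1', hg1, hh1, hgh1, hhg1, hm⟩ := hx
  have d1 : Deg e 0 (g * g1) := hmul 0 0 g g1 hg hg1
  have d2 : Deg e 0 (h1' * h) := hmul 0 0 h1' h hh1 hh
  refine ⟨sg, hsg, g * g1, h1' * h, d1, d2, ?_, ?_, ?_⟩
  · rw [Matrix.mul_assoc, ← Matrix.mul_assoc g1, hgh1, Matrix.one_mul, hgh]
  · rw [Matrix.mul_assoc, ← Matrix.mul_assoc h, hhg, Matrix.one_mul, hhg1]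
  · rw [h1, hm]
    simp only [Matrix.mul_assoc]

theorem p_US (hMPT : Stmt_MPT) (hSTD : Stmt_STD) (hBXU : Stmt_BXU) (_hRES : Stmt_RES) (hUSA : Stmt_USA)
    (hC5 : Stmt_C5) : Stmt_US := by
  intro ι' C κ _ _ _ _ _ e' i M U hU hcard f hf x hx
  obtain ⟨x', hx', T, hT, hxT⟩ := hx
  obtain ⟨sg', hsg', g, h, hg, hh, hgh, hhg, hm⟩ := hx'
  obtain ⟨sg, hb, hC, hne, hr⟩ := hBXU ι' C κ e' i M U hU.start hcard sg' hsg'
  subst hr
  have hbl := US_blocks e' i M U hU sg hb hC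
  refine hC5 ι' C e' i (orbN (addDeg e' C i) M) (smat e' fun a => sg (Sum.inl a)) (alB e' i sg) ?_ ?_ ?_ ?_ ?_
    f hf x' g h hg hh hgh hhg hm T x hT hxT
  · exact (hMPT ι' e').2.2.2.2.1 κ _
  · intro b c hbc
    by_contra hne'
    apply hbc
    unfold alB
    exact if_neg fun hh => hne' hh.2
  · intro y hy y1 g1 h1 hg1 hh1 hgh1 hhg1 hy1
    exact US_orb (addDeg e' C i) M (hMPT (ι' ⊕ C) (addDeg e' C i)).2.2.2.2.2.1 y hy y1 g1 h1 hg1 hh1 hgh1
      hhg1 hy1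
  · rw [← hbl]
    exact (hSTD (ι' ⊕ C) κ (addDeg e' C i) M sg hb).1
  · intro β hβ
    exact hUSA ι' C κ e' i M U hU hcard sg hb hC hne hsg' β hβ

end Pool.DM
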