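import Pool.Agent.Work.MP_c20ce7_lab.Interface

set_option autoImplicit false

/-! Block USA. -/

open MvPolynomial Matrix Topology

noncomputable section

namespace Pool.DM

theorem p_USA : Stmt_USA := by
  classical
  intro ι' C κ _ _ _ _ _ e' i M U hT _hcard sg hM hU hnU hR β hβ
  set s : ι' → κ := fun a => sg (Sum.inl a) with hs
  set t : C → κ := fun c => sg (Sum.inr c) with ht
  have tinj : ∀ k k', t k = t k' → k = k' := by
    intro k k' h
    exact Sum.inr_injective (hM.inj (Sum.inr k) (Sum.inr k') h rfl)
  have sinj : ∀ b b', s b = s b' → e' b = e' b' → b = b' := fun b b' h h' => hR.inj b b' h h'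
  -- type C
  have tyC : ∀ b, e' b = i + 1 → (¬ ∃ b0, e' b0 = i ∧ s b0 = s b) → s b ∉ U →
      (M (s b)).1 = i + 1 ∧ ∀ c ∈ U, (M (s b)).2 ≤ (M c).2 := by
    intro b hb hA hB
    have h1 := hM.mem (Sum.inl b)
    have h1' : (M (s b)).1 ≤ i + 1 ∧ i + 1 ≤ (M (s b)).2 := by
      have h2 : addDeg e' C i (Sum.inl b) = i + 1 := hb
      rw [h2] at h1
      exact h1
    have h3 : (M (s b)).1 = i + 1 := by
      by_contra hne
      have hle : (M (s b)).1 ≤ i := by
        have := h1'.1
        omega
      obtain ⟨a, ha1, ha2⟩ := hM.ex (s b) i hle (by omega)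
      rcases a with b0 | k
      · exact hA ⟨b0, ha2, ha1⟩
      · apply hB
        rw [← ha1]
        exact hU k
    exact ⟨h3, fun c hc => hT.flag c hc (s b) h3 h1'.2⟩
  -- the coefficients
  let Cnd : κ → κ → ι' × C → Prop := fun σ c p =>
    s p.1 = σ ∧ e' p.1 = i + 1 ∧ (¬ ∃ b0, e' b0 = i ∧ s b0 = s p.1) ∧ s p.1 ∉ U ∧ t p.2 = c
  let τ : κ → κ → ℂ := fun σ c =>
    if h : ∃ p : ι' × C, Cnd σ c p then β h.choose.1 h.choose.2 else 0
  have hτne : ∀ σ c, τ σ c ≠ 0 → ∃ p : ι' × C, Cnd σ c p := by
    intro σ c hne
    by_contra hno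
    apply hne
    simp only [τ]
    rw [dif_neg hno]
  have hτ1 : ∀ b k, e' b = i + 1 → (¬ ∃ b0, e' b0 = i ∧ s b0 = s b) → s b ∉ U →
      τ (s b) (t k) = β b k := by
    intro b k hb hA hB
    have hex : ∃ p : ι' × C, Cnd (s b) (t k) p := ⟨(b, k), rfl, hb, hA, hB, rfl⟩
    have hsp := hex.choose_spec
    have e1 : hex.choose.1 = b := sinj _ _ hsp.1 (hsp.2.1.trans hb.symm)
    have e2 : hex.choose.2 = k := tinj _ _ hsp.2.2.2.2
    simp only [τ]
    rw [dif_pos hex, e1, e2]
  have hτ0 : ∀ b k, e' b = i + 1 → ((∃ b0, e' b0 = i ∧ s b0 = s b) ∨ s b ∈ U) →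
      τ (s b) (t k) = 0 := by
    intro b k hb hAB
    by_contra hne
    obtain ⟨p, h1, h2, h3, h4, h5⟩ := hτne _ _ hne
    have e1 : p.1 = b := sinj _ _ h1 (h2.trans hb.symm)
    rw [e1] at h3 h4
    rcases hAB with h | h
    · exact h3 h
    · exact h4 h
  let a : Matrix ι' ι' ℂ := fun p q => if e' p = e' q then τ (s p) (s q) else 0
  let u : Matrix ι' C ℂ := fun q k =>
    if h : e' q = i ∧ ∃ b', s b' = s q ∧ e' b' = i + 1 then - β h.2.choose k else 0
  let γ : Matrix C C ℂ := fun k' k =>
    if h : ∃ b', s b' = t k' ∧ e' b' = i + 1 then - β h.choose k else 0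
  have hx' : ∀ p q, smat e' s p q = if s p = s q ∧ e' p = e' q + 1 then 1 else 0 := by
    intro p q
    unfold smat
    by_cases hh : s p = s q ∧ e' p = e' q + 1
    · rw [if_pos hh]
      exact (if_pos hh).symm
    · rw [if_neg hh]
      exact (if_neg hh).symm
  have halB : ∀ b c, alB e' i sg b c = if s b = t c ∧ e' b = i + 1 then 1 else 0 := by
    intro b c
    unfold alB
    by_cases hh : s b = t c ∧ e' b = i + 1
    · rw [if_pos hh]
      exact (if_pos hh).symm
    · rw [if_neg hh]
      exact (if_neg hh).symm
  refine ⟨a, u, γ, ?_, ?_, ?_, ?_⟩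
  · intro p q hpq
    by_contra hne
    apply hpq
    simp only [a]
    rw [if_neg (fun h => hne (by rw [h, add_zero]))]
  · intro b c hbc
    by_contra hne
    apply hbc
    simp only [u]
    rw [dif_neg (fun h => hne h.1)]
  · ext p q
    rw [Matrix.mul_apply, Matrix.mul_apply]
    by_cases hc : e' p = e' q + 1 ∧ τ (s p) (s q) ≠ 0
    · obtain ⟨hpq, hne⟩ := hc
      obtain ⟨pp, h1, h2, h3, h4, h5⟩ := hτne _ _ hne
      obtain ⟨g1, g2⟩ := tyC pp.1 h2 h3 h4
      rw [h1] at g1 g2 h4
      have hqU : s q ∈ U := by
        rw [← h5]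
        exact hU pp.2
      have g3 := g2 _ hqU
      -- the boxes
      have bp := hR.mem p
      have bq := hR.mem q
      have rp : redN i U M (s p) = M (s p) := by
        simp only [redN]
        rw [if_neg h4]
      have rq : redN i U M (s q) = (i + 1, (M (s q)).2) := by
        simp only [redN]
        rw [if_pos hqU]
      have bp' : (M (s p)).1 ≤ e' p ∧ e' p ≤ (M (s p)).2 := by
        have : redN i U M (sg (Sum.inl p)) = M (s p) := rp
        rw [this] at bp
        exact bp
      have bq' : i + 1 ≤ e' q ∧ e' q ≤ (M (s q)).2 := by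
        have : redN i U M (sg (Sum.inl q)) = (i + 1, (M (s q)).2) := rq
        rw [this] at bq
        exact bq
      obtain ⟨r1, hr1, hr1'⟩ := hR.ex (s q) (e' q + 1) (by rw [rq]; show i + 1 ≤ e' q + 1; omega)
        (by rw [rq]; show e' q + 1 ≤ (M (s q)).2; omega)
      obtain ⟨r2, hr2, hr2'⟩ := hR.ex (s p) (e' p - 1) (by rw [rp]; omega) (by rw [rp]; omega)
      have hr1s : s r1 = s q := hr1
      have hr2s : s r2 = s p := hr2
      rw [Finset.sum_eq_single r1, Finset.sum_eq_single r2]
      · rw [hx', hx', if_pos ⟨hr1s, hr1'⟩, if_pos ⟨hr2s.symm, by omega⟩, mul_one, one_mul]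
        simp only [a]
        rw [if_pos (by omega), if_pos (by omega), hr1s, hr2s]
      · intro r _ hr
        rw [hx', if_neg, zero_mul]
        rintro ⟨k1, k2⟩
        exact hr (sinj _ _ (k1.symm.trans hr2s.symm) (by omega))
      · intro h
        exact absurd (Finset.mem_univ _) h
      · intro r _ hr
        rw [hx', if_neg, mul_zero]
        rintro ⟨k1, k2⟩
        exact hr (sinj _ _ (k1.trans hr1s.symm) (by omega))
      · intro h
        exact absurd (Finset.mem_univ _) h
    · rw [Finset.sum_eq_zero, Finset.sum_eq_zero]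
      · intro r _
        rw [hx']
        split_ifs with h
        · simp only [a]
          split_ifs with h'
          · rw [one_mul]
            by_contra hne
            exact hc ⟨by omega, by rw [h.1]; exact hne⟩
          · rw [mul_zero]
        · rw [zero_mul]
      · intro r _
        rw [hx']
        split_ifs with h
        · simp only [a]
          split_ifs with h'
          · rw [mul_one]
            by_contra hne
            exact hc ⟨by omega, by rw [← h.1]; exact hne⟩
          · rw [zero_mul]
        · rw [mul_zero]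
  · ext b k
    rw [Matrix.sub_apply, Matrix.sub_apply, Matrix.mul_apply, Matrix.mul_apply, Matrix.mul_apply]
    by_cases hb : e' b = i + 1
    · -- the three terms
      have T3 : ∀ k', s b = t k' → ∑ k'', alB e' i sg b k'' * γ k'' k = - β b k := by
        intro k' hk'
        rw [Finset.sum_eq_single k']
        · rw [halB, if_pos ⟨hk', hb⟩, one_mul]
          have hex : ∃ b', s b' = t k' ∧ e' b' = i + 1 := ⟨b, hk', hb⟩
          have e1 : hex.choose = b :=
            sinj _ _ (hex.choose_spec.1.trans hk'.symm) (hex.choose_spec.2.trans hb.symm)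
          simp only [γ]
          rw [dif_pos hex, e1]
        · intro k'' _ hne
          rw [halB, if_neg, zero_mul]
          rintro ⟨h1, -⟩
          exact hne (tinj _ _ (h1.symm.trans hk'))
        · intro h
          exact absurd (Finset.mem_univ _) h
      have T3' : s b ∉ U → ∑ k'', alB e' i sg b k'' * γ k'' k = 0 := by
        intro hB
        refine Finset.sum_eq_zero fun k'' _ => ?_
        rw [halB, if_neg, zero_mul]
        rintro ⟨h1, -⟩
        exact hB (by rw [h1]; exact hU k'')
      have T2 : (∃ b0, e' b0 = i ∧ s b0 = s b) → ∑ q, smat e' s b q * u q k = - β b k := by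
        rintro ⟨b0, h1, h2⟩
        rw [Finset.sum_eq_single b0]
        · rw [hx', if_pos ⟨h2.symm, by omega⟩, one_mul]
          have hex : e' b0 = i ∧ ∃ b', s b' = s b0 ∧ e' b' = i + 1 := ⟨h1, b, h2.symm, hb⟩
          have e1 : hex.2.choose = b :=
            sinj _ _ (hex.2.choose_spec.1.trans h2) (hex.2.choose_spec.2.trans hb.symm)
          simp only [u]
          rw [dif_pos hex, e1]
        · intro q _ hne
          rw [hx', if_neg, zero_mul]
          rintro ⟨k1, k2⟩
          exact hne (sinj _ _ (k1.symm.trans h2.symm) (by omega))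
        · intro h
          exact absurd (Finset.mem_univ _) h
      have T2' : (¬ ∃ b0, e' b0 = i ∧ s b0 = s b) → ∑ q, smat e' s b q * u q k = 0 := by
        intro hA
        refine Finset.sum_eq_zero fun q _ => ?_
        rw [hx', if_neg, zero_mul]
        rintro ⟨k1, k2⟩
        exact hA ⟨q, by omega, k1.symm⟩
      have T1' : ((∃ b0, e' b0 = i ∧ s b0 = s b) ∨ s b ∈ U) →
          ∑ q, a b q * alB e' i sg q k = 0 := by
        intro hAB
        refine Finset.sum_eq_zero fun q _ => ?_
        rw [halB]
        split_ifs with h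
        · rw [mul_one]
          simp only [a]
          split_ifs with h'
          · rw [h.1]
            exact hτ0 b k hb hAB
          · rfl
        · rw [mul_zero]
      by_cases hA : ∃ b0, e' b0 = i ∧ s b0 = s b
      · have hB : s b ∉ U := by
          obtain ⟨b0, h1, h2⟩ := hA
          rw [← h2]
          exact hnU b0 h1
        rw [T1' (Or.inl hA), T2 hA, T3' hB]
        ring
      · by_cases hB : s b ∈ U
        · obtain ⟨y, hy1, hy2⟩ := hM.ex (s b) i (le_of_eq (hT.start _ hB).1) (hT.start _ hB).2
          rcases y with b0 | k'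
          · exact absurd ⟨b0, hy2, hy1⟩ hA
          · rw [T1' (Or.inr hB), T2' hA, T3 k' hy1.symm]
            ring
        · rw [T2' hA, T3' hB]
          obtain ⟨g1, g2⟩ := tyC b hb hA hB
          have g3 := g2 _ (hU k)
          have h1 := hM.mem (Sum.inl b)
          have h2 : addDeg e' C i (Sum.inl b) = i + 1 := hb
          rw [h2] at h1
          have h1' : i + 1 ≤ (M (s b)).2 := h1.2
          have hst := hT.start _ (hU k)
          obtain ⟨y, hy1, hy2⟩ := hM.ex (t k) (i + 1) (by
            have : (M (t k)).1 = i := hst.1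
            omega) (by
            have : (M (s b)).2 ≤ (M (t k)).2 := g3
            omega)
          rcases y with r | k'
          · have hr1 : s r = t k := hy1
            have hr2 : e' r = i + 1 := hy2
            rw [Finset.sum_eq_single r]
            · rw [halB, if_pos ⟨hr1, hr2⟩, mul_one]
              simp only [a]
              rw [if_pos (by omega), hr1, hτ1 b k hb hA hB]
              ring
            · intro q _ hne
              rw [halB, if_neg, mul_zero]
              rintro ⟨k1, k2⟩
              exact hne (sinj _ _ (k1.trans hr1.symm) (by omega))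
            · intro h
              exact absurd (Finset.mem_univ _) h
          · exfalso
            have : i = i + 1 := hy2
            omega
    · have hβ0 : β b k = 0 := by
        by_contra hne
        exact hb (hβ b k hne)
      rw [hβ0, Finset.sum_eq_zero, Finset.sum_eq_zero, Finset.sum_eq_zero]
      · ring
      · intro k' _
        rw [halB, if_neg (fun h => hb h.2), zero_mul]
      · intro q _
        rw [hx']
        split_ifs with h
        · rw [one_mul]
          simp only [u]
          rw [dif_neg]
          rintro ⟨h1, -⟩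
          exact hb (by omega)
        · rw [zero_mul]
      · intro q _
        rw [halB]
        split_ifs with h
        · simp only [a]
          rw [if_neg (fun h' => hb (h'.trans h.2)), zero_mul]
        · rw [mul_zero]

end Pool.DM
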