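import Pool.Agent.Work.MP_c20ce7_lab.B_MPT
import Pool.Agent.Work.MP_c20ce7_lab.B_CON
import Pool.Agent.Work.MP_c20ce7_lab.B_STD
import Pool.Agent.Work.MP_c20ce7_lab.B_BXC
import Pool.Agent.Work.MP_c20ce7_lab.B_BXU
import Pool.Agent.Work.MP_c20ce7_lab.B_RES
import Pool.Agent.Work.MP_c20ce7_lab.B_COE
import Pool.Agent.Work.MP_c20ce7_lab.B_GRA
import Pool.Agent.Work.MP_c20ce7_lab.B_AUT
import Pool.Agent.Work.MP_c20ce7_lab.B_BLK
import Pool.Agent.Work.MP_c20ce7_lab.B_HAT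
import Pool.Agent.Work.MP_c20ce7_lab.B_OPN
import Pool.Agent.Work.MP_c20ce7_lab.B_CTT
import Pool.Agent.Work.MP_c20ce7_lab.B_PJ
import Pool.Agent.Work.MP_c20ce7_lab.B_CQJ
import Pool.Agent.Work.MP_c20ce7_lab.B_LNE
import Pool.Agent.Work.MP_c20ce7_lab.B_ULG
import Pool.Agent.Work.MP_c20ce7_lab.B_UL
import Pool.Agent.Work.MP_c20ce7_lab.B_USA
import Pool.Agent.Work.MP_c20ce7_lab.B_US
import Pool.Agent.Work.MP_c20ce7_lab.B_QJE
import Pool.Agent.Work.MP_c20ce7_lab.B_GS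
import Pool.Agent.Work.MP_c20ce7_lab.B_ORM
import Pool.Agent.Work.MP_c20ce7_lab.B_GM
import Pool.Agent.Work.MP_c20ce7_lab.B_GT
import Pool.Agent.Work.MP_c20ce7_lab.B_GH
import Pool.Agent.Work.MP_c20ce7_lab.B_ORI
import Pool.Agent.Work.MP_c20ce7_lab.B_TRB
import Pool.Agent.Work.MP_c20ce7_lab.B_ORB
import Pool.Agent.Work.MP_c20ce7_lab.B_ABF
import Pool.Agent.Work.MP_c20ce7_lab.B_SUP
import Pool.Agent.Work.MP_c20ce7_lab.B_CHH
import Pool.Agent.Work.MP_c20ce7_lab.B_CHL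
import Pool.Agent.Work.MP_c20ce7_dm82.TR2

set_option autoImplicit false

/-!
# Labels: assembly

From the up-step theorem, the `H`-stability of the characteristic variety, the fact that nilpotent functions vanish on
it, the openness lemma `C5` and the Kashiwara-Saito pair: the modules of the example and the `ABV` statements.
-/

open MvPolynomial Matrix Topology Pool.Agent.MPc20ce7

noncomputable section

namespace Pool.DM

/-- The three conormal bundles of the example. -/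
theorem lab_chains (hUP : Stmt_UPSTEP) (hHST : Stmt_HST) (hC5 : Stmt_C5) (hB : Stmt_BASE) :
    Stmt_CHH ∧ Stmt_CHL := by
  have ulg : Stmt_ULG := p_ULG p_MPT p_BXC p_STD p_RES (p_GRA p_COE) p_AUT (p_BLK p_AUT) p_HAT p_OPN p_CTT p_PJ p_CQJ
    hHST
  have ul : Stmt_UL := p_UL p_MPT p_STD p_BXC p_LNE ulg hHST
  have us : Stmt_US := p_US p_MPT p_STD p_BXU p_RES p_USA hC5
  have qje : Stmt_QJE := p_QJE p_MPT p_STD p_BXU p_RES p_HAT
  have gs : Stmt_GS := p_GS hUP ul us qje p_BXU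
  have gm : Stmt_GM := p_GM p_ORM
  have gh : Stmt_GH := p_GH stmt_REX
  have gt : Stmt_GT := p_GT stmt_TRA
  exact ⟨p_CHH gs gm gh hB, p_CHL gs gm gh gt hB⟩

/-- The `ABV` statements of the example. -/
theorem lab_abv (hUP : Stmt_UPSTEP) (hHST : Stmt_HST) (hSCH : Stmt_SCH) (hC5 : Stmt_C5) (hB : Stmt_BASE) :
    ABV (par (Finset.univ.val.map exH)) (par (Finset.univ.val.map exM)) ∧
    ABV (par (Finset.univ.val.map exL)) (par (Finset.univ.val.map exM)) ∧
    ABV (par (Finset.univ.val.map exLX)) (par (Finset.univ.val.map exMX)) := by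
  have orb : Stmt_ORB := p_ORB p_STD p_ORM p_ORI p_TRB
  have abf : Stmt_ABF := p_ABF p_CON orb (p_SUP hSCH) p_MPT stmt_REX
  obtain ⟨h1, h2, h3⟩ := lab_chains hUP hHST hC5 hB
  exact ⟨abf _ _ exM exH (by decide) (by decide) h1, abf _ _ exM exL (by decide) (by decide) h2,
    abf _ _ exMX exLX (by decide) (by decide) h3⟩

end Pool.DM
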