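import Pool.Agent.Work.MP_c20ce7_lab.Interface
import Pool.Agent.Work.MP_c20ce7_dm8.A3

set_option autoImplicit false
set_option linter.unusedSectionVars false

/-!
# Block C5: polynomials which vanish on the orbit of `[x', α0; 0, 0]`
-/

open MvPolynomial Matrix Topology Filter

noncomputable section

namespace Pool.DM

/-- A polynomial which vanishes on a line near a point vanishes on the line. -/
theorem C5_line {σ : Type} (f : MvPolynomial σ ℂ) (v w : σ → ℂ)
    (h : ∀ᶠ t in 𝓝 (0 : ℂ), eval (v + t • w) f = 0) : eval (v + w) f = 0 := by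
  let q : Polynomial ℂ := aeval (fun c => Polynomial.C (v c) + Polynomial.X * Polynomial.C (w c)) f
  have hq : ∀ t, q.eval t = eval (v + t • w) f := by
    intro t
    have h : (Polynomial.evalRingHom t).comp
        (aeval (fun c => Polynomial.C (v c) + Polynomial.X * Polynomial.C (w c)) :
          MvPolynomial σ ℂ →ₐ[ℂ] Polynomial ℂ).toRingHom = eval (v + t • w) := by
      apply MvPolynomial.ringHom_ext
      · intro r
        simp
      · intro i
        simp
        ring
    exact congrArg (fun g => g f) h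
  have h0 : q = 0 := by
    apply Polynomial.eq_zero_of_infinite_isRoot
    refine infinite_of_mem_nhds (0 : ℂ) ?_
    filter_upwards [h] with t ht
    show q.eval t = 0
    rw [hq, ht]
  have h1 := hq 1
  rw [h0, Polynomial.eval_zero, one_smul] at h1
  exact h1.symm

/-- A quadratic perturbation of a translation is open at `0`. -/
theorem C5_open {K D : Type} [Fintype K] [Fintype D] (c0 : K → ℂ)
    (l1 l2 : K → D → (K → ℂ) →ₗ[ℂ] ℂ) (P : (K → ℂ) → Prop)
    (h : ∀ᶠ s in 𝓝 (0 : K → ℂ), P (fun p => c0 p + s p - ∑ d, l1 p d s * l2 p d s)) :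
    ∀ᶠ w in 𝓝 c0, P w := by
  have hG : HasStrictFDerivAt (fun (s : K → ℂ) (p : K) => c0 p + s p - ∑ d, l1 p d s * l2 p d s)
      ((ContinuousLinearEquiv.refl ℂ (K → ℂ) : (K → ℂ) ≃L[ℂ] (K → ℂ)) : (K → ℂ) →L[ℂ] (K → ℂ)) 0 := by
    rw [hasStrictFDerivAt_pi']
    intro p
    have hd : ∀ d ∈ Finset.univ, HasStrictFDerivAt (fun s : K → ℂ => l1 p d s * l2 p d s)
        (0 : (K → ℂ) →L[ℂ] ℂ) 0 := by
      intro d _
      have h1 : HasStrictFDerivAt (fun s : K → ℂ => l1 p d s) (LinearMap.toContinuousLinearMap (l1 p d)) 0 :=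
        (LinearMap.toContinuousLinearMap (l1 p d)).hasStrictFDerivAt
      have h2 : HasStrictFDerivAt (fun s : K → ℂ => l2 p d s) (LinearMap.toContinuousLinearMap (l2 p d)) 0 :=
        (LinearMap.toContinuousLinearMap (l2 p d)).hasStrictFDerivAt
      refine (h1.mul h2).congr_fderiv ?_
      rw [map_zero, map_zero]
      ext s
      simp
    have h3 := ((hasStrictFDerivAt_const (𝕜 := ℂ) (c0 p) (0 : K → ℂ)).add
      (hasStrictFDerivAt_apply (𝕜 := ℂ) p (0 : K → ℂ))).sub (HasStrictFDerivAt.fun_sum hd)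
    refine h3.congr_fderiv ?_
    rw [Finset.sum_const_zero, sub_zero, zero_add]
    rfl
  have h1 := hG.map_nhds_eq_of_equiv
  have h2 : (fun p => c0 p + (0 : K → ℂ) p - ∑ d, l1 p d 0 * l2 p d 0) = c0 := by
    funext p
    simp
  rw [h2] at h1
  rw [← h1, Filter.eventually_map]
  exact h

section

variable {ι' C : Type} [Fintype ι'] [DecidableEq ι'] [Fintype C] [DecidableEq C]

theorem C5_mat {ι : Type} [Fintype ι] [DecidableEq ι] {e : ι → ℤ} {m : Matrix ι ι ℂ}
    (hm : ∀ a b, m a b ≠ 0 → e a = e b + 1) : mat e (ptOf e m) = m := by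
  ext a b
  by_cases h : e a = e b + 1
  · simp [mat, ptOf, h]
  · have h0 : m a b = 0 := by
      by_contra hne
      exact h (hm a b hne)
    simp [mat, h, h0]

theorem C5_deg {e' : ι' → ℤ} {i : ℤ} {x' : Matrix ι' ι' ℂ} (hx : Deg e' 1 x') {β : Matrix ι' C ℂ}
    (hβ : ∀ b c, β b c ≠ 0 → e' b = i + 1) (a b : ι' ⊕ C)
    (h : (Matrix.fromBlocks x' β 0 0 : Matrix (ι' ⊕ C) (ι' ⊕ C) ℂ) a b ≠ 0) :
    addDeg e' C i a = addDeg e' C i b + 1 := by
  rcases a with a | a <;> rcases b with b | b
  · exact hx a b h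
  · exact hβ a b h
  · exact absurd rfl h
  · exact absurd rfl h

/-- The coordinates of the upper right block. -/
abbrev C5K (e' : ι' → ℤ) (C : Type) (i : ℤ) : Type := {p : ι' × C // e' p.1 = i + 1}

/-- The upper right block with the coordinates `w`. -/
def C5m (e' : ι' → ℤ) (i : ℤ) (w : C5K e' C i → ℂ) : Matrix ι' C ℂ :=
  fun b c => if h : e' b = i + 1 then w ⟨(b, c), h⟩ else 0

theorem C5m_eq {e' : ι' → ℤ} {i : ℤ} {β : Matrix ι' C ℂ} (hβ : ∀ b c, β b c ≠ 0 → e' b = i + 1) :
    C5m e' i (fun p : C5K e' C i => β p.1.1 p.1.2) = β := by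
  ext b c
  by_cases h : e' b = i + 1
  · simp [C5m, h]
  · have h0 : β b c = 0 := by
      by_contra hne
      exact h (hβ b c hne)
    simp [C5m, h, h0]

theorem C5_fib (e' : ι' → ℤ) (i : ℤ)
    (O : Set (Co (addDeg e' C i) → ℂ)) (x' : Matrix ι' ι' ℂ) (α0 : Matrix ι' C ℂ) (hx' : Deg e' 1 x')
    (hα : ∀ b c, α0 b c ≠ 0 → e' b = i + 1)
    (hO : ∀ x ∈ O, ∀ x1 (g h : Matrix (ι' ⊕ C) (ι' ⊕ C) ℂ), Deg (addDeg e' C i) 0 g →
      Deg (addDeg e' C i) 0 h → g * h = 1 → h * g = 1 → mat _ x1 = g * mat _ x * h → x1 ∈ O)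
    (hp : ptOf _ (Matrix.fromBlocks x' α0 0 0) ∈ O)
    (hs : ∀ β : Matrix ι' C ℂ, (∀ b c, β b c ≠ 0 → e' b = i + 1) →
      ∃ (a : Matrix ι' ι' ℂ) (u : Matrix ι' C ℂ) (γ : Matrix C C ℂ), Deg e' 0 a ∧ (∀ b c, u b c ≠ 0 → e' b = i) ∧
        a * x' = x' * a ∧ β = a * α0 - x' * u - α0 * γ)
    (f : MvPolynomial (Co (addDeg e' C i)) ℂ) (hf : ∀ x ∈ O, eval x f = 0)
    (β : Matrix ι' C ℂ) (hβ : ∀ b c, β b c ≠ 0 → e' b = i + 1) :
    eval (ptOf _ (Matrix.fromBlocks x' β 0 0)) f = 0 := by
  classical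
  have hs1 : ∀ p : C5K e' C i, ∃ (a : Matrix ι' ι' ℂ) (u : Matrix ι' C ℂ) (γ : Matrix C C ℂ), Deg e' 0 a ∧
      (∀ b c, u b c ≠ 0 → e' b = i) ∧ a * x' = x' * a ∧
      C5m e' i (Pi.single p 1) = a * α0 - x' * u - α0 * γ := by
    intro p
    apply hs
    intro b c h
    by_contra hn
    exact h (by simp [C5m, hn])
  choose a u γ ha hu hax hsum using hs1
  let A : (C5K e' C i → ℂ) →ₗ[ℂ] Matrix ι' ι' ℂ := Fintype.linearCombination ℂ a
  let U : (C5K e' C i → ℂ) →ₗ[ℂ] Matrix ι' C ℂ := Fintype.linearCombination ℂ u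
  let Γ : (C5K e' C i → ℂ) →ₗ[ℂ] Matrix C C ℂ := Fintype.linearCombination ℂ γ
  let T : (C5K e' C i → ℂ) →ₗ[ℂ] Matrix ι' C ℂ := Fintype.linearCombination ℂ (fun p => a p * α0 - x' * u p)
  have hT : ∀ s, T s = A s * α0 - x' * U s := by
    intro s
    simp only [T, A, U, Fintype.linearCombination_apply, Matrix.smul_mul, Matrix.mul_smul, smul_sub, Finset.sum_sub_distrib, Matrix.mul_sum, Matrix.sum_mul]
  have hTm : ∀ s, T s - α0 * Γ s = C5m e' i s := by
    intro s
    have h1 : C5m e' i s = ∑ p, s p • C5m e' i (Pi.single p 1) := by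
      ext b c
      rw [Matrix.sum_apply]
      by_cases h : e' b = i + 1
      · rw [Finset.sum_eq_single (⟨(b, c), h⟩ : C5K e' C i)]
        · simp [C5m, h]
        · intro p _ hp
          have : (Pi.single p (1 : ℂ) : C5K e' C i → ℂ) ⟨(b, c), h⟩ = 0 := Pi.single_eq_of_ne (Ne.symm hp) _
          simp [C5m, h, this]
        · simp
      · simp [C5m, h]
    rw [h1]
    simp only [T, Γ, Fintype.linearCombination_apply, hsum, Matrix.mul_sum, Matrix.mul_smul, smul_sub,
      Finset.sum_sub_distrib]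
  have hAx : ∀ s, A s * x' = x' * A s := by
    intro s
    simp only [A, Fintype.linearCombination_apply, Matrix.mul_sum, Matrix.sum_mul, Matrix.smul_mul,
      Matrix.mul_smul, hax]
  have hAd : ∀ s, ∀ b c, A s b c ≠ 0 → e' b = e' c := by
    intro s b c h
    by_contra hn
    apply h
    simp only [A, Fintype.linearCombination_apply, Matrix.sum_apply, Matrix.smul_apply]
    refine Finset.sum_eq_zero fun p _ => ?_
    have : a p b c = 0 := by
      by_contra h'
      exact hn (by simpa using ha p b c h')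
    rw [this, smul_zero]
  have hUd : ∀ s, ∀ b c, U s b c ≠ 0 → e' b = i := by
    intro s b c h
    by_contra hn
    apply h
    simp only [U, Fintype.linearCombination_apply, Matrix.sum_apply, Matrix.smul_apply]
    refine Finset.sum_eq_zero fun p _ => ?_
    have : u p b c = 0 := by
      by_contra h'
      exact hn (hu p b c h')
    rw [this, smul_zero]
  -- the points of the orbit
  have hpt : ∀ s, (1 + A s).det ≠ 0 → (1 - Γ s).det ≠ 0 →
      ptOf _ (Matrix.fromBlocks x' (α0 + C5m e' i s - T s * Γ s) 0 0) ∈ O := by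
    intro s h1 h2
    have e1 : (1 + A s) * (1 + A s)⁻¹ = 1 := Matrix.mul_nonsing_inv _ (isUnit_iff_ne_zero.2 h1)
    have e2 : (1 - Γ s)⁻¹ * (1 - Γ s) = 1 := Matrix.nonsing_inv_mul _ (isUnit_iff_ne_zero.2 h2)
    have e3 : x' * (1 + A s) = (1 + A s) * x' := by
      rw [mul_add, add_mul, one_mul, mul_one, hAx]
    set A1 := 1 + A s with hA1
    set B1 := 1 - Γ s with hB1
    have hgh : (Matrix.fromBlocks A1 (U s) 0 B1⁻¹ : Matrix (ι' ⊕ C) (ι' ⊕ C) ℂ) *
        Matrix.fromBlocks A1⁻¹ (-(A1⁻¹ * U s * B1)) 0 B1 = 1 := by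
      rw [Matrix.fromBlocks_multiply, e1, e2]
      simp only [Matrix.mul_zero, Matrix.zero_mul, add_zero, zero_add, Matrix.mul_neg, neg_zero]
      rw [← Matrix.mul_assoc, ← Matrix.mul_assoc, e1, Matrix.one_mul, neg_add_cancel, Matrix.fromBlocks_one]
    have hg : Gr (addDeg e' C i) (Matrix.fromBlocks A1 (U s) 0 B1⁻¹ : Matrix (ι' ⊕ C) (ι' ⊕ C) ℂ) := by
      intro p q h
      rcases p with p | p <;> rcases q with q | q
      · show e' p = e' q
        by_contra hn
        apply h
        show (1 + A s) p q = 0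
        rw [Matrix.add_apply, Matrix.one_apply_ne (fun h => hn (by rw [h])), zero_add]
        by_contra h'
        exact hn (hAd s p q h')
      · exact hUd s p q h
      · exact absurd rfl h
      · rfl
    have hh := hg.inv hgh
    refine hO _ hp _ _ _ (fun p q h => by rw [add_zero]; exact hg p q h)
      (fun p q h => by rw [add_zero]; exact hh p q h) hgh (mul_eq_one_comm.1 hgh) ?_
    have hdeg : ∀ b c, (α0 + C5m e' i s - T s * Γ s) b c ≠ 0 → e' b = i + 1 := by
      intro b c h
      by_contra hn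
      apply h
      have z0 : α0 b c = 0 := by
        by_contra h'
        exact hn (hα b c h')
      have z1 : C5m e' i s b c = 0 := by simp [C5m, hn]
      have z2 : ∀ d, T s b d = 0 := by
        intro d
        rw [hT, Matrix.sub_apply, Matrix.mul_apply, Matrix.mul_apply, Finset.sum_eq_zero, Finset.sum_eq_zero,
          sub_zero]
        · intro q _
          by_contra h'
          have w1 := hx' b q (left_ne_zero_of_mul h')
          have w2 := hUd s q d (right_ne_zero_of_mul h')
          exact hn (by rw [w1, w2])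
        · intro q _
          by_contra h'
          have w1 := hAd s b q (left_ne_zero_of_mul h')
          have w2 := hα q d (right_ne_zero_of_mul h')
          exact hn (by rw [w1, w2])
      rw [Matrix.sub_apply, Matrix.add_apply, z0, z1, Matrix.mul_apply, Finset.sum_eq_zero fun d _ => ?_]
      · simp
      · rw [z2, zero_mul]
    rw [C5_mat (C5_deg hx' hdeg), C5_mat (C5_deg hx' hα), Matrix.fromBlocks_multiply,
      Matrix.fromBlocks_multiply]
    simp only [Matrix.mul_zero, Matrix.zero_mul, add_zero, Matrix.mul_neg, neg_zero]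
    have f1 : A1 * x' * A1⁻¹ = x' := by
      rw [← e3, Matrix.mul_assoc, e1, Matrix.mul_one]
    have f2 : α0 + C5m e' i s - T s * Γ s = -(A1 * x' * (A1⁻¹ * U s * B1)) + A1 * α0 * B1 := by
      have f3 : A1 * x' * (A1⁻¹ * U s * B1) = x' * U s * B1 := by
        rw [← Matrix.mul_assoc, ← Matrix.mul_assoc, f1]
      have f4 : A1 * α0 = α0 + (T s + x' * U s) := by
        rw [hA1, Matrix.add_mul, Matrix.one_mul, hT, sub_add_cancel]
      rw [f3, f4, ← hTm, hB1]
      simp only [Matrix.mul_sub, Matrix.add_mul, Matrix.mul_one]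
      abel
    rw [f1, ← f2]
  -- openness
  let P : (C5K e' C i → ℂ) → Prop := fun w => eval (ptOf _ (Matrix.fromBlocks x' (C5m e' i w) 0 0)) f = 0
  have hP : ∀ᶠ w in 𝓝 (fun p : C5K e' C i => α0 p.1.1 p.1.2), P w := by
    refine C5_open _ (fun p d => (Matrix.entryLinearMap ℂ ℂ p.1.1 d).comp T)
      (fun p (d : C) => (Matrix.entryLinearMap ℂ ℂ d p.1.2).comp Γ) P ?_
    have c1 : ∀ᶠ s in 𝓝 (0 : C5K e' C i → ℂ), (1 + A s).det ≠ 0 := by
      have hc : Continuous fun s : C5K e' C i → ℂ => (1 + A s).det :=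
        (continuous_const.add A.continuous_of_finiteDimensional).matrix_det
      refine hc.continuousAt.eventually_ne ?_
      simp
    have c2 : ∀ᶠ s in 𝓝 (0 : C5K e' C i → ℂ), (1 - Γ s).det ≠ 0 := by
      have hc : Continuous fun s : C5K e' C i → ℂ => (1 - Γ s).det :=
        (continuous_const.sub Γ.continuous_of_finiteDimensional).matrix_det
      refine hc.continuousAt.eventually_ne ?_
      simp
    filter_upwards [c1, c2] with s h1 h2
    have h3 := hf _ (hpt s h1 h2)
    have h4 : C5m e' i (fun p => α0 p.1.1 p.1.2 + s p -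
        ∑ d, (Matrix.entryLinearMap ℂ ℂ p.1.1 d).comp T s * (Matrix.entryLinearMap ℂ ℂ d p.1.2).comp Γ s) =
        α0 + C5m e' i s - T s * Γ s := by
      ext b c
      by_cases h : e' b = i + 1
      · simp [C5m, h, Matrix.mul_apply]
      · have z0 : α0 b c = 0 := by
          by_contra h'
          exact h (hα b c h')
        have z2 : ∀ d, T s b d = 0 := by
          intro d
          rw [hT, Matrix.sub_apply, Matrix.mul_apply, Matrix.mul_apply, Finset.sum_eq_zero, Finset.sum_eq_zero,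
            sub_zero]
          · intro q _
            by_contra h'
            have w1 := hx' b q (left_ne_zero_of_mul h')
            have w2 := hUd s q d (right_ne_zero_of_mul h')
            exact h (by rw [w1, w2])
          · intro q _
            by_contra h'
            have w1 := hAd s b q (left_ne_zero_of_mul h')
            have w2 := hα q d (right_ne_zero_of_mul h')
            exact h (by rw [w1, w2])
        simp [C5m, h, z0, Matrix.mul_apply, z2]
    show eval (ptOf _ (Matrix.fromBlocks x' (C5m e' i _) 0 0)) f = 0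
    rw [h4]
    exact h3
  -- the line
  have hline : ∀ t : ℂ, (ptOf (addDeg e' C i) (Matrix.fromBlocks x' α0 0 0) +
      t • ptOf (addDeg e' C i) (Matrix.fromBlocks 0 (β - α0) 0 0)) =
      ptOf _ (Matrix.fromBlocks x' (C5m e' i ((fun p : C5K e' C i => α0 p.1.1 p.1.2) +
        t • (fun p : C5K e' C i => β p.1.1 p.1.2 - α0 p.1.1 p.1.2))) 0 0) := by
    intro t
    funext ⟨⟨p, q⟩, hc⟩
    rcases p with p | p <;> rcases q with q | q
    · simp [ptOf]
    · have hc' : e' p = i + 1 := hc
      simp [ptOf, C5m, hc']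
    · simp [ptOf]
    · simp [ptOf]
  have hfin := C5_line f (ptOf (addDeg e' C i) (Matrix.fromBlocks x' α0 0 0))
    (ptOf (addDeg e' C i) (Matrix.fromBlocks 0 (β - α0) 0 0)) ?_
  · have h1 := hline 1
    rw [one_smul] at h1
    rw [h1, one_smul] at hfin
    have h2 : ((fun p : C5K e' C i => α0 p.1.1 p.1.2) + fun p : C5K e' C i => β p.1.1 p.1.2 - α0 p.1.1 p.1.2) =
        fun p : C5K e' C i => β p.1.1 p.1.2 := by
      funext p
      simp
    rw [h2, C5m_eq hβ] at hfin
    exact hfin
  · have hc : Tendsto (fun t : ℂ => (fun p : C5K e' C i => α0 p.1.1 p.1.2) +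
        t • (fun p : C5K e' C i => β p.1.1 p.1.2 - α0 p.1.1 p.1.2)) (𝓝 0)
        (𝓝 (fun p : C5K e' C i => α0 p.1.1 p.1.2)) := by
      have hcc : Continuous (fun t : ℂ => (fun p : C5K e' C i => α0 p.1.1 p.1.2) +
        t • (fun p : C5K e' C i => β p.1.1 p.1.2 - α0 p.1.1 p.1.2)) := by fun_prop
      refine hcc.tendsto' 0 _ ?_
      rw [zero_smul, add_zero]
    filter_upwards [hc.eventually hP] with t ht
    rw [hline]
    exact ht

end

theorem p_C5 : Stmt_C5 := by
  intro ι' C _ _ _ _ e' i O x' α0 hx' hα hO hp hs f hf x'' g h hg hh hgh hhg hx'' T x hT hx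
  have g0 : Gr e' g := fun a b hab => by simpa using hg a b hab
  have h0 : Gr e' h := fun a b hab => by simpa using hh a b hab
  -- the blocks of `x`
  set X := mat (addDeg e' C i) x with hX
  have hXd : ∀ a b, X a b ≠ 0 → addDeg e' C i a = addDeg e' C i b + 1 := fun a b hab => deg_mat x hab
  set β : Matrix ι' C ℂ := X.toBlocks₁₂ with hβdef
  have hβ : ∀ b c, β b c ≠ 0 → e' b = i + 1 := fun b c hbc => hXd (Sum.inl b) (Sum.inr c) hbc
  have b22 : X.toBlocks₂₂ = 0 := by
    ext c d
    by_contra hn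
    have := hXd (Sum.inr c) (Sum.inr d) hn
    have h' : i = i + 1 := this
    omega
  have hemb : emb T = (Matrix.fromRows (1 : Matrix ι' ι' ℂ) T) := by
    ext a b
    rcases a with a | a
    · simp [emb, Matrix.one_apply]
    · simp [emb]
  have hTβ : T * β = 0 := by
    ext c d
    rw [Matrix.mul_apply, Matrix.zero_apply]
    refine Finset.sum_eq_zero fun q _ => ?_
    by_contra h'
    have w1 := hT c q (left_ne_zero_of_mul h')
    have w2 := hβ q d (right_ne_zero_of_mul h')
    omega
  have hXb : X = Matrix.fromBlocks X.toBlocks₁₁ β X.toBlocks₂₁ 0 := by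
    rw [← b22]
    exact (Matrix.fromBlocks_toBlocks X).symm
  have hrow : X.toBlocks₁₁ + β * T = mat e' x'' ∧ X.toBlocks₂₁ = T * mat e' x'' := by
    rw [hemb, hXb, Matrix.fromBlocks_mul_fromRows, Matrix.fromRows_mul] at hx
    have h1 := Matrix.fromRows_inj hx
    simpa using h1
  -- the conjugation
  set K : Matrix (ι' ⊕ C) (ι' ⊕ C) ℂ := Matrix.fromBlocks g 0 (T * g) 1 with hK
  set K' : Matrix (ι' ⊕ C) (ι' ⊕ C) ℂ := Matrix.fromBlocks h 0 (-T) 1 with hK'
  have hKK : K * K' = 1 := by
    rw [hK, hK', Matrix.fromBlocks_multiply]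
    simp only [Matrix.zero_mul, Matrix.mul_zero, Matrix.one_mul, Matrix.mul_one, add_zero, zero_add]
    rw [Matrix.mul_assoc, hgh, Matrix.mul_one, add_neg_cancel, Matrix.fromBlocks_one]
  have hKg : Gr (addDeg e' C i) K := by
    intro p q hpq
    rcases p with p | p <;> rcases q with q | q
    · exact g0 p q hpq
    · exact absurd rfl hpq
    · show i = e' q
      have h1 : (T * g) p q ≠ 0 := hpq
      rw [Matrix.mul_apply] at h1
      obtain ⟨k, -, hk⟩ := Finset.exists_ne_zero_of_sum_ne_zero h1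
      rw [← hT p k (left_ne_zero_of_mul hk)]
      exact g0 k q (right_ne_zero_of_mul hk)
    · rfl
  have hKg' := hKg.inv hKK
  have hβ1 : ∀ b c, (h * β) b c ≠ 0 → e' b = i + 1 := by
    intro b c hbc
    rw [Matrix.mul_apply] at hbc
    obtain ⟨k, -, hk⟩ := Finset.exists_ne_zero_of_sum_ne_zero hbc
    rw [h0 b k (left_ne_zero_of_mul hk)]
    exact hβ k c (right_ne_zero_of_mul hk)
  have key := C5_fib e' i O x' α0 hx' hα hO hp hs (lin (actA (addDeg e' C i) K K') f) ?_ (h * β) hβ1
  · rw [eval_lin] at key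
    have e1 : (actA (addDeg e' C i) K K').mulVec (ptOf _ (Matrix.fromBlocks x' (h * β) 0 0)) = x := by
      apply mat_inj
      rw [mat_act hKg hKg', C5_mat (C5_deg hx' hβ1), ← hX, hXb, hK, hK', Matrix.fromBlocks_multiply,
        Matrix.fromBlocks_multiply]
      have e2 : g * (h * β) = β := by rw [← Matrix.mul_assoc, hgh, Matrix.one_mul]
      have e3 : T * g * (h * β) = 0 := by rw [Matrix.mul_assoc, e2, hTβ]
      simp only [Matrix.zero_mul, Matrix.mul_zero, Matrix.one_mul, Matrix.mul_one, add_zero, zero_add, e2, e3]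
      have e4 : g * x' * h + β * -T = X.toBlocks₁₁ := by
        rw [← hx'', ← hrow.1, Matrix.mul_neg, add_neg_cancel_right]
      have e5 : T * g * x' * h = X.toBlocks₂₁ := by
        rw [hrow.2, hx'', Matrix.mul_assoc T, Matrix.mul_assoc T]
      rw [e4, e5]
    rw [e1] at key
    exact key
  · intro z hz
    rw [eval_lin]
    exact hf _ (hO z hz _ K K' (fun p q hpq => by rw [add_zero]; exact hKg p q hpq)
      (fun p q hpq => by rw [add_zero]; exact hKg' p q hpq) hKK (mul_eq_one_comm.1 hKK) (mat_act hKg hKg' z))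

end Pool.DM
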