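import Pool.Agent.Work.MP_c20ce7_lab.Interface

set_option autoImplicit false

open MvPolynomial Matrix Topology

noncomputable section

namespace Pool.DM

def CHL_M0 : Fin 9 → Seg := ![(1, 4), (1, 6), (2, 5), (2, 7), (3, 6), (4, 4), (4, 7), (5, 8), (7, 8)]
def CHL_N0 : Fin 12 → Seg := ![(1, 3), (1, 4), (2, 6), (2, 6), (3, 5), (4, 4), (4, 4), (4, 7), (5, 5), (5, 7), (6, 8), (7, 8)]
def CHL_M1 : Fin 9 → Seg := ![(1, 4), (1, 6), (2, 5), (2, 7), (3, 6), (4, 4), (4, 7), (6, 8), (7, 8)]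
def CHL_N1 : Fin 12 → Seg := ![(1, 3), (1, 4), (2, 6), (2, 6), (3, 5), (4, 4), (4, 4), (4, 7), (6, 5), (5, 7), (6, 8), (7, 8)]
def CHL_M2 : Fin 9 → Seg := ![(1, 4), (1, 6), (2, 5), (2, 7), (3, 6), (5, 4), (5, 7), (6, 8), (7, 8)]
def CHL_N2 : Fin 12 → Seg := ![(1, 3), (1, 4), (2, 6), (2, 6), (3, 5), (4, 4), (5, 4), (5, 7), (6, 5), (5, 7), (6, 8), (7, 8)]
def CHL_M3 : Fin 9 → Seg := ![(1, 4), (1, 6), (2, 5), (2, 7), (4, 6), (5, 4), (5, 7), (6, 8), (7, 8)]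
def CHL_N3 : Fin 12 → Seg := ![(1, 3), (1, 4), (2, 6), (2, 6), (4, 5), (4, 4), (5, 4), (5, 7), (6, 5), (5, 7), (6, 8), (7, 8)]
def CHL_M4 : Fin 9 → Seg := ![(1, 4), (1, 6), (3, 5), (3, 7), (4, 6), (5, 4), (5, 7), (6, 8), (7, 8)]
def CHL_N4 : Fin 12 → Seg := ![(1, 3), (1, 4), (3, 6), (3, 6), (4, 5), (4, 4), (5, 4), (5, 7), (6, 5), (5, 7), (6, 8), (7, 8)]
def CHL_M5 : Fin 9 → Seg := ![(2, 4), (2, 6), (3, 5), (3, 7), (4, 6), (5, 4), (5, 7), (6, 8), (7, 8)]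
def CHL_N5 : Fin 12 → Seg := ![(2, 3), (2, 4), (3, 6), (3, 6), (4, 5), (4, 4), (5, 4), (5, 7), (6, 5), (5, 7), (6, 8), (7, 8)]
def CHL_M6 : Fin 9 → Seg := ![(2, 4), (2, 6), (3, 5), (3, 7), (4, 6), (5, 4), (5, 7), (7, 8), (7, 8)]
def CHL_N6 : Fin 12 → Seg := ![(2, 3), (2, 4), (3, 6), (3, 6), (4, 5), (4, 4), (5, 4), (5, 7), (6, 5), (5, 7), (7, 8), (7, 8)]
def CHL_M7 : Fin 9 → Seg := ![(2, 4), (2, 6), (3, 5), (3, 7), (4, 6), (5, 4), (5, 7), (8, 8), (8, 8)]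
def CHL_N7 : Fin 12 → Seg := ![(2, 3), (2, 4), (3, 6), (3, 6), (4, 5), (4, 4), (5, 4), (5, 7), (6, 5), (5, 7), (8, 8), (8, 8)]
def CHL_M8 : Fin 9 → Seg := ![(2, 4), (2, 6), (3, 5), (3, 7), (4, 6), (5, 4), (5, 7), (9, 8), (9, 8)]
def CHL_N8 : Fin 12 → Seg := ![(2, 3), (2, 4), (3, 6), (3, 6), (4, 5), (4, 4), (5, 4), (5, 7), (6, 5), (5, 7), (9, 8), (9, 8)]

theorem CHL_step0 (hGS : Stmt_GS) (h : HasGood CHL_M1 CHL_N1) : HasGood CHL_M0 CHL_N0 := by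
  have e1 : redN (5) ({7} : Finset (Fin 9)) CHL_M0 = CHL_M1 := by decide
  have e2 : redN (5) ({8} : Finset (Fin 12)) CHL_N0 = CHL_N1 := by decide
  rw [← e1, ← e2] at h
  refine hGS (Fin 9) (Fin 12) (5) CHL_M0 CHL_N0 ({7} : Finset (Fin 9)) ({3} : Finset (Fin 9)) ![0, 1, 2, 1, 4, 5, 6, 7, 8] ({8} : Finset (Fin 12)) ({10} : Finset (Fin 12)) ![0, 1, 2, 3, 4, 5, 6, 7, 8, 9, 9, 11] ?_ ?_ ?_ (by decide) (by decide) h
  · exact ⟨by decide, by decide, by decide, by decide, by decide, by decide⟩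
  · exact ⟨by decide, by decide, by decide⟩
  · exact ⟨by decide, by decide, by decide, by decide, by decide, by decide⟩

theorem CHL_step1 (hGS : Stmt_GS) (h : HasGood CHL_M2 CHL_N2) : HasGood CHL_M1 CHL_N1 := by
  have e1 : redN (4) ({6, 5} : Finset (Fin 9)) CHL_M1 = CHL_M2 := by decide
  have e2 : redN (4) ({7, 6} : Finset (Fin 12)) CHL_N1 = CHL_N2 := by decide
  rw [← e1, ← e2] at h
  refine hGS (Fin 9) (Fin 12) (4) CHL_M1 CHL_N1 ({6, 5} : Finset (Fin 9)) ({2} : Finset (Fin 9)) ![0, 1, 0, 3, 4, 5, 6, 7, 8] ({7, 6} : Finset (Fin 12)) ({9} : Finset (Fin 12)) ![0, 1, 2, 3, 4, 5, 6, 7, 8, 5, 10, 11] ?_ ?_ ?_ (by decide) (by decide) h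
  · exact ⟨by decide, by decide, by decide, by decide, by decide, by decide⟩
  · exact ⟨by decide, by decide, by decide⟩
  · exact ⟨by decide, by decide, by decide, by decide, by decide, by decide⟩

theorem CHL_step2 (hGS : Stmt_GS) (h : HasGood CHL_M3 CHL_N3) : HasGood CHL_M2 CHL_N2 := by
  have e1 : redN (3) ({4} : Finset (Fin 9)) CHL_M2 = CHL_M3 := by decide
  have e2 : redN (3) ({4} : Finset (Fin 12)) CHL_N2 = CHL_N3 := by decide
  rw [← e1, ← e2] at h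
  refine hGS (Fin 9) (Fin 12) (3) CHL_M2 CHL_N2 ({4} : Finset (Fin 9)) (∅ : Finset (Fin 9)) ![0, 1, 2, 3, 4, 5, 6, 7, 8] ({4} : Finset (Fin 12)) (∅ : Finset (Fin 12)) ![0, 1, 2, 3, 4, 5, 6, 7, 8, 9, 10, 11] ?_ ?_ ?_ (by decide) (by decide) h
  · exact ⟨by decide, by decide, by decide, by decide, by decide, by decide⟩
  · exact ⟨by decide, by decide, by decide⟩
  · exact ⟨by decide, by decide, by decide, by decide, by decide, by decide⟩

theorem CHL_step3 (hGS : Stmt_GS) (h : HasGood CHL_M4 CHL_N4) : HasGood CHL_M3 CHL_N3 := by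
  have e1 : redN (2) ({3, 2} : Finset (Fin 9)) CHL_M3 = CHL_M4 := by decide
  have e2 : redN (2) ({2, 3} : Finset (Fin 12)) CHL_N3 = CHL_N4 := by decide
  rw [← e1, ← e2] at h
  refine hGS (Fin 9) (Fin 12) (2) CHL_M3 CHL_N3 ({3, 2} : Finset (Fin 9)) (∅ : Finset (Fin 9)) ![0, 1, 2, 3, 4, 5, 6, 7, 8] ({2, 3} : Finset (Fin 12)) (∅ : Finset (Fin 12)) ![0, 1, 2, 3, 4, 5, 6, 7, 8, 9, 10, 11] ?_ ?_ ?_ (by decide) (by decide) h
  · exact ⟨by decide, by decide, by decide, by decide, by decide, by decide⟩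
  · exact ⟨by decide, by decide, by decide⟩
  · exact ⟨by decide, by decide, by decide, by decide, by decide, by decide⟩

theorem CHL_step4 (hGS : Stmt_GS) (h : HasGood CHL_M5 CHL_N5) : HasGood CHL_M4 CHL_N4 := by
  have e1 : redN (1) ({1, 0} : Finset (Fin 9)) CHL_M4 = CHL_M5 := by decide
  have e2 : redN (1) ({1, 0} : Finset (Fin 12)) CHL_N4 = CHL_N5 := by decide
  rw [← e1, ← e2] at h
  refine hGS (Fin 9) (Fin 12) (1) CHL_M4 CHL_N4 ({1, 0} : Finset (Fin 9)) (∅ : Finset (Fin 9)) ![0, 1, 2, 3, 4, 5, 6, 7, 8] ({1, 0} : Finset (Fin 12)) (∅ : Finset (Fin 12)) ![0, 1, 2, 3, 4, 5, 6, 7, 8, 9, 10, 11] ?_ ?_ ?_ (by decide) (by decide) h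
  · exact ⟨by decide, by decide, by decide, by decide, by decide, by decide⟩
  · exact ⟨by decide, by decide, by decide⟩
  · exact ⟨by decide, by decide, by decide, by decide, by decide, by decide⟩

theorem CHL_step5 (hGS : Stmt_GS) (h : HasGood CHL_M6 CHL_N6) : HasGood CHL_M5 CHL_N5 := by
  have e1 : redN (6) ({7} : Finset (Fin 9)) CHL_M5 = CHL_M6 := by decide
  have e2 : redN (6) ({10} : Finset (Fin 12)) CHL_N5 = CHL_N6 := by decide
  rw [← e1, ← e2] at h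
  refine hGS (Fin 9) (Fin 12) (6) CHL_M5 CHL_N5 ({7} : Finset (Fin 9)) (∅ : Finset (Fin 9)) ![0, 1, 2, 3, 4, 5, 6, 7, 8] ({10} : Finset (Fin 12)) (∅ : Finset (Fin 12)) ![0, 1, 2, 3, 4, 5, 6, 7, 8, 9, 10, 11] ?_ ?_ ?_ (by decide) (by decide) h
  · exact ⟨by decide, by decide, by decide, by decide, by decide, by decide⟩
  · exact ⟨by decide, by decide, by decide⟩
  · exact ⟨by decide, by decide, by decide, by decide, by decide, by decide⟩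

theorem CHL_step6 (hGS : Stmt_GS) (h : HasGood CHL_M7 CHL_N7) : HasGood CHL_M6 CHL_N6 := by
  have e1 : redN (7) ({7, 8} : Finset (Fin 9)) CHL_M6 = CHL_M7 := by decide
  have e2 : redN (7) ({10, 11} : Finset (Fin 12)) CHL_N6 = CHL_N7 := by decide
  rw [← e1, ← e2] at h
  refine hGS (Fin 9) (Fin 12) (7) CHL_M6 CHL_N6 ({7, 8} : Finset (Fin 9)) (∅ : Finset (Fin 9)) ![0, 1, 2, 3, 4, 5, 6, 7, 8] ({10, 11} : Finset (Fin 12)) (∅ : Finset (Fin 12)) ![0, 1, 2, 3, 4, 5, 6, 7, 8, 9, 10, 11] ?_ ?_ ?_ (by decide) (by decide) h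
  · exact ⟨by decide, by decide, by decide, by decide, by decide, by decide⟩
  · exact ⟨by decide, by decide, by decide⟩
  · exact ⟨by decide, by decide, by decide, by decide, by decide, by decide⟩

theorem CHL_step7 (hGS : Stmt_GS) (h : HasGood CHL_M8 CHL_N8) : HasGood CHL_M7 CHL_N7 := by
  have e1 : redN (8) ({7, 8} : Finset (Fin 9)) CHL_M7 = CHL_M8 := by decide
  have e2 : redN (8) ({10, 11} : Finset (Fin 12)) CHL_N7 = CHL_N8 := by decide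
  rw [← e1, ← e2] at h
  refine hGS (Fin 9) (Fin 12) (8) CHL_M7 CHL_N7 ({7, 8} : Finset (Fin 9)) (∅ : Finset (Fin 9)) ![0, 1, 2, 3, 4, 5, 6, 7, 8] ({10, 11} : Finset (Fin 12)) (∅ : Finset (Fin 12)) ![0, 1, 2, 3, 4, 5, 6, 7, 8, 9, 10, 11] ?_ ?_ ?_ (by decide) (by decide) h
  · exact ⟨by decide, by decide, by decide, by decide, by decide, by decide⟩
  · exact ⟨by decide, by decide, by decide⟩
  · exact ⟨by decide, by decide, by decide, by decide, by decide, by decide⟩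

def CHLs_M0 : Fin 9 → Seg := ![(-4, -2), (-6, -2), (-5, -3), (-7, -3), (-6, -4), (-4, -5), (-7, -5), (-8, -9), (-8, -9)]
def CHLs_N0 : Fin 12 → Seg := ![(-3, -2), (-4, -2), (-6, -3), (-6, -3), (-5, -4), (-4, -4), (-4, -5), (-7, -5), (-5, -6), (-7, -5), (-8, -9), (-8, -9)]
def CHLs_M1 : Fin 9 → Seg := ![(-3, -2), (-6, -2), (-5, -3), (-7, -3), (-6, -4), (-4, -5), (-7, -5), (-8, -9), (-8, -9)]
def CHLs_N1 : Fin 12 → Seg := ![(-3, -2), (-3, -2), (-6, -3), (-6, -3), (-5, -4), (-4, -4), (-4, -5), (-7, -5), (-5, -6), (-7, -5), (-8, -9), (-8, -9)]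
def CHLs_M2 : Fin 9 → Seg := ![(-3, -2), (-6, -2), (-4, -3), (-7, -3), (-6, -4), (-4, -5), (-7, -5), (-8, -9), (-8, -9)]
def CHLs_N2 : Fin 12 → Seg := ![(-3, -2), (-3, -2), (-6, -3), (-6, -3), (-4, -4), (-4, -4), (-4, -5), (-7, -5), (-5, -6), (-7, -5), (-8, -9), (-8, -9)]
def CHLs_M3 : Fin 9 → Seg := ![(-3, -2), (-5, -2), (-4, -3), (-7, -3), (-5, -4), (-4, -5), (-7, -5), (-8, -9), (-8, -9)]
def CHLs_N3 : Fin 12 → Seg := ![(-3, -2), (-3, -2), (-5, -3), (-5, -3), (-4, -4), (-4, -4), (-4, -5), (-7, -5), (-5, -6), (-7, -5), (-8, -9), (-8, -9)]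
def CHLs_M4 : Fin 9 → Seg := ![(-3, -2), (-5, -2), (-4, -3), (-6, -3), (-5, -4), (-4, -5), (-6, -5), (-8, -9), (-8, -9)]
def CHLs_N4 : Fin 12 → Seg := ![(-3, -2), (-3, -2), (-5, -3), (-5, -3), (-4, -4), (-4, -4), (-4, -5), (-6, -5), (-5, -6), (-6, -5), (-8, -9), (-8, -9)]

theorem CHLs_step0 (hGS : Stmt_GS) (h : HasGood CHLs_M1 CHLs_N1) : HasGood CHLs_M0 CHLs_N0 := by
  have e1 : redN (-4) ({0} : Finset (Fin 9)) CHLs_M0 = CHLs_M1 := by decide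
  have e2 : redN (-4) ({1} : Finset (Fin 12)) CHLs_N0 = CHLs_N1 := by decide
  rw [← e1, ← e2] at h
  refine hGS (Fin 9) (Fin 12) (-4) CHLs_M0 CHLs_N0 ({0} : Finset (Fin 9)) ({0} : Finset (Fin 9)) ![2, 1, 2, 3, 4, 5, 6, 7, 8] ({1} : Finset (Fin 12)) ({0} : Finset (Fin 12)) ![5, 1, 2, 3, 4, 5, 6, 7, 8, 9, 10, 11] ?_ ?_ ?_ (by decide) (by decide) h
  · exact ⟨by decide, by decide, by decide, by decide, by decide, by decide⟩
  · exact ⟨by decide, by decide, by decide⟩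
  · exact ⟨by decide, by decide, by decide, by decide, by decide, by decide⟩

theorem CHLs_step1 (hGS : Stmt_GS) (h : HasGood CHLs_M2 CHLs_N2) : HasGood CHLs_M1 CHLs_N1 := by
  have e1 : redN (-5) ({2} : Finset (Fin 9)) CHLs_M1 = CHLs_M2 := by decide
  have e2 : redN (-5) ({4} : Finset (Fin 12)) CHLs_N1 = CHLs_N2 := by decide
  rw [← e1, ← e2] at h
  refine hGS (Fin 9) (Fin 12) (-5) CHLs_M1 CHLs_N1 ({2} : Finset (Fin 9)) (∅ : Finset (Fin 9)) ![0, 1, 2, 3, 4, 5, 6, 7, 8] ({4} : Finset (Fin 12)) (∅ : Finset (Fin 12)) ![0, 1, 2, 3, 4, 5, 6, 7, 8, 9, 10, 11] ?_ ?_ ?_ (by decide) (by decide) h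
  · exact ⟨by decide, by decide, by decide, by decide, by decide, by decide⟩
  · exact ⟨by decide, by decide, by decide⟩
  · exact ⟨by decide, by decide, by decide, by decide, by decide, by decide⟩

theorem CHLs_step2 (hGS : Stmt_GS) (h : HasGood CHLs_M3 CHLs_N3) : HasGood CHLs_M2 CHLs_N2 := by
  have e1 : redN (-6) ({1, 4} : Finset (Fin 9)) CHLs_M2 = CHLs_M3 := by decide
  have e2 : redN (-6) ({2, 3} : Finset (Fin 12)) CHLs_N2 = CHLs_N3 := by decide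
  rw [← e1, ← e2] at h
  refine hGS (Fin 9) (Fin 12) (-6) CHLs_M2 CHLs_N2 ({1, 4} : Finset (Fin 9)) (∅ : Finset (Fin 9)) ![0, 1, 2, 3, 4, 5, 6, 7, 8] ({2, 3} : Finset (Fin 12)) (∅ : Finset (Fin 12)) ![0, 1, 2, 3, 4, 5, 6, 7, 8, 9, 10, 11] ?_ ?_ ?_ (by decide) (by decide) h
  · exact ⟨by decide, by decide, by decide, by decide, by decide, by decide⟩
  · exact ⟨by decide, by decide, by decide⟩
  · exact ⟨by decide, by decide, by decide, by decide, by decide, by decide⟩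

theorem CHLs_step3 (hGS : Stmt_GS) (h : HasGood CHLs_M4 CHLs_N4) : HasGood CHLs_M3 CHLs_N3 := by
  have e1 : redN (-7) ({3, 6} : Finset (Fin 9)) CHLs_M3 = CHLs_M4 := by decide
  have e2 : redN (-7) ({7, 9} : Finset (Fin 12)) CHLs_N3 = CHLs_N4 := by decide
  rw [← e1, ← e2] at h
  refine hGS (Fin 9) (Fin 12) (-7) CHLs_M3 CHLs_N3 ({3, 6} : Finset (Fin 9)) (∅ : Finset (Fin 9)) ![0, 1, 2, 3, 4, 5, 6, 7, 8] ({7, 9} : Finset (Fin 12)) (∅ : Finset (Fin 12)) ![0, 1, 2, 3, 4, 5, 6, 7, 8, 9, 10, 11] ?_ ?_ ?_ (by decide) (by decide) h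
  · exact ⟨by decide, by decide, by decide, by decide, by decide, by decide⟩
  · exact ⟨by decide, by decide, by decide⟩
  · exact ⟨by decide, by decide, by decide, by decide, by decide, by decide⟩

def CHLx_M0 : Fin 10 → Seg := ![(1, 4), (1, 6), (2, 5), (2, 7), (3, 6), (4, 4), (4, 7), (5, 8), (7, 8), (5, 5)]
def CHLx_N0 : Fin 13 → Seg := ![(1, 3), (1, 4), (2, 6), (2, 6), (3, 5), (4, 4), (4, 4), (4, 7), (5, 5), (5, 7), (6, 8), (7, 8), (5, 5)]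
def CHLx_M1 : Fin 10 → Seg := ![(1, 4), (1, 6), (2, 5), (2, 7), (3, 6), (4, 4), (4, 7), (6, 8), (7, 8), (6, 5)]
def CHLx_N1 : Fin 13 → Seg := ![(1, 3), (1, 4), (2, 6), (2, 6), (3, 5), (4, 4), (4, 4), (4, 7), (6, 5), (5, 7), (6, 8), (7, 8), (6, 5)]

theorem CHLx_step0 (hGS : Stmt_GS) (h : HasGood CHLx_M1 CHLx_N1) : HasGood CHLx_M0 CHLx_N0 := by
  have e1 : redN (5) ({7, 9} : Finset (Fin 10)) CHLx_M0 = CHLx_M1 := by decide
  have e2 : redN (5) ({8, 12} : Finset (Fin 13)) CHLx_N0 = CHLx_N1 := by decide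
  rw [← e1, ← e2] at h
  refine hGS (Fin 10) (Fin 13) (5) CHLx_M0 CHLx_N0 ({7, 9} : Finset (Fin 10)) ({3} : Finset (Fin 10)) ![0, 1, 2, 1, 4, 5, 6, 7, 8, 9] ({8, 12} : Finset (Fin 13)) ({10} : Finset (Fin 13)) ![0, 1, 2, 3, 4, 5, 6, 7, 8, 9, 9, 11, 12] ?_ ?_ ?_ (by decide) (by decide) h
  · exact ⟨by decide, by decide, by decide, by decide, by decide, by decide⟩
  · exact ⟨by decide, by decide, by decide⟩
  · exact ⟨by decide, by decide, by decide, by decide, by decide, by decide⟩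

theorem p_CHL (hGS : Stmt_GS) (hGM : Stmt_GM) (hGH : Stmt_GH) (hGT : Stmt_GT) (hB : Stmt_BASE) : Stmt_CHL := by
  have h0 : HasGood CHLs_M4 CHLs_N4 :=
    hGM _ _ _ _ (shiftN (-7) ksM) CHLs_M4 (shiftN (-7) ksN) CHLs_N4 (by decide) (by decide) (hGH _ _ (-7) ksM ksN hB)
  have h0 := CHLs_step3 hGS h0
  have h0 := CHLs_step2 hGS h0
  have h0 := CHLs_step1 hGS h0
  have h0 := CHLs_step0 hGS h0
  have h0 : HasGood CHL_M8 CHL_N8 := by
    have e1 : starN CHLs_M0 = CHL_M8 := by decide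
    have e2 : starN CHLs_N0 = CHL_N8 := by decide
    have := hGT _ _ _ _ h0
    rwa [e1, e2] at this
  have h0 := CHL_step7 hGS h0
  have h0 := CHL_step6 hGS h0
  have h0 := CHL_step5 hGS h0
  have h0 := CHL_step4 hGS h0
  have h0 := CHL_step3 hGS h0
  have h0 := CHL_step2 hGS h0
  have h0 := CHL_step1 hGS h0
  refine ⟨CHL_step0 hGS h0, ?_⟩
  have h1 : HasGood CHLx_M1 CHLx_N1 := hGM _ _ _ _ CHL_M1 CHLx_M1 CHL_N1 CHLx_N1 (by decide) (by decide) h0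
  exact CHLx_step0 hGS h1

end Pool.DM
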