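import Pool.Agent.Work.MP_c20ce7_lab.Interface

set_option autoImplicit false

/-!
# Block GS of the labels under up-steps (helper84)
-/

open MvPolynomial Matrix Topology

noncomputable section

namespace Pool.DM

theorem p_GS (hUP : Stmt_UPSTEP) (hUL : Stmt_UL) (hUS : Stmt_US) (hQJE : Stmt_QJE)
    (hBXU : Stmt_BXU) : Stmt_GS := by
  intro κ κ2 _ _ i M N U1 S1 μ1 U S μ hM hTU hN hU hS hG
  obtain ⟨ι', iF, iD, e', L', iA, iMod, W', hW'⟩ := hG
  obtain ⟨sgM, hsgM⟩ := hW'.exM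
  obtain ⟨sgN, hsgN⟩ := hW'.exN
  obtain ⟨J, hJinj, hJdeg, hJcard, x, ξ, hx, hxξ, hQ⟩ := hQJE ι' κ2 e' i N U S μ hN sgN hsgN
  have hCN : Fintype.card (Fin U.card) = U.card := Fintype.card_fin _
  have hCM : Fintype.card (Fin U.card) = U1.card := by rw [hCN, hU]
  obtain ⟨L, iA2, iM2, W, hWs, hWg, hWe, hWch, hWn⟩ := hUP ι' (Fin U.card) e' i L' W' hW'.simple
    hW'.growth hW'.equi J hJdeg ⟨x, ξ, hW'.labN x hx ξ hxξ, hQ⟩
  obtain ⟨sg1, hsg1, -⟩ := hBXU ι' (Fin U.card) κ e' i M U1 hM.start hCM sgM hsgM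
  obtain ⟨sg2, hsg2, -⟩ := hBXU ι' (Fin U.card) κ2 e' i N U hN.start hCN sgN hsgN
  refine ⟨ι' ⊕ Fin U.card, inferInstance, inferInstance, addDeg e' (Fin U.card) i, L, iA2, iM2, W, ?_⟩
  exact
    { simple := hWs
      growth := hWg
      equi := hWe
      nilOn := by
        intro g hg
        exact hWn (orbN e' (redN i U1 M)) hW'.nilOn g
          (fun y hy => hUS ι' (Fin U.card) κ e' i M U1 hTU hCM g hg y hy)
      labM := hUL ι' (Fin U.card) κ e' i M U1 S1 μ1 hM hCM L' W' L W hW'.simple hW'.equi hWs hWe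
        J hJinj hJdeg (hJcard.trans hS.symm) hWch hW'.labM
      labN := hUL ι' (Fin U.card) κ2 e' i N U S μ hN hCN L' W' L W hW'.simple hW'.equi hWs hWe
        J hJinj hJdeg hJcard hWch hW'.labN
      exM := ⟨sg1, hsg1⟩
      exN := ⟨sg2, hsg2⟩ }

end Pool.DM
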