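import Pool.Agent.Work.MP_c20ce7_lab.Interface

set_option autoImplicit false
set_option linter.unusedSectionVars false

/-! Block HAT: the canonical map `yhat`. -/

open MvPolynomial Matrix Topology

noncomputable section

namespace Pool.DM

section

variable {ι κ : Type} [Fintype ι] [DecidableEq ι]

theorem HAT_s1 (e : ι → ℤ) (sg : ι → κ) (a b : ι) (h : sg a = sg b) (h' : e a = e b + 1) :
    smat e sg a b = 1 := by
  simp only [smat]
  rw [if_pos ⟨h, h'⟩]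

theorem HAT_s0 (e : ι → ℤ) (sg : ι → κ) (a b : ι) (h : ¬ (sg a = sg b ∧ e a = e b + 1)) :
    smat e sg a b = 0 := by
  simp only [smat]
  rw [if_neg h]

variable [DecidableEq κ]

theorem HAT_y1 (e : ι → ℤ) (sg : ι → κ) (S : Finset κ) (μ : κ → κ) (a b : ι) (h : sg b ∈ S)
    (h' : sg a = μ (sg b)) (h'' : e b = e a + 1) : yhat e sg S μ a b = 1 := by
  simp only [yhat]
  rw [if_pos ⟨h, h', h''⟩]

theorem HAT_y0 (e : ι → ℤ) (sg : ι → κ) (S : Finset κ) (μ : κ → κ) (a b : ι)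
    (h : ¬ (sg b ∈ S ∧ sg a = μ (sg b) ∧ e b = e a + 1)) : yhat e sg S μ a b = 0 := by
  simp only [yhat]
  rw [if_neg h]

theorem HAT_comm (e : ι → ℤ) (N : κ → Seg) (sg : ι → κ) (hB : Boxing e N sg) (i : ℤ)
    (U S : Finset κ) (μ : κ → κ) (hS : Step i N U S μ) :
    yhat e sg S μ * smat e sg = smat e sg * yhat e sg S μ := by
  ext a b
  rw [Matrix.mul_apply, Matrix.mul_apply]
  by_cases hP : sg b ∈ S ∧ sg a = μ (sg b) ∧ e a = e b
  · obtain ⟨hb, hab, he⟩ := hP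
    obtain ⟨l1, l2, l3, l4⟩ := hS.link _ hb
    have ma := hB.mem a
    have mb := hB.mem b
    rw [hab] at ma
    obtain ⟨c1, hc1, hc1'⟩ := hB.ex (sg b) (e b + 1) (by omega) (by omega)
    obtain ⟨c2, hc2, hc2'⟩ := hB.ex (sg a) (e a - 1) (by rw [hab]; omega) (by rw [hab]; omega)
    rw [Finset.sum_eq_single c1, Finset.sum_eq_single c2]
    · rw [HAT_y1 e sg S μ a c1 (by rw [hc1]; exact hb) (by rw [hc1]; exact hab) (by omega),
        HAT_s1 e sg c1 b hc1 hc1', HAT_s1 e sg a c2 hc2.symm (by omega),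
        HAT_y1 e sg S μ c2 b hb (by rw [hc2]; exact hab) (by omega)]
    · intro c _ hc
      rw [HAT_s0 e sg a c, zero_mul]
      rintro ⟨h1, h2⟩
      exact hc (hB.inj c c2 (by rw [hc2, h1]) (by omega))
    · intro h
      exact absurd (Finset.mem_univ _) h
    · intro c _ hc
      rw [HAT_s0 e sg c b, mul_zero]
      rintro ⟨h1, h2⟩
      exact hc (hB.inj c c1 (by rw [hc1, h1]) (by omega))
    · intro h
      exact absurd (Finset.mem_univ _) h
  · rw [Finset.sum_eq_zero, Finset.sum_eq_zero]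
    · intro c _
      by_cases h1 : sg a = sg c ∧ e a = e c + 1
      · rw [HAT_y0 e sg S μ c b, mul_zero]
        rintro ⟨h2, h3, h4⟩
        exact hP ⟨h2, by rw [h1.1, h3], by omega⟩
      · rw [HAT_s0 e sg a c h1, zero_mul]
    · intro c _
      by_cases h1 : sg c = sg b ∧ e c = e b + 1
      · rw [HAT_y0 e sg S μ a c, zero_mul]
        rintro ⟨h2, h3, h4⟩
        exact hP ⟨by rw [← h1.1]; exact h2, by rw [← h1.1]; exact h3, by omega⟩
      · rw [HAT_s0 e sg c b h1, mul_zero]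

theorem HAT_flag (e : ι → ℤ) (N : κ → Seg) (sg : ι → κ) (hB : Boxing e N sg) (i : ℤ)
    (U S : Finset κ) (μ : κ → κ) (hS : Step i N U S μ) : FlagInj e N sg i U (yhat e sg S μ) := by
  intro c hc z hz h
  funext b0
  by_contra hb0
  change z b0 ≠ 0 at hb0
  obtain ⟨z1, z2, z3⟩ := hz b0 hb0
  obtain ⟨f1, f2, f3⟩ := hS.flag c hc (sg b0) z2 z3
  obtain ⟨l1, l2, l3, l4⟩ := hS.link _ f1
  obtain ⟨a, ha, ha'⟩ := hB.ex (μ (sg b0)) i (by omega) l3
  have h1 := h a ha' (by rw [ha]; exact f2) (by rw [ha]; exact hS.notU _ f1) (by rw [ha]; exact f3)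
  rw [Matrix.mulVec, dotProduct, Finset.sum_eq_single b0] at h1
  · rw [HAT_y1 e sg S μ a b0 f1 ha (by omega), one_mul] at h1
    exact hb0 h1
  · intro b _ hb
    by_cases h2 : sg b ∈ S ∧ sg a = μ (sg b) ∧ e b = e a + 1
    · exfalso
      obtain ⟨h3, h4, h5⟩ := h2
      have h6 : sg b = sg b0 := hS.inj _ h3 _ f1 (by rw [← h4, ha])
      exact hb (hB.inj b b0 h6 (by omega))
    · rw [HAT_y0 e sg S μ a b h2, zero_mul]
  · intro h2
    exact absurd (Finset.mem_univ _) h2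

theorem HAT_tau (e : ι → ℤ) (N : κ → Seg) (sg : ι → κ) (hB : Boxing e N sg) (i : ℤ)
    (U S : Finset κ) (μ : κ → κ) (hS : Step i N U S μ) :
    ∃ τ : Row e sg i U → ι, TauP e sg i U S μ τ := by
  have hex : ∀ k : Row e sg i U, ∃ b : ι,
      (∃ s ∈ S, μ s = sg k.1 ∧ sg b = s ∧ e b = i + 1) ∨
      ((∀ s ∈ S, μ s ≠ sg k.1) ∧ sg b = sg k.1 ∧ e b = i - 1) := by
    intro k
    have mk := hB.mem k.1
    rw [k.2.1] at mk
    by_cases h : ∃ s ∈ S, μ s = sg k.1
    · obtain ⟨s, hs, hsk⟩ := h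
      obtain ⟨l1, l2, l3, l4⟩ := hS.link _ hs
      obtain ⟨b, hb, hb'⟩ := hB.ex s (i + 1) l2 (by omega)
      exact ⟨b, Or.inl ⟨s, hs, hsk, hb, hb'⟩⟩
    · have h' : ∀ s ∈ S, μ s ≠ sg k.1 := fun s hs hk => h ⟨s, hs, hk⟩
      have h1 : (N (sg k.1)).1 ≠ i := by
        intro h1
        obtain ⟨s, hs, hk⟩ := hS.cover (sg k.1) h1 mk.2 k.2.2
        exact h' s hs hk
      obtain ⟨b, hb, hb'⟩ := hB.ex (sg k.1) (i - 1) (by omega) (by omega)
      exact ⟨b, Or.inr ⟨h', hb, hb'⟩⟩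
  choose τ hτ using hex
  exact ⟨τ, hτ⟩

theorem HAT_A (e : ι → ℤ) (N : κ → Seg) (sg : ι → κ) (hB : Boxing e N sg) (i : ℤ)
    (U S : Finset κ) (μ : κ → κ) (_hS : Step i N U S μ) (τ : Row e sg i U → ι)
    (hτ : TauP e sg i U S μ τ) : Amat e sg i U τ (yhat e sg S μ) = 1 := by
  ext a k
  change smat e sg a.1 (τ k) + yhat e sg S μ a.1 (τ k) = (1 : Matrix _ _ ℂ) a k
  have ea := a.2.1
  have ek := k.2.1
  have hak : sg a.1 = sg k.1 → a = k := fun h => Subtype.ext (hB.inj _ _ h (by omega))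
  rcases hτ k with ⟨s, hs, h1, h2, h3⟩ | ⟨h1, h2, h3⟩
  · rw [HAT_s0 e sg a.1 (τ k) (by rintro ⟨-, h4⟩; omega), zero_add]
    by_cases h4 : a = k
    · subst h4
      rw [Matrix.one_apply_eq, HAT_y1 e sg S μ _ _ (by rw [h2]; exact hs) (by rw [h2, h1])
        (by omega)]
    · rw [Matrix.one_apply_ne h4, HAT_y0]
      rintro ⟨-, h5, -⟩
      rw [h2, h1] at h5
      exact h4 (hak h5)
  · rw [HAT_y0 e sg S μ a.1 (τ k) (by rintro ⟨-, -, h4⟩; omega), add_zero]
    by_cases h4 : a = k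
    · subst h4
      rw [Matrix.one_apply_eq, HAT_s1 e sg _ _ h2.symm (by omega)]
    · rw [Matrix.one_apply_ne h4, HAT_s0]
      rintro ⟨h5, -⟩
      rw [h2] at h5
      exact h4 (hak h5)

theorem HAT_card (e : ι → ℤ) (N : κ → Seg) (sg : ι → κ) (hB : Boxing e N sg) (i : ℤ)
    (U S : Finset κ) (μ : κ → κ) (hS : Step i N U S μ) (τ : Row e sg i U → ι)
    (hτ : TauP e sg i U S μ τ) :
    (Finset.univ.filter fun k => e (τ k) = i + 1).card = S.card := by
  have key : ∀ k : Row e sg i U, e (τ k) = i + 1 → sg (τ k) ∈ S ∧ μ (sg (τ k)) = sg k.1 := by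
    intro k hk
    rcases hτ k with ⟨s, hs, h1, h2, h3⟩ | ⟨h1, h2, h3⟩
    · rw [h2]
      exact ⟨hs, h1⟩
    · exfalso
      omega
  refine Finset.card_bij (fun k _ => sg (τ k)) ?_ ?_ ?_
  · intro k hk
    exact (key k (Finset.mem_filter.1 hk).2).1
  · intro k hk k' hk' h
    have h1 := key k (Finset.mem_filter.1 hk).2
    have h2 := key k' (Finset.mem_filter.1 hk').2
    have ek := k.2.1
    have ek' := k'.2.1
    apply Subtype.ext
    apply hB.inj _ _ _ (by omega)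
    rw [← h1.2, ← h2.2]
    exact congrArg μ h
  · intro s hs
    obtain ⟨l1, l2, l3, l4⟩ := hS.link _ hs
    obtain ⟨a, ha, ha'⟩ := hB.ex (μ s) i (by omega) l3
    have hk : e a = i ∧ sg a ∉ U := ⟨ha', by rw [ha]; exact hS.notU _ hs⟩
    rcases hτ ⟨a, hk⟩ with ⟨s', hs', h1, h2, h3⟩ | ⟨h1, h2, h3⟩
    · have h4 : s' = s := hS.inj _ hs' _ hs (by rw [h1, ← ha])
      exact ⟨⟨a, hk⟩, Finset.mem_filter.2 ⟨Finset.mem_univ _, h3⟩, by rw [h2, h4]⟩
    · exact absurd ha.symm (h1 s hs)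

end

theorem p_HAT : Stmt_HAT := by
  intro ι κ _ _ _ e N sg hB i U S μ hS
  refine ⟨?_, HAT_comm e N sg hB i U S μ hS, ?_, HAT_flag e N sg hB i U S μ hS,
    HAT_tau e N sg hB i U S μ hS, ?_⟩
  · intro a b h
    by_contra h1
    apply h
    apply HAT_y0
    rintro ⟨-, -, h2⟩
    omega
  · intro c q hc
    apply HAT_y0
    rintro ⟨h1, h2, -⟩
    apply hS.notU _ h1
    rw [← h2]
    exact hc
  · intro τ hτ
    have hA := HAT_A e N sg hB i U S μ hS τ hτ
    refine ⟨?_, hA, ?_, HAT_card e N sg hB i U S μ hS τ hτ⟩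
    · intro k
      rcases hτ k with ⟨s, hs, h1, h2, h3⟩ | ⟨h1, h2, h3⟩
      · exact Or.inr h3
      · exact Or.inl h3
    · intro k k' h
      by_contra hne
      have h1 : Amat e sg i U τ (yhat e sg S μ) k k = 1 := by rw [hA, Matrix.one_apply_eq]
      have h2 : Amat e sg i U τ (yhat e sg S μ) k k' = 0 := by rw [hA, Matrix.one_apply_ne hne]
      have h3 : Amat e sg i U τ (yhat e sg S μ) k k = Amat e sg i U τ (yhat e sg S μ) k k' := by
        simp only [Amat]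
        rw [h]
      rw [h1, h2] at h3
      exact one_ne_zero h3

end Pool.DM
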