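import Pool.Agent.Work.MP_c20ce7_lab.Interface

set_option autoImplicit false

open MvPolynomial Matrix Topology

noncomputable section

namespace Pool.DM

/-- MPT. -/
theorem p_MPT : Stmt_MPT := by
  intro ι _ _ e
  refine ⟨?_, ?_, ?_, ?_, ?_, ?_, ?_, ?_⟩
  · intro m hm
    ext a b
    by_cases h : e a = e b + 1
    · simp [mat, ptOf, h]
    · have h0 : m a b = 0 := by
        by_contra hne
        exact h (hm a b hne)
      simp [mat, ptOf, h, h0]
  · intro y hy
    ext b a
    by_cases h : e a = e b + 1
    · simp [ymat, covOf, h]
    · have h0 : y b a = 0 := by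
        by_contra hne
        exact h (by have := hy b a hne; omega)
      simp [ymat, covOf, h, h0]
  · intro x
    refine ⟨?_, ?_⟩
    · intro a b hab
      by_contra h
      exact hab (by simp [mat, h])
    · funext c
      have hc := c.2
      simp [ptOf, mat, hc]
  · intro ξ
    refine ⟨?_, ?_⟩
    · intro b a hab
      by_contra h
      apply hab
      have h' : ¬ e a = e b + 1 := fun h2 => h (by omega)
      simp [ymat, h']
    · funext c
      have hc := c.2
      simp [covOf, ymat, hc]
  · intro κ sg a b hab
    by_contra h
    apply hab
    simp [smat, h]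
  · intro m n a b ha hb i j hij
    rw [Matrix.mul_apply] at hij
    obtain ⟨k, -, hk⟩ := Finset.exists_ne_zero_of_sum_ne_zero hij
    have h1 := ha i k (left_ne_zero_of_mul hk)
    have h2 := hb k j (right_ne_zero_of_mul hk)
    omega
  · intro n a b ha hb
    refine ⟨?_, ?_⟩
    · intro i j hij
      by_contra h
      apply hij
      have h1 : a i j = 0 := by_contra fun hne => h (ha i j hne)
      have h2 : b i j = 0 := by_contra fun hne => h (hb i j hne)
      simp [h1, h2]
    · intro i j hij
      by_contra h
      apply hij
      have h1 : a i j = 0 := by_contra fun hne => h (ha i j hne)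
      have h2 : b i j = 0 := by_contra fun hne => h (hb i j hne)
      simp [h1, h2]
  · intro i j hij
    by_cases h : i = j
    · rw [h, add_zero]
    · exact absurd (Matrix.one_apply_ne h) hij

end Pool.DM
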