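import Pool.Agent.Work.MP_c20ce7_dm.Main

set_option autoImplicit false

/-!
# Labels: orbits of multisegments, and the effect of an up-step on them

A family `N : κ → ℤ × ℤ` of segments `[a, b]` (empty if `b < a`). A *boxing* of the graded set `(ι, e)` for `N` is
a map `sg : ι → κ` such that `a ↦ (sg a, e a)` is a bijection of `ι` with the set of the boxes
`{(k, j) | (N k).1 ≤ j ≤ (N k).2}`. The box matrix `smat e sg` maps the box `(k, j)` to the box `(k, j + 1)`.
-/

open MvPolynomial Matrix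

noncomputable section

namespace Pool.DM

/-- The type of segments `[a, b]`. -/
abbrev Seg : Type := ℤ × ℤ

section Boxes

variable {ι κ : Type} [Fintype ι] [DecidableEq ι]

/-- `a ↦ (sg a, e a)` is a bijection of `ι` with the boxes of `N`. -/
structure Boxing (e : ι → ℤ) (N : κ → Seg) (sg : ι → κ) : Prop where
  inj : ∀ a b, sg a = sg b → e a = e b → a = b
  mem : ∀ a, (N (sg a)).1 ≤ e a ∧ e a ≤ (N (sg a)).2
  ex : ∀ k j, (N k).1 ≤ j → j ≤ (N k).2 → ∃ a, sg a = k ∧ e a = j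

/-- The box matrix: the box `(k, j)` is mapped to the box `(k, j + 1)`. -/
def smat (e : ι → ℤ) (sg : ι → κ) : Matrix ι ι ℂ := by
  classical exact fun a b => if sg a = sg b ∧ e a = e b + 1 then 1 else 0

/-- The matrix is homogeneous of degree `n`. -/
def Deg (e : ι → ℤ) (n : ℤ) (m : Matrix ι ι ℂ) : Prop := ∀ a b, m a b ≠ 0 → e a = e b + n

/-- The orbit of the multisegment `N`: the points conjugate to a box matrix of `N`. -/
def orbN (e : ι → ℤ) (N : κ → Seg) : Set (Co e → ℂ) :=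
  {x | ∃ sg : ι → κ, Boxing e N sg ∧ ∃ g h : Matrix ι ι ℂ, Deg e 0 g ∧ Deg e 0 h ∧ g * h = 1 ∧ h * g = 1 ∧
    mat e x = g * smat e sg * h}

/-- The point of `V` with the matrix `m` (of degree `1`). -/
def ptOf (e : ι → ℤ) (m : Matrix ι ι ℂ) : Co e → ℂ := fun c => m c.1.1 c.1.2

/-- The covector with the matrix `y` (of degree `-1`). -/
def covOf (e : ι → ℤ) (y : Matrix ι ι ℂ) : Co e → ℂ := fun c => y c.1.2 c.1.1

/-- The conormal bundle of the orbit of `N` is contained in the characteristic variety. -/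
def WMod.Lab {e : ι → ℤ} {L : Type} [AddCommGroup L] [Module ℂ L] (W : WMod (Co e) L) (N : κ → Seg) : Prop :=
  ∀ x ∈ orbN e N, ∀ ξ : Co e → ℂ, mat e x * ymat e ξ = ymat e ξ * mat e x → W.InCh x ξ

end Boxes

section Steps

variable {κ : Type} [DecidableEq κ]

/-- The segments `k ∈ U` are shortened: `[i, b]` becomes `[i + 1, b]`. -/
def redN (i : ℤ) (U : Finset κ) (N : κ → Seg) : κ → Seg := fun k => if k ∈ U then (i + 1, (N k).2) else N k

/-- The combinatorial data of a step at the vertex `i`. `U` is the set of the segments `[i, b]` which are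
shortened (the unmatched ones), `μ : S → κ` is a partial injection; `μ s = t` stands for the canonical map of degree
`-1` from the segment `s` to the segment `t`. -/
structure Step (i : ℤ) (N : κ → Seg) (U S : Finset κ) (μ : κ → κ) : Prop where
  start : ∀ c ∈ U, (N c).1 = i ∧ i ≤ (N c).2
  link : ∀ s ∈ S, (N (μ s)).1 < (N s).1 ∧ (N s).1 ≤ i + 1 ∧ i ≤ (N (μ s)).2 ∧ (N (μ s)).2 < (N s).2
  notU : ∀ s ∈ S, μ s ∉ U
  inj : ∀ s ∈ S, ∀ s' ∈ S, μ s = μ s' → s = s'
  flag : ∀ c ∈ U, ∀ s, (N s).1 = i + 1 → (N c).2 < (N s).2 →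
    s ∈ S ∧ (N (μ s)).1 = i ∧ (N c).2 ≤ (N (μ s)).2
  cover : ∀ t, (N t).1 = i → i ≤ (N t).2 → t ∉ U → ∃ s ∈ S, μ s = t

/-- All segments `[i, b]` are shortened and no `[i + 1, b]` is longer than one of them. -/
structure TypeU (i : ℤ) (M : κ → Seg) (U : Finset κ) : Prop where
  start : ∀ c ∈ U, (M c).1 = i ∧ i ≤ (M c).2
  all : ∀ c, (M c).1 = i → i ≤ (M c).2 → c ∈ U
  flag : ∀ c ∈ U, ∀ s, (M s).1 = i + 1 → i + 1 ≤ (M s).2 → (M s).2 ≤ (M c).2

end Steps

section Core

variable {ι κ : Type} [Fintype ι] [DecidableEq ι] [DecidableEq κ]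

/-- The rows of `(x_(i-1) | y_i)` which survive: the boxes of degree `i` which are not in `U`. -/
abbrev Row (e : ι → ℤ) (sg : ι → κ) (i : ℤ) (U : Finset κ) : Type := {a : ι // e a = i ∧ sg a ∉ U}

/-- The columns `τ`: the box `(s, i + 1)` for `(t, i)` if `t = μ s`, the box `(t, i - 1)` otherwise. -/
def TauP (e : ι → ℤ) (sg : ι → κ) (i : ℤ) (U S : Finset κ) (μ : κ → κ) (τ : Row e sg i U → ι) : Prop :=
  ∀ k : Row e sg i U,
    (∃ s ∈ S, μ s = sg k.1 ∧ sg (τ k) = s ∧ e (τ k) = i + 1) ∨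
    ((∀ s ∈ S, μ s ≠ sg k.1) ∧ sg (τ k) = sg k.1 ∧ e (τ k) = i - 1)

/-- The minor of `(x_(i-1) | y_i)` with the columns `τ`. -/
def Amat (e : ι → ℤ) (sg : ι → κ) (i : ℤ) (U : Finset κ) (τ : Row e sg i U → ι) (y : Matrix ι ι ℂ) :
    Matrix (Row e sg i U) (Row e sg i U) ℂ := fun a k => (smat e sg + y) a.1 (τ k)

/-- The matrix `y` is generic enough with respect to the flag: for every `c ∈ U` the coordinates `(t, i)`,
`t = [i, b]`, `t ∉ U`, `b ≥ b_c`, of `y z` determine the coordinates `z_(s, i + 1)`, `s = [i + 1, b]`, `b > b_c`. -/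
def FlagInj (e : ι → ℤ) (N : κ → Seg) (sg : ι → κ) (i : ℤ) (U : Finset κ) (y : Matrix ι ι ℂ) : Prop :=
  ∀ c ∈ U, ∀ z : ι → ℂ,
    (∀ b, z b ≠ 0 → e b = i + 1 ∧ (N (sg b)).1 = i + 1 ∧ (N c).2 < (N (sg b)).2) →
    (∀ a, e a = i → (N (sg a)).1 = i → sg a ∉ U → (N c).2 ≤ (N (sg a)).2 → (y *ᵥ z) a = 0) → z = 0

/-- The coefficients of the graph: `T = (rows of U) * (rows outside U)⁻¹`, columns `τ`. -/
def Tm (e : ι → ℤ) (sg : ι → κ) (i : ℤ) (U : Finset κ) (τ : Row e sg i U → ι) (y : Matrix ι ι ℂ) :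
    Matrix ι (Row e sg i U) ℂ := fun c a => ∑ k, (smat e sg + y) c (τ k) * (Amat e sg i U τ y)⁻¹ k a

/-- The nilpotent part of the automorphism which is given by the coefficients `t : κ → κ → ℂ`: the box `(s, j)` is
mapped to `∑_c t c s • (c, j)`. -/
def nt (e : ι → ℤ) (sg : ι → κ) (t : Matrix κ κ ℂ) : Matrix ι ι ℂ := fun p q => if e p = e q then t (sg p) (sg q) else 0

/-- The coefficients `t c s` are zero unless `c ∈ U`, `s = [i, b] ∉ U` and `b ≥ b_c`. -/
def TSupp (N : κ → Seg) (i : ℤ) (U : Finset κ) (t : Matrix κ κ ℂ) : Prop :=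
  ∀ c s, t c s ≠ 0 → c ∈ U ∧ s ∉ U ∧ (N s).1 = i ∧ (N c).2 ≤ (N s).2

/-- The canonical map of degree `-1`: the box `(s, j + 1)`, `s ∈ S`, is mapped to the box `(μ s, j)`. -/
def yhat (e : ι → ℤ) (sg : ι → κ) (S : Finset κ) (μ : κ → κ) : Matrix ι ι ℂ := fun a b =>
  if sg b ∈ S ∧ sg a = μ (sg b) ∧ e b = e a + 1 then 1 else 0

end Core

/-- The upper right block of the box matrix over `ι' ⊕ C`. -/
def alB {ι' C κ : Type} (e' : ι' → ℤ) (i : ℤ) (sg : ι' ⊕ C → κ) : Matrix ι' C ℂ := by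
  classical exact fun b c => if sg (Sum.inl b) = sg (Sum.inr c) ∧ e' b = i + 1 then 1 else 0

/-- A module of the type of an intersection cohomology sheaf: its support is the closure of the orbit of `M`, and
the conormal bundles of the orbits of `M` and of `N` are contained in its characteristic variety. -/
structure Good {ι κ κ2 : Type} [Fintype ι] [DecidableEq ι] {e : ι → ℤ} {L : Type} [AddCommGroup L] [Module ℂ L]
    (W : WMod (Co e) L) (M : κ → Seg) (N : κ2 → Seg) : Prop where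
  simple : W.Simple
  growth : W.Growth
  equi : W.Equivariant
  nilOn : W.NilOn (orbN e M)
  labM : W.Lab M
  labN : W.Lab N
  exM : ∃ sg, Boxing e M sg
  exN : ∃ sg, Boxing e N sg

/-- There is a module as in `Good`. -/
def HasGood {κ κ2 : Type} (M : κ → Seg) (N : κ2 → Seg) : Prop :=
  ∃ (ι : Type) (_ : Fintype ι) (_ : DecidableEq ι) (e : ι → ℤ) (L : Type) (_ : AddCommGroup L) (_ : Module ℂ L)
    (W : WMod (Co e) L), Good W M N

/-- The dual family of segments. -/
def starN {κ : Type} (N : κ → Seg) : κ → Seg := fun k => (-(N k).2, -(N k).1)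

/-- The translated family of segments. -/
def shiftN {κ : Type} (t : ℤ) (N : κ → Seg) : κ → Seg := fun k => ((N k).1 + t, (N k).2 + t)

end Pool.DM
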