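import Pool.Agent.Work.MP_c20ce7_lab.Defs

set_option autoImplicit false

/-!
# Interface: labels under up-steps

Block `X` is the theorem `p_X (h1 : Stmt_Y) .. : Stmt_X` in the file `B_X.lean`, the blocks of the column `uses` are
the hypotheses in this order. Auxiliary lemmas have the prefix `X_`.

Notation in the proofs: the box `(k, j)` of a boxing `sg` is the `a : ι` with `sg a = k`, `e a = j` (unique by `inj`,
it exists if and only if `(N k).1 ≤ j ≤ (N k).2`). `x = smat e sg` maps `(k, j)` to `(k, j + 1)` (to `0` if `j` is the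
last one): `x a b = 1` iff `sg a = sg b` and `e a = e b + 1`.
-/

open MvPolynomial Matrix Topology

noncomputable section

namespace Pool.DM

/-! ## Elementary facts about boxings -/

/-- **MPT** (40 lines). Matrices and points. -/
def Stmt_MPT : Prop :=
  ∀ (ι : Type) [Fintype ι] [DecidableEq ι] (e : ι → ℤ),
    (∀ m : Matrix ι ι ℂ, Deg e 1 m → mat e (ptOf e m) = m) ∧
    (∀ y : Matrix ι ι ℂ, Deg e (-1) y → ymat e (covOf e y) = y) ∧
    (∀ x : Co e → ℂ, Deg e 1 (mat e x) ∧ ptOf e (mat e x) = x) ∧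
    (∀ ξ : Co e → ℂ, Deg e (-1) (ymat e ξ) ∧ covOf e (ymat e ξ) = ξ) ∧
    (∀ (κ : Type) (sg : ι → κ), Deg e 1 (smat e sg)) ∧
    (∀ (m n : ℤ) (a b : Matrix ι ι ℂ), Deg e m a → Deg e n b → Deg e (m + n) (a * b)) ∧
    (∀ (n : ℤ) (a b : Matrix ι ι ℂ), Deg e n a → Deg e n b → Deg e n (a + b) ∧ Deg e n (a - b)) ∧
    Deg e 0 (1 : Matrix ι ι ℂ)

/-- **CON** (60 lines). A covector is conormal to the orbit at `x` iff its matrix commutes with the matrix of `x`.
PROOF. For `h` of degree `0`: `∑_c ξ_c [h, x]_c = trace (y (h x - x h)) = trace (h (x y - y x))` (all entries of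
`[h, x]` outside `Co e` are zero, `y b a = ξ (a, b)`); `x y - y x` has only entries `(a, b)` with `e a = e b`; take for
`h` the matrix units `E_ba` with `e a = e b`. -/
def Stmt_CON : Prop :=
  ∀ (R : Type) [AddCommGroup R] [One R] (ι : Type) [Fintype ι] [DecidableEq ι] (e : ι → R) (C : Set (Co e → ℂ))
    (x ξ : Co e → ℂ), (x, ξ) ∈ Conormal e C ↔ x ∈ C ∧ mat e x * ymat e ξ = ymat e ξ * mat e x

/-- **STD** (60 lines). Two box matrices of the same family are conjugate by a permutation matrix; hence every point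
of the orbit is conjugate to every box matrix.
PROOF. `a ↦` the `b` with `sg' b = sg a`, `e b = e a` is a permutation `π` of `ι` which preserves `e`. -/
def Stmt_STD : Prop :=
  ∀ (ι κ : Type) [Fintype ι] [DecidableEq ι] (e : ι → ℤ) (N : κ → Seg) (sg : ι → κ), Boxing e N sg →
    ptOf e (smat e sg) ∈ orbN e N ∧
    ∀ x ∈ orbN e N, ∃ g h : Matrix ι ι ℂ, Deg e 0 g ∧ Deg e 0 h ∧ g * h = 1 ∧ h * g = 1 ∧
      mat e x = g * smat e sg * h

/-- **BXC** (90 lines). Over `ι' ⊕ C` there is a boxing of `N` for which `C` is the set of the boxes `(c, i)`,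
`c ∈ U`; its restriction to `ι'` is a boxing of `redN i U N`.
PROOF. Let `sg0` be a boxing of `N`. The sets `B = {a | e a = i, sg0 a ∈ U}` and `C` (as a subset of `ι' ⊕ C`) have
the same number of elements and lie in the fibre of degree `i`; there is a permutation `π` of `ι' ⊕ C` which
preserves the degree and maps `C` onto `B` (exchange `B \ C` and `C \ B`). Put `sg = sg0 ∘ π`. The last assertion is
immediate from the definition of `redN`. -/
def Stmt_BXC : Prop :=
  ∀ (ι' C κ : Type) [Fintype ι'] [DecidableEq ι'] [Fintype C] [DecidableEq C] [DecidableEq κ] (e' : ι' → ℤ) (i : ℤ)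
    (N : κ → Seg) (U : Finset κ), (∀ c ∈ U, (N c).1 = i ∧ i ≤ (N c).2) → Fintype.card C = U.card →
    ∀ sg0 : ι' ⊕ C → κ, Boxing (addDeg e' C i) N sg0 →
    ∃ sg : ι' ⊕ C → κ, Boxing (addDeg e' C i) N sg ∧ (∀ c : C, sg (Sum.inr c) ∈ U) ∧
      (∀ a : ι', e' a = i → sg (Sum.inl a) ∉ U) ∧ Boxing e' (redN i U N) (fun a => sg (Sum.inl a))

/-- **BXU** (70 lines). Conversely a boxing of `redN i U N` on `ι'` extends to a boxing of `N` on `ι' ⊕ C`
(`sg (inr c) = φ c`, `φ : C ≃ U`). -/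
def Stmt_BXU : Prop :=
  ∀ (ι' C κ : Type) [Fintype ι'] [DecidableEq ι'] [Fintype C] [DecidableEq C] [DecidableEq κ] (e' : ι' → ℤ) (i : ℤ)
    (N : κ → Seg) (U : Finset κ), (∀ c ∈ U, (N c).1 = i ∧ i ≤ (N c).2) → Fintype.card C = U.card →
    ∀ sg' : ι' → κ, Boxing e' (redN i U N) sg' →
    ∃ sg : ι' ⊕ C → κ, Boxing (addDeg e' C i) N sg ∧ (∀ c : C, sg (Sum.inr c) ∈ U) ∧
      (∀ a : ι', e' a = i → sg (Sum.inl a) ∉ U) ∧ (fun a => sg (Sum.inl a)) = sg'

/-- **RES** (90 lines). Restriction to `ι'`. Let `sg` be a boxing on `ι' ⊕ C` as in `BXC`, and let `y` be of degree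
`-1`, commute with the box matrix and have zero rows at `C`. Then `y` restricted to `ι'` is of degree `-1` and commutes
with the box matrix of `sg ∘ inl`; the embedding of `ι'` intertwines.
PROOF. The columns of `smat` and of `y` with index in `ι'` have zero rows at `C` (for `smat`: a row `(c, i)`, `c ∈ U`,
of the column `(k, j)` is nonzero only if `k = c`, `j = i - 1`, which is no box). `emb 0` is the inclusion:
`(m * emb 0) a b = m a (inl b)`. -/
def Stmt_RES : Prop :=
  ∀ (ι' C κ : Type) [Fintype ι'] [DecidableEq ι'] [Fintype C] [DecidableEq C] [DecidableEq κ] (e' : ι' → ℤ) (i : ℤ)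
    (N : κ → Seg) (U : Finset κ) (sg : ι' ⊕ C → κ), (∀ c ∈ U, (N c).1 = i ∧ i ≤ (N c).2) →
    Boxing (addDeg e' C i) N sg → (∀ c : C, sg (Sum.inr c) ∈ U) → (∀ a : ι', e' a = i → sg (Sum.inl a) ∉ U) →
    smat (addDeg e' C i) sg * emb (0 : Matrix C ι' ℂ) = emb 0 * smat e' (fun a => sg (Sum.inl a)) ∧
    ∀ y : Matrix (ι' ⊕ C) (ι' ⊕ C) ℂ, Deg (addDeg e' C i) (-1) y →
      y * smat (addDeg e' C i) sg = smat (addDeg e' C i) sg * y → (∀ (c : C) q, y (Sum.inr c) q = 0) →
      Deg e' (-1) (y.submatrix Sum.inl Sum.inl) ∧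
      y.submatrix Sum.inl Sum.inl * smat e' (fun a => sg (Sum.inl a)) =
        smat e' (fun a => sg (Sum.inl a)) * y.submatrix Sum.inl Sum.inl ∧
      y * emb (0 : Matrix C ι' ℂ) = emb 0 * y.submatrix Sum.inl Sum.inl

/-! ## The linear algebra of one vertex -/

/-- **COE** (90 lines). Let `y` be of degree `-1` and commute with the box matrix. If `a = (t, i)` is the first box of
`t` and `b = (s, i + 1)`, and `y a b ≠ 0`, then `(s, i + 1)` is the first box of `s` and `s` ends after `t`.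
PROOF. (1) If `(s, i)` is a box `b0`: `(y x) a b0 = y a b`, and `(x y) a b0 = ∑_c x a c * y c b0 = 0` because
`x a c ≠ 0` would give the box `c = (t, i - 1)`. So `y a b = 0`.
(2) Now `(N s).1 = i + 1`. Suppose `(N s).2 ≤ (N t).2`. For `i ≤ j`, `j + 1 ≤ (N s).2` the box `(t, j)` exists and
`y (t, j) (s, j + 1) = y a b`: induction on `j`; compare the entries at `((t, j), (s, j))`, `j ≥ i + 1`, of
`y x = x y`: `y (t, j) (s, j + 1) = y (t, j - 1) (s, j)`. At `j = (N s).2` (`≥ i + 1`, and `(t, j)` is a box) the same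
comparison gives `0 = y (t, j - 1) (s, j) = y a b` because `x` kills the last box `(s, j)`. -/
def Stmt_COE : Prop :=
  ∀ (ι κ : Type) [Fintype ι] [DecidableEq ι] (e : ι → ℤ) (N : κ → Seg) (sg : ι → κ), Boxing e N sg →
    ∀ y : Matrix ι ι ℂ, Deg e (-1) y → y * smat e sg = smat e sg * y →
    ∀ (i : ℤ) (a b : ι), e a = i → e b = i + 1 → (N (sg a)).1 = i → y a b ≠ 0 →
      (N (sg b)).1 = i + 1 ∧ (N (sg a)).2 < (N (sg b)).2

/-- **GRA** (120 lines). Let `y` be of degree `-1`, commute with `x = smat e sg`, let `FlagInj` hold and let the minor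
`A = Amat ..` be invertible. Then the rows of `x + y` at the boxes `(c, i)`, `c ∈ U`, are combinations of the rows at
the other boxes of degree `i`, with the coefficients `Tm`, and `Tm` at `(c, i)`, `a = (s, i)` is zero unless
`(N s).1 = i` and `(N c).2 ≤ (N s).2`.
PROOF. KEY. Let `v = (x + y) *ᵥ w` (only the coordinates of degree `i` matter; one may assume `w` is supported in the
degrees `i - 1`, `i + 1`) and `c ∈ U`. If `v_(t, i) = 0` for all `t ∉ U` with `(N t).1 = i`, `(N c).2 ≤ (N t).2`, then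
`v_(c', i) = 0` for all `c' ∈ U` with `(N c).2 ≤ (N c').2`. Indeed for `(N t).1 = i` the row `(t, i)` of `x` is zero
and by COE `v_(t, i) = ∑ y (t, i) (s, i + 1) w_(s, i + 1)` over the `s` with `(N s).1 = i + 1`,
`(N t).2 < (N s).2`. Let `z` be the restriction of `w` to the boxes `(s, i + 1)` with `(N s).1 = i + 1`,
`(N c).2 < (N s).2`; for `(N c).2 ≤ (N t).2` we get `v_(t, i) = (y z)_(t, i)`; `FlagInj` gives `z = 0`, hence
`v_(c', i) = 0`.
(1) For a column `q` put `v = (x + y) e_q - ∑_k (x + y) e_(τ k) * (A⁻¹ r)_k`, `r` = the rows outside `U` of the column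
`q` (degree `i` rows only): the coordinates of `v` outside `U` (degree `i`) are zero, so by KEY all `v_(c, i) = 0`.
(2) For `a = (s, i)` outside `U` put `v = ∑_k (x + y) e_(τ k) * A⁻¹ k a`: outside `U` it is `e_a`, at `(c, i)` it is
`Tm (c, i) a`. If `(N s).1 ≠ i` or `(N s).2 < (N c).2` then KEY applies to `c` and gives `Tm (c, i) a = 0`. -/
def Stmt_GRA : Prop :=
  ∀ (ι κ : Type) [Fintype ι] [DecidableEq ι] [DecidableEq κ] (e : ι → ℤ) (N : κ → Seg) (sg : ι → κ),
    Boxing e N sg → ∀ (i : ℤ) (U : Finset κ), (∀ c ∈ U, (N c).1 = i ∧ i ≤ (N c).2) →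
    ∀ (τ : Row e sg i U → ι) (y : Matrix ι ι ℂ), (∀ k, e (τ k) = i - 1 ∨ e (τ k) = i + 1) →
      Deg e (-1) y → y * smat e sg = smat e sg * y →
      FlagInj e N sg i U y → (Amat e sg i U τ y).det ≠ 0 →
      ∀ c : ι, e c = i → sg c ∈ U →
        (∀ q, e q = i - 1 ∨ e q = i + 1 →
          (smat e sg + y) c q = ∑ a : Row e sg i U, Tm e sg i U τ y c a * (smat e sg + y) a.1 q) ∧
        (∀ a : Row e sg i U, Tm e sg i U τ y c a ≠ 0 → (N (sg a.1)).1 = i ∧ (N (sg c)).2 ≤ (N (sg a.1)).2)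

/-- **AUT** (80 lines). The automorphism `1 + nt`.
PROOF. `nt p q ≠ 0` gives `sg p ∈ U`, `sg q ∉ U`, so `nt * nt = 0`. `(nt x) p q`: `q = (s, j)`, `x` maps it to
`(s, j + 1)`; `(x nt) p q = ∑_c x p c t (sg c) s`, `c = (sg p, j)`. Both are `t (sg p) s` if `e p = j + 1` and the
boxes `(s, j + 1)` resp. `(sg p, j)` exist: for `t (sg p) s ≠ 0` both exist, because `q` is a box of `s` (so
`j ≥ i = (N (sg p)).1`) and `p` is a box of `sg p`, `j + 1 ≤ (N (sg p)).2 ≤ (N s).2`. -/
def Stmt_AUT : Prop :=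
  ∀ (ι κ : Type) [Fintype ι] [DecidableEq ι] [DecidableEq κ] (e : ι → ℤ) (N : κ → Seg) (sg : ι → κ),
    Boxing e N sg → ∀ (i : ℤ) (U : Finset κ), (∀ c ∈ U, (N c).1 = i ∧ i ≤ (N c).2) →
    ∀ t : Matrix κ κ ℂ, TSupp N i U t →
      Deg e 0 (nt e sg t) ∧ nt e sg t * nt e sg t = 0 ∧ nt e sg t * smat e sg = smat e sg * nt e sg t

/-- **BLK** (70 lines). Conjugation by `1 + nt` makes the rows at `(c, i)`, `c ∈ U`, zero.
PROOF. `y2 = (1 - nt) y (1 + nt)`; row `(c, i)` of `(1 - nt) y` at `q` (degree `i + 1`) is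
`y c q - ∑_(e a = i) t (sg c) (sg a) y a q = 0` by hypothesis. Commutation: `nt` commutes with `smat` (AUT). -/
def Stmt_BLK : Prop :=
  ∀ (ι κ : Type) [Fintype ι] [DecidableEq ι] [DecidableEq κ] (e : ι → ℤ) (N : κ → Seg) (sg : ι → κ),
    Boxing e N sg → ∀ (i : ℤ) (U : Finset κ), (∀ c ∈ U, (N c).1 = i ∧ i ≤ (N c).2) →
    ∀ t : Matrix κ κ ℂ, TSupp N i U t → ∀ y : Matrix ι ι ℂ, Deg e (-1) y → y * smat e sg = smat e sg * y →
      (∀ c q, e c = i → sg c ∈ U → y c q = ∑ a, if e a = i then t (sg c) (sg a) * y a q else 0) →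
      Deg e (-1) ((1 - nt e sg t) * y * (1 + nt e sg t)) ∧
      ((1 - nt e sg t) * y * (1 + nt e sg t)) * smat e sg = smat e sg * ((1 - nt e sg t) * y * (1 + nt e sg t)) ∧
      ∀ c q, e c = i → sg c ∈ U → ((1 - nt e sg t) * y * (1 + nt e sg t)) c q = 0

/-- **HAT** (110 lines). The canonical map `yhat`.
PROOF. Degree: clear. Commutation: let `s = sg b ∈ S`, `sg a = μ s`, `e a = e b = j` (otherwise both sides vanish at
`(a, b)`). `(yhat x) a b = 1` iff the box `(s, j + 1)` exists, `(x yhat) a b = 1` iff the box `(μ s, j - 1)` exists;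
both exist: `j ≤ (N (μ s)).2 < (N s).2` and `(N (μ s)).1 < (N s).1 ≤ j`. Rows at `U`: `μ s ∉ U`.
`TauP`: by `cover` a row `t = sg k` with `(N t).1 = i` is some `μ s`; if `t = μ s` the box `(s, i + 1)` exists
(`(N s).1 ≤ i + 1 ≤ (N (μ s)).2 + 1 ≤ (N s).2`); if `t` is no `μ s` then `(N t).1 < i`, so `(t, i - 1)` exists.
`Amat = 1`: entry `(a, k)`: if `τ k = (s, i + 1)` then `smat` gives `0` and `yhat a.1 (τ k) = 1` iff
`sg a.1 = μ s = sg k.1` iff `a = k` (`inj`); if `τ k = (sg k, i - 1)` then `yhat` gives `0` (degree) and `smat` is `1` iff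
`sg a.1 = sg k.1`. `FlagInj`: for `b0` with `z b0 ≠ 0`, `s = sg b0`: by `flag` `s ∈ S` and `μ s` starts at `i`, so
`a = (μ s, i)` is a box outside `U` with `(N c).2 ≤ (N (μ s)).2`, and `(yhat z) a = z b0` by injectivity of `μ`. -/
def Stmt_HAT : Prop :=
  ∀ (ι κ : Type) [Fintype ι] [DecidableEq ι] [DecidableEq κ] (e : ι → ℤ) (N : κ → Seg) (sg : ι → κ),
    Boxing e N sg → ∀ (i : ℤ) (U S : Finset κ) (μ : κ → κ), Step i N U S μ →
      Deg e (-1) (yhat e sg S μ) ∧ yhat e sg S μ * smat e sg = smat e sg * yhat e sg S μ ∧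
      (∀ c q, sg c ∈ U → yhat e sg S μ c q = 0) ∧ FlagInj e N sg i U (yhat e sg S μ) ∧
      (∃ τ : Row e sg i U → ι, TauP e sg i U S μ τ) ∧
      (∀ τ : Row e sg i U → ι, TauP e sg i U S μ τ → (∀ k, e (τ k) = i - 1 ∨ e (τ k) = i + 1) ∧
        Amat e sg i U τ (yhat e sg S μ) = 1 ∧ Function.Injective τ ∧
        (Finset.univ.filter fun k => e (τ k) = i + 1).card = S.card)

/-- **OPN** (120 lines). Openness: `FlagInj` holds for all matrices near a matrix for which it holds.
PROOF. For `c ∈ U` let `K` be the set of the boxes `a` in the definition and `B` the set of the boxes `b`; the matrix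
`y[K, B]` is injective at `y0`, so it has a left inverse `Z`: `Z * y0[K, B] = 1`; `det (Z * y[K, B])` is continuous in
`y` and `1` at `y0`, so it is nonzero near `y0`. -/
def Stmt_OPN : Prop :=
  ∀ (ι κ : Type) [Fintype ι] [DecidableEq ι] [DecidableEq κ] (e : ι → ℤ) (N : κ → Seg) (sg : ι → κ) (i : ℤ)
    (U : Finset κ) (F : ℂ → Matrix ι ι ℂ), Continuous F → FlagInj e N sg i U (F 0) →
    ∀ᶠ s in 𝓝 (0 : ℂ), FlagInj e N sg i U (F s)

/-- **CTT** (70 lines). Continuity of the coefficients of the graph.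
PROOF. `A⁻¹ = Ring.inverse A.det • A.adjugate` (`Matrix.inv_def`), `Continuous.matrix_det`,
`Continuous.matrix_adjugate`, `ContinuousAt.inv₀`; the limit `0` because the rows at `U` of `F 0` and of `smat` at the
columns `τ k` are zero. -/
def Stmt_CTT : Prop :=
  ∀ (ι κ : Type) [Fintype ι] [DecidableEq ι] [DecidableEq κ] (e : ι → ℤ) (N : κ → Seg) (sg : ι → κ),
    Boxing e N sg → ∀ (i : ℤ) (U : Finset κ), (∀ c ∈ U, (N c).1 = i ∧ i ≤ (N c).2) →
    ∀ (τ : Row e sg i U → ι), (∀ k, e (τ k) = i - 1 ∨ e (τ k) = i + 1) →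
    ∀ F : ℂ → Matrix ι ι ℂ, Continuous F → Amat e sg i U τ (F 0) = 1 → (∀ c q, sg c ∈ U → F 0 c q = 0) →
      (∀ᶠ s in 𝓝 (0 : ℂ), (Amat e sg i U τ (F s)).det ≠ 0) ∧
      ∀ (c : ι) (a : Row e sg i U), e c = i → sg c ∈ U →
        ContinuousAt (fun s => Tm e sg i U τ (F s) c a) 0 ∧ Tm e sg i U τ (F 0) c a = 0

/-- **PJ** (120 lines). The columns `J` can be moved to the columns `τ` by a permutation.
PROOF. `τ` and `J` are injective maps from `{a | e a = i}` to `ι` with values in the degrees `i - 1`, `i + 1`, and as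
many values of degree `i + 1`. So there is a permutation `π` of `ι` which preserves `e`, fixes all points of the degrees
other than `i - 1`, `i + 1` and maps the range of `τ` onto the range of `J`: `π (τ k) = J (ρ k)`, `ρ` a permutation of
`{a | e a = i}`. Let `g` be the permutation matrix, `g a b = 1` iff `a = π b`, `h` its inverse. Then
`(g m h) a b = m (π⁻¹ a) (π⁻¹ b)`, so the `J`-minor of `(g x h | g y h)` is `± det (m a (τ k))`, `m = x + y` (for a
column `q` of degree `i - 1` the entry `y a q`, `e a = i`, is zero, for `i + 1` the entry `x a q`). -/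
def Stmt_PJ : Prop :=
  ∀ (ι : Type) [Fintype ι] [DecidableEq ι] (e : ι → ℤ) (i : ℤ) (J τ : {a // e a = i} → ι),
    Function.Injective J → Function.Injective τ → (∀ k, e (J k) = i - 1 ∨ e (J k) = i + 1) →
    (∀ k, e (τ k) = i - 1 ∨ e (τ k) = i + 1) →
    (Finset.univ.filter fun k => e (J k) = i + 1).card = (Finset.univ.filter fun k => e (τ k) = i + 1).card →
    ∃ g h : Matrix ι ι ℂ, Deg e 0 g ∧ Deg e 0 h ∧ g * h = 1 ∧ h * g = 1 ∧
      ∀ m y : Matrix ι ι ℂ, Deg e 1 m → Deg e (-1) y →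
        (Matrix.det fun a k : {a // e a = i} => (m + y) a.1 (τ k)) ≠ 0 →
        QJ e i J (ptOf e (g * m * h)) (covOf e (g * y * h)) ≠ 0

/-- **CQJ** (40 lines). `QJ` is continuous: along a continuous family of covectors. -/
def Stmt_CQJ : Prop :=
  ∀ (ι : Type) [Fintype ι] [DecidableEq ι] (e : ι → ℤ) (i : ℤ) (J : {a // e a = i} → ι) (x : Co e → ℂ)
    (η : ℂ → Co e → ℂ), (∀ c, ContinuousAt (fun s => η s c) 0) → QJ e i J x (η 0) ≠ 0 →
    ∀ᶠ s in 𝓝 (0 : ℂ), QJ e i J x (η s) ≠ 0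

/-- **LNE** (60 lines). A characteristic variety is closed along lines: the symbol is a polynomial in `s` along the
line, a polynomial which vanishes near `0` is zero. -/
def Stmt_LNE : Prop :=
  ∀ (σ : Type) [Fintype σ] [DecidableEq σ] (L : Type) [AddCommGroup L] [Module ℂ L] (W : WMod σ L)
    (x ξ0 ξ1 : σ → ℂ), (∀ᶠ s in 𝓝 (0 : ℂ), W.InCh x (ξ0 + s • (ξ1 - ξ0))) → W.InCh x ξ1

/-- The property (CH) of an up-step. -/
def CHprop {ι' C : Type} [Fintype ι'] [DecidableEq ι'] [Fintype C] [DecidableEq C] {e' : ι' → ℤ} {i : ℤ}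
    {L' : Type} [AddCommGroup L'] [Module ℂ L'] (W' : WMod (Co e') L') (J : {a // e' a = i} → ι')
    {L : Type} [AddCommGroup L] [Module ℂ L] (W : WMod (Co (addDeg e' C i)) L) : Prop :=
  ∀ x' ξ', W'.InCh x' ξ' → QJ e' i J x' ξ' ≠ 0 → ∀ (T : Matrix C ι' ℂ) (x ξ : Co (addDeg e' C i) → ℂ),
    TDeg e' i T → mat _ x * emb T = emb T * mat e' x' → ymat _ ξ * emb T = emb T * ymat e' ξ' →
    (∀ a b, addDeg e' C i a = i → addDeg e' C i b = i →
      (mat _ x * ymat _ ξ - ymat _ ξ * mat _ x) a b = 0) → W.InCh x ξ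

/-- **ULG** (150 lines, uses MPT BXC RES GRA AUT BLK HAT OPN CTT PJ CQJ HST). Near `yhat` the points of the conormal
space are in the characteristic variety.
PROOF. `sg` a boxing on `ι' ⊕ C` as in BXC, `x = smat`, `yhat` from HAT, `F s = yhat + s (y - yhat)` (commutes with
`x`, degree `-1`). `τ` from HAT. For `s` near `0`: `FlagInj` (OPN), `det Amat ≠ 0` (CTT). Put `t c k :=
Tm (c, i) (k, i)` for `c ∈ U`, `k ∉ U` with boxes of degree `i`, else `0` (a matrix over `κ`); by GRA `TSupp`. BLK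
applies (`y` and `smat + y` have the same entries in row `(c, i)` and the columns of degree `i + 1`, as `smat` has
degree `1`; columns of other degrees: both sides are zero): `y2 = (1 - nt) (F s) (1 + nt)` has zero rows at `C`. By RES
`y'_s := y2` restricted to `ι'` commutes with `x' = smat (sg ∘ inl)`; `(x', y'_s)` is in `Ch(W')` by `Lab`
(`x' ∈ orbN e' (redN i U N)` by BXC and STD). At `s = 0` `nt = 0` and `y'_0 = yhat` restricted; the rows
`Row = {a : ι' | e' a = i}` and the columns `τ` (they are in `ι'`: their degree is not `i`) give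
`det (x' + y'_0)[τ] = det Amat = 1`. PJ (for `e'`, `J`, `τ`) gives `g, h` with `QJ (g x' h) (g y'_0 h) ≠ 0`, so
`QJ (g x' h) (g y'_s h) ≠ 0` near `0` (CQJ, CTT); `(g x' h, g y'_s h)` is in `Ch(W')` by HST. (CH) with `T = 0` and
the point `(G x H, G y2 H)`, `G = g ⊕ 1`, `H = h ⊕ 1` over `ι' ⊕ C`: it is in `Ch(W)`; by HST with `H G` and then with
`1 + nt` also `(x, F s)` is in `Ch(W)`. -/
def Stmt_ULG : Prop :=
  ∀ (ι' C κ : Type) [Fintype ι'] [DecidableEq ι'] [Fintype C] [DecidableEq C] [DecidableEq κ] (e' : ι' → ℤ) (i : ℤ)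
    (N : κ → Seg) (U S : Finset κ) (μ : κ → κ), Step i N U S μ → Fintype.card C = U.card →
    ∀ (L' : Type) [AddCommGroup L'] [Module ℂ L'] (W' : WMod (Co e') L') (L : Type) [AddCommGroup L] [Module ℂ L]
      (W : WMod (Co (addDeg e' C i)) L), W'.Simple → W'.Equivariant → W.Simple → W.Equivariant →
    ∀ J : {a // e' a = i} → ι', Function.Injective J → (∀ k, e' (J k) = i - 1 ∨ e' (J k) = i + 1) →
      (Finset.univ.filter fun k => e' (J k) = i + 1).card = S.card →
    CHprop W' J W → W'.Lab (redN i U N) →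
    ∀ sg : ι' ⊕ C → κ, Boxing (addDeg e' C i) N sg → (∀ c : C, sg (Sum.inr c) ∈ U) →
      (∀ a : ι', e' a = i → sg (Sum.inl a) ∉ U) → Boxing e' (redN i U N) (fun a => sg (Sum.inl a)) →
    ∀ ξ, smat (addDeg e' C i) sg * ymat (addDeg e' C i) ξ = ymat (addDeg e' C i) ξ * smat (addDeg e' C i) sg →
      ∀ᶠ s in 𝓝 (0 : ℂ), W.InCh (ptOf (addDeg e' C i) (smat (addDeg e' C i) sg))
        (covOf (addDeg e' C i) (yhat (addDeg e' C i) sg S μ) +
          s • (ξ - covOf (addDeg e' C i) (yhat (addDeg e' C i) sg S μ)))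

/-- **UL** (70 lines, uses MPT STD BXC LNE ULG HST). The label theorem.
PROOF. `x ∈ orbN`, so there is a boxing `sg0` of `N` and BXC gives a boxing `sg` in good position, STD gives
`mat x = g smat h`. `(x, ξ)` is in `Ch` iff `(smat, h y g)` is (HST). ULG and LNE. -/
def Stmt_UL : Prop :=
  ∀ (ι' C κ : Type) [Fintype ι'] [DecidableEq ι'] [Fintype C] [DecidableEq C] [DecidableEq κ] (e' : ι' → ℤ) (i : ℤ)
    (N : κ → Seg) (U S : Finset κ) (μ : κ → κ), Step i N U S μ → Fintype.card C = U.card →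
    ∀ (L' : Type) [AddCommGroup L'] [Module ℂ L'] (W' : WMod (Co e') L') (L : Type) [AddCommGroup L] [Module ℂ L]
      (W : WMod (Co (addDeg e' C i)) L), W'.Simple → W'.Equivariant → W.Simple → W.Equivariant →
    ∀ J : {a // e' a = i} → ι', Function.Injective J → (∀ k, e' (J k) = i - 1 ∨ e' (J k) = i + 1) →
      (Finset.univ.filter fun k => e' (J k) = i + 1).card = S.card →
    CHprop W' J W → W'.Lab (redN i U N) → W.Lab N

/-! ## The support -/

/-- **USA** (90 lines). Infinitesimal form of the openness of the orbit of `M` in the extensions of `M' = redN i U M`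
by `U`. `sg` a boxing of `M` on `ι' ⊕ C` in good position, `α = alB` = the block of `smat` with rows `ι'`, columns
`C`.
PROOF. `M'` has no box which is the first one of its segment and of degree `i`. Rows of `β` of degree `i + 1`. (1) A
row `(s, i + 1)` with `(M' s).1 ≤ i` (then `< i` or `s ∉ U`, `(s, i)` is a box of `ι'`): `x' (s, i) = (s, i + 1)`, so it
is removed by `u (s, i) k = β (s, i + 1) k` (sign). (2) Rows `(s, i + 1)` with `(M' s).1 = i + 1`: either `s ∈ U`, or
`(M s).1 = i + 1`. Let `k ∈ C`, `c = sg (inr k) ∈ U`. `α` has the entry `1` at `((c, i + 1), k)` if this box exists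
(`(M c).2 ≥ i + 1`) and nothing else in the column `k`. `γ k' k := β (sg (inr k'), i + 1) k` (if the box exists, else `0`)
gives `α γ` with the rows `s ∈ U` of `β`. (3) The remaining rows `s ∉ U`, `(M s).1 = i + 1 ≤ (M s).2`: by `flag`
`i + 1 ≤ (M s).2 ≤ (M c).2` for all `c ∈ U`, so all `(c, i + 1)` exist; `a` maps the box `(c, j)` to
`β (s, i + 1) k * (s, j)` for all `j ≥ i + 1` (if `(s, j)` is a box), which commutes with `x'`. So
`β = a α - x' u - α γ` with suitable signs. -/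
def Stmt_USA : Prop :=
  ∀ (ι' C κ : Type) [Fintype ι'] [DecidableEq ι'] [Fintype C] [DecidableEq C] [DecidableEq κ] (e' : ι' → ℤ) (i : ℤ)
    (M : κ → Seg) (U : Finset κ), TypeU i M U → Fintype.card C = U.card →
    ∀ sg : ι' ⊕ C → κ, Boxing (addDeg e' C i) M sg → (∀ c : C, sg (Sum.inr c) ∈ U) →
      (∀ a : ι', e' a = i → sg (Sum.inl a) ∉ U) → Boxing e' (redN i U M) (fun a => sg (Sum.inl a)) →
    ∀ β : Matrix ι' C ℂ, (∀ a c, β a c ≠ 0 → e' a = i + 1) →
      ∃ (a : Matrix ι' ι' ℂ) (u : Matrix ι' C ℂ) (γ : Matrix C C ℂ), Deg e' 0 a ∧ (∀ b c, u b c ≠ 0 → e' b = i) ∧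
        a * smat e' (fun a => sg (Sum.inl a)) = smat e' (fun a => sg (Sum.inl a)) * a ∧
        β = a * alB e' i sg - smat e' (fun a => sg (Sum.inl a)) * u - alB e' i sg * γ

/-- **C5** (helper8). Every polynomial which vanishes on the orbit `O` of `[x', α0; 0, 0]` vanishes at all
`(1 + T) [x'', β; 0, 0] (1 - T)`, `x''` conjugate to `x'`, if all `β` are `a α0 - x' u - α0 γ`. -/
def Stmt_C5 : Prop :=
  ∀ (ι' C : Type) [Fintype ι'] [DecidableEq ι'] [Fintype C] [DecidableEq C] (e' : ι' → ℤ) (i : ℤ)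
    (O : Set (Co (addDeg e' C i) → ℂ)) (x' : Matrix ι' ι' ℂ) (α0 : Matrix ι' C ℂ), Deg e' 1 x' →
    (∀ b c, α0 b c ≠ 0 → e' b = i + 1) →
    (∀ x ∈ O, ∀ x1 (g h : Matrix (ι' ⊕ C) (ι' ⊕ C) ℂ), Deg (addDeg e' C i) 0 g → Deg (addDeg e' C i) 0 h →
      g * h = 1 → h * g = 1 → mat _ x1 = g * mat _ x * h → x1 ∈ O) →
    ptOf _ (Matrix.fromBlocks x' α0 0 0) ∈ O →
    (∀ β : Matrix ι' C ℂ, (∀ b c, β b c ≠ 0 → e' b = i + 1) →
      ∃ (a : Matrix ι' ι' ℂ) (u : Matrix ι' C ℂ) (γ : Matrix C C ℂ), Deg e' 0 a ∧ (∀ b c, u b c ≠ 0 → e' b = i) ∧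
        a * x' = x' * a ∧ β = a * α0 - x' * u - α0 * γ) →
    ∀ f : MvPolynomial (Co (addDeg e' C i)) ℂ, (∀ x ∈ O, eval x f = 0) →
      ∀ (x'' : Co e' → ℂ) (g h : Matrix ι' ι' ℂ), Deg e' 0 g → Deg e' 0 h → g * h = 1 → h * g = 1 →
        mat e' x'' = g * x' * h →
      ∀ (T : Matrix C ι' ℂ) (x : Co (addDeg e' C i) → ℂ), TDeg e' i T → mat _ x * emb T = emb T * mat e' x'' →
        eval x f = 0

/-- **US** (90 lines, uses MPT STD BXU RES USA C5). The support of an up-step of type U.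
PROOF. `f` vanishes on `orbN e M`. By the property (SUP) it is enough that `f` vanishes at all `x` with `x' ∈ orbN e'
(redN i U M)` and `mat x * emb T = emb T * mat x'`. `orbN` nonempty gives a boxing of `redN i U M` on `ι'`, BXU a boxing
`sg` of `M`; C5 with `O = orbN e M`, `x' = smat e' (sg ∘ inl)`, `α0` = the block of `smat sg`
(`smat sg = fromBlocks x' α0 0 0`: the rows at `C` are zero), USA. -/
def Stmt_US : Prop :=
  ∀ (ι' C κ : Type) [Fintype ι'] [DecidableEq ι'] [Fintype C] [DecidableEq C] [DecidableEq κ] (e' : ι' → ℤ) (i : ℤ)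
    (M : κ → Seg) (U : Finset κ), TypeU i M U → Fintype.card C = U.card →
    ∀ f : MvPolynomial (Co (addDeg e' C i)) ℂ, (∀ x ∈ orbN (addDeg e' C i) M, eval x f = 0) →
    ∀ x ∈ {x : Co (addDeg e' C i) → ℂ | ∃ x' ∈ orbN e' (redN i U M), ∃ T : Matrix C ι' ℂ, TDeg e' i T ∧
        mat _ x * emb T = emb T * mat e' x'}, eval x f = 0

/-! ## The step and the chain -/

/-- **QJE** (60 lines, uses MPT STD BXU RES HAT). For `J := τ` (columns of `yhat`) there is a point of the conormal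
bundle of the orbit of `redN i U N` with `QJ ≠ 0`; `J` is injective with `S.card` values of degree `i + 1`.
PROOF. Extend `sg'` to a boxing `sg` of `N` on `ι' ⊕ C` (BXU with `C = Fin U.card`), HAT, RES. -/
def Stmt_QJE : Prop :=
  ∀ (ι' κ : Type) [Fintype ι'] [DecidableEq ι'] [DecidableEq κ] (e' : ι' → ℤ) (i : ℤ)
    (N : κ → Seg) (U S : Finset κ) (μ : κ → κ), Step i N U S μ → ∀ sg' : ι' → κ, Boxing e' (redN i U N) sg' →
    ∃ J : {a // e' a = i} → ι', Function.Injective J ∧ (∀ k, e' (J k) = i - 1 ∨ e' (J k) = i + 1) ∧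
      (Finset.univ.filter fun k => e' (J k) = i + 1).card = S.card ∧
      ∃ x ξ, x ∈ orbN e' (redN i U N) ∧ mat e' x * ymat e' ξ = ymat e' ξ * mat e' x ∧ QJ e' i J x ξ ≠ 0

/-- **GS** (80 lines, uses UPSTEP UL US QJE BXU). The step for modules with two labels.
PROOF. Take `C = Fin U.card`, `J` from QJE for `N`; UPSTEP; UL for `N` and for `M` (the same `J`: `S.card = S1.card`);
US with the property (SUP). Boxings: BXU. -/
def Stmt_GS : Prop :=
  ∀ (κ κ2 : Type) [DecidableEq κ] [DecidableEq κ2] (i : ℤ) (M : κ → Seg) (N : κ2 → Seg) (U1 S1 : Finset κ)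
    (μ1 : κ → κ) (U S : Finset κ2) (μ : κ2 → κ2), Step i M U1 S1 μ1 → TypeU i M U1 → Step i N U S μ →
    U1.card = U.card → S1.card = S.card →
    HasGood (redN i U1 M) (redN i U N) → HasGood M N

/-- **ORM** (90 lines, no uses). The orbit depends only on the multiset of the nonempty segments.
PROOF. There is a bijection of the nonempty segments of `N` with those of `N'` which preserves the segments
(`Multiset.map` equal: `Finset.univ.val.map`, `Multiset.map_eq_map..`, or by counting fibres); it turns a boxing for `N`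
into a boxing for `N'` with the same `smat`. -/
def Stmt_ORM : Prop :=
  ∀ (κ κ' : Type) [Fintype κ] [Fintype κ'] (N : κ → Seg) (N' : κ' → Seg),
    (Finset.univ.val.map N).filter (fun s => s.1 ≤ s.2) = (Finset.univ.val.map N').filter (fun s => s.1 ≤ s.2) →
    ∀ (ι : Type) [Fintype ι] [DecidableEq ι] (e : ι → ℤ), orbN e N = orbN e N' ∧
      ((∃ sg, Boxing e N sg) → ∃ sg, Boxing e N' sg)

/-- **GM** (30 lines, uses ORM). -/
def Stmt_GM : Prop :=
  ∀ (κ κ' κ2 κ2' : Type) [Fintype κ] [Fintype κ'] [Fintype κ2] [Fintype κ2'] (M : κ → Seg) (M' : κ' → Seg)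
    (N : κ2 → Seg) (N' : κ2' → Seg),
    (Finset.univ.val.map M).filter (fun s => s.1 ≤ s.2) = (Finset.univ.val.map M').filter (fun s => s.1 ≤ s.2) →
    (Finset.univ.val.map N).filter (fun s => s.1 ≤ s.2) = (Finset.univ.val.map N').filter (fun s => s.1 ≤ s.2) →
    HasGood M N → HasGood M' N'

/-- **GT** (80 lines, uses TRA). Transposition. PROOF. `sg` is a boxing of `starN N` for `negDeg e`, and
`smat (negDeg e) sg` is the transpose of `smat e sg`; `TRA` gives the module. -/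
def Stmt_GT : Prop :=
  ∀ (κ κ2 : Type) (M : κ → Seg) (N : κ2 → Seg), HasGood M N → HasGood (starN M) (starN N)

/-- **GH** (80 lines, uses REX). Translation of the degrees. PROOF. `Co e ≃ Co (fun a => e a + t)`, identity on the
pairs; `REX`; `Equivariant`: the operators `xo`, `dO`, `G` are the same. -/
def Stmt_GH : Prop :=
  ∀ (κ κ2 : Type) (t : ℤ) (M : κ → Seg) (N : κ2 → Seg), HasGood M N → HasGood (shiftN t M) (shiftN t N)

/-- **ORI** (90 lines, no uses). The index set of helper17's parameters. For a list `l` of nonempty segments there is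
a boxing of the family `l.get` on `Idx (l.map ..)` with the exponents as degrees, and `nil` is its box matrix.
PROOF. Induction on `l`: on the summand `Fin p.2`, `p = ((a + b) / 2, (b - a + 1).toNat)`, the exponent of `j` is
`(a + b) / 2 + (b - a) / 2 - j = b - j` and `jordan` maps `j` to `j - 1`; `sg (inl j) = 0`, `sg (inr x) = (sg x).succ`. -/
def Stmt_ORI : Prop :=
  ∀ l : List Seg, (∀ s ∈ l, s.1 ≤ s.2) →
    ∃ (d : Pool.Agent.MPc20ce7.Idx (l.map fun s => (((s.1 : ℝ) + s.2) / 2, (s.2 - s.1 + 1).toNat)) → ℤ)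
      (sg : Pool.Agent.MPc20ce7.Idx (l.map fun s => (((s.1 : ℝ) + s.2) / 2, (s.2 - s.1 + 1).toNat)) → Fin l.length),
      (∀ a, Pool.Agent.MPc20ce7.expo _ a = (d a : ℝ)) ∧ Boxing d l.get sg ∧
      Pool.Agent.MPc20ce7.nil _ = smat d sg

/-- **TRB** (80 lines, no uses). Transport of boxings. If `g, h` are inverse to each other and degree preserving
matrices between `ι` and `ι1`, then there is a degree preserving bijection `ι1 ≃ ι`, hence a boxing of `N` on `ι1` gives
one on `ι`, and the box matrices are conjugate. PROOF. For each degree `j` the blocks of `g`, `h` of degree `j` are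
inverse to each other, so the fibres have the same number of elements (`Matrix` invertible of size `m × n` gives
`m = n`). -/
def Stmt_TRB : Prop :=
  ∀ (ι ι1 κ : Type) [Fintype ι] [DecidableEq ι] [Fintype ι1] [DecidableEq ι1] (e : ι → ℤ) (e1 : ι1 → ℤ)
    (N : κ → Seg) (sg1 : ι1 → κ) (g : Matrix ι1 ι ℂ) (h : Matrix ι ι1 ℂ),
    (∀ a b, g a b ≠ 0 → e1 a = e b) → (∀ a b, h a b ≠ 0 → e a = e1 b) → g * h = 1 → h * g = 1 →
    Boxing e1 N sg1 → ∃ sg : ι → κ, Boxing e N sg ∧ ∃ g' h' : Matrix ι ι ℂ, Deg e 0 g' ∧ Deg e 0 h' ∧ g' * h' = 1 ∧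
      h' * g' = 1 ∧ h * smat e1 sg1 * g = g' * smat e sg * h'

/-- **ORB** (90 lines, uses STD ORM ORI TRB). The orbit of the parameter of a multisegment.
PROOF. (→) `x ∈ orbit`, `l` a list of pairs with `(l : Par) = par m`; `l` is a permutation of the list of the pairs of a
list `ls` of segments (choose `ls` with `l = ls.map ..`, `(ls : Multiset) = m`); ORI, TRB and ORM (`ls.get` and `N` have
the same multiset). (←) By ORM one may replace `N` by `ls.get`, `ls = (univ.val.map N).toList`; ORI; TRB in the other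
direction: both `ι` and the index set of ORI carry a boxing of `ls.get`, so `a ↦ (sg a, e a)` gives a bijection. -/
def Stmt_ORB : Prop :=
  ∀ (ι κ : Type) [Fintype ι] [DecidableEq ι] [Fintype κ] (e : ι → ℤ) (N : κ → Seg), (∀ k, (N k).1 ≤ (N k).2) →
    ∀ x : Co (fun a => (e a : ℝ)) → ℂ,
      x ∈ orb (fun a => (e a : ℝ)) (Pool.Agent.MPc20ce7.par (Finset.univ.val.map N)) ↔
        ∃ x1 ∈ orbN e N, mat e x1 = mat (fun a => (e a : ℝ)) x

/-- **ABF** (90 lines, uses CON ORB SUP MPT REX). From `HasGood` to `ABV`. PROOF. `e : ι → ℝ := ↑(e a)`; REX (or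
helper82's `coMap` in `MP_c20ce7_dm82/RI.lean`) along `Co e ≃ Co (↑e)`; ORB, SUP, CON. -/
def Stmt_ABF : Prop :=
  ∀ (κ κ2 : Type) [Fintype κ] [Fintype κ2] (M : κ → Seg) (N : κ2 → Seg), (∀ k, (M k).1 ≤ (M k).2) →
    (∀ k, (N k).1 ≤ (N k).2) → HasGood M N →
    ABV (Pool.Agent.MPc20ce7.par (Finset.univ.val.map N)) (Pool.Agent.MPc20ce7.par (Finset.univ.val.map M))

/-! ## The Kashiwara-Saito pair and the example -/

/-- The Kashiwara-Saito pair. -/
def ksM : Fin 6 → Seg := ![(1, 2), (1, 4), (2, 3), (2, 5), (3, 4), (4, 5)]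

/-- The Kashiwara-Saito pair. -/
def ksN : Fin 8 → Seg := ![(1, 2), (1, 2), (2, 4), (2, 4), (3, 3), (3, 3), (4, 5), (4, 5)]

/-- The example, `n = 35`. -/
def exM : Fin 9 → Seg := ![(1, 4), (1, 6), (2, 5), (2, 7), (3, 6), (4, 4), (4, 7), (5, 8), (7, 8)]

/-- The larger label. -/
def exH : Fin 10 → Seg := ![(1, 4), (1, 4), (2, 6), (2, 6), (3, 5), (4, 5), (4, 7), (5, 8), (6, 7), (7, 8)]

/-- The smaller label. -/
def exL : Fin 12 → Seg :=
  ![(1, 3), (1, 4), (2, 6), (2, 6), (3, 5), (4, 4), (4, 4), (4, 7), (5, 5), (5, 7), (6, 8), (7, 8)]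

/-- The example with `X = [5]`. -/
def exMX : Fin 10 → Seg := ![(1, 4), (1, 6), (2, 5), (2, 7), (3, 6), (4, 4), (4, 7), (5, 8), (7, 8), (5, 5)]

/-- The smaller label with `X = [5]`. -/
def exLX : Fin 13 → Seg :=
  ![(1, 3), (1, 4), (2, 6), (2, 6), (3, 5), (4, 4), (4, 4), (4, 7), (5, 5), (5, 7), (6, 8), (7, 8), (5, 5)]

/-- **BASE** (helper42, helper44, helper69, helper90). -/
def Stmt_BASE : Prop := HasGood ksM ksN

/-- **CHH** (helper24; uses GS GM GH BASE). -/
def Stmt_CHH : Prop := HasGood exM exH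

/-- **CHL** (helper24; uses GS GM GH GT BASE). -/
def Stmt_CHL : Prop := HasGood exM exL ∧ HasGood exMX exLX

/-- **SUP** (20 lines, uses SCH). The support is the closure of the orbit of `M`. -/
def Stmt_SUP : Prop :=
  ∀ (ι κ κ2 : Type) [Fintype ι] [DecidableEq ι] (e : ι → ℤ) (L : Type) [AddCommGroup L] [Module ℂ L]
    (W : WMod (Co e) L) (M : κ → Seg) (N : κ2 → Seg), Good W M N → W.SuppEq (orbN e M)

end Pool.DM
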